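import Pool.Agent.W458.MF.GStm
import Pool.Agent.W552.IrrStmt

/-!
# Pieces with further eigenvectors: the standard conjecture of Hodge type
-/

open CategoryTheory AlgebraicGeometry Polynomial

universe u v w

namespace Pool.Agent.W458.MF

open Pool.Agent.H914 Pool.Agent.W534 Pool.Agent.W521.Frob VarClass Obj WeilCohomology
  Pool.Agent.H281R3.HT

/-- HODGE: the standard conjectures of Hodge type and D for all products of the varieties of the
pieces, from the conjecture of Hodge type for the varieties. -/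
def St_HODGE : Prop := ∀ {k : Type u} [Field k] {𝒱 : VarClass k} {ops : CycleOps 𝒱}
  (W : WeilCohomology.{u, v} ops) [IsAlgClosed W.K] {Y : 𝒱.Obj} {p : ℕ} (Φ : FrobSystem W p)
  (σ : W.K →+* ℂ) {I : Type} [Finite I] (P : I → Piece W Y) (m : ℕ) (R : ℤ[X]),
  GSetup Φ σ P m R → (∀ x : W.H Y, x ∈ algSpan W Y) →
  (∀ i, ∀ x, IsExt p (P i) m x → x ∈ algSpan W (P i).obj) →
  (∀ i j, SemisimpleTateIn Φ (P i).obj j) →
  ∀ D : ∀ i, (P i).obj.Cycles, (∀ i, (P i).obj.IsCyc 1 (D i)) →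
  (∀ i, 0 < (P i).obj.V.degCycle (divPow ops (D i) (P i).obj.dim (P i).obj.V.fundCycle)) →
  (∀ i, HardLefschetz W (P i).obj (D i)) → (∀ i, LefschetzB W (P i).obj (D i)) →
  (∀ i, RiemannHypothesis W (P i).obj (Φ.Fr (P i).obj) (card Φ (P i).obj 1)) →
  (∀ i, HodgeType W (P i).obj (D i)) →
  ∀ (n : ℕ) (a : Fin (n + 1) → I),
    W552.HodgeAndD W (W552.nest ops n (fun i => ⟨(P (a i)).obj, D (a i)⟩))

end Pool.Agent.W458.MF
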