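import Pool.Agent.W458.MF.NDefs

/-!
# Statements of the parts
-/

open Polynomial

namespace Pool.Agent.W458.MF

open Pool.Agent.W521.Frob

/-- The polynomials `(α ^ N - β ^ N) / (α - β)` in `X = α + β`, where `α β = q`. -/
noncomputable def luc (q : ℤ) : ℕ → ℤ[X]
  | 0 => 0
  | 1 => 1
  | N + 2 => X * luc q (N + 1) - C q * luc q N

/-- Products of `g` different linear factors `X - t` such that `t ^ 2 - 4 q` is a nonzero square
with the exception of one `t₀`, for which it is not a square and `luc q N` does not vanish. -/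
def flipSet (g N l q : ℕ) : Set (ZMod l)[X] :=
  {f | ∃ (T : Finset (ZMod l)) (t₀ : ZMod l), T.card = g ∧ t₀ ∈ T ∧ f = ∏ t ∈ T, (X - C t) ∧
    ¬ IsSquare (t₀ ^ 2 - 4 * (q : ZMod l)) ∧
    ((luc q N).map (Int.castRingHom (ZMod l))).eval t₀ ≠ 0 ∧
    ∀ t ∈ T, t ≠ t₀ → IsSquare (t ^ 2 - 4 * (q : ZMod l)) ∧ t ^ 2 - 4 * (q : ZMod l) ≠ 0}

/-- Products of `g` different linear factors `X - t` such that `t ^ 2 - 4 q` is a nonzero
square. -/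
def splitSet (g l q : ℕ) : Set (ZMod l)[X] :=
  {f | ∃ T : Finset (ZMod l), T.card = g ∧ f = ∏ t ∈ T, (X - C t) ∧
    ∀ t ∈ T, IsSquare (t ^ 2 - 4 * (q : ZMod l)) ∧ t ^ 2 - 4 * (q : ZMod l) ≠ 0}

/-- Irreducible monic polynomials of degree `g`. -/
def irrSet (g l : ℕ) : Set (ZMod l)[X] :=
  {f | f.Monic ∧ f.natDegree = g ∧ Irreducible f}

/-- The reduction of `R` modulo `l` is a product of different linear factors. -/
def SplitsMod (R : ℤ[X]) (l : ℕ) : Prop :=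
  ∃ T : Finset (ZMod l), R.map (Int.castRingHom (ZMod l)) = ∏ t ∈ T, (X - C t)

/-- ORB: the similitudes with a given characteristic polynomial. -/
def St_ORB : Prop := ∀ (g l q : ℕ), 0 < g → l.Prime → ¬ l ∣ q →
  ∀ h : ℤ[X], h.Monic → h.natDegree = g → Squarefree (h.map (Int.castRingHom (ZMod l))) →
    (similitudes g l q).ncard ≤ (2 * l) ^ g *
      {A : Matrix (Fin g ⊕ Fin g) (Fin g ⊕ Fin g) (ZMod l) | A ∈ similitudes g l q ∧
        A.charpoly = (weil q h).map (Int.castRingHom (ZMod l))}.ncard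

/-- WINJ: the characteristic polynomial determines the polynomial `h` modulo `l`. -/
def St_WINJ : Prop := ∀ (l q : ℕ) (h h' : ℤ[X]), h.Monic → h'.Monic →
  h.natDegree = h'.natDegree →
  (weil q h).map (Int.castRingHom (ZMod l)) = (weil q h').map (Int.castRingHom (ZMod l)) →
    h.map (Int.castRingHom (ZMod l)) = h'.map (Int.castRingHom (ZMod l))

/-- CNT: the numbers of polynomials with the patterns. -/
def St_CNT : Prop := ∀ g N : ℕ, 0 < g → 0 < N → ∃ c : ℝ, 0 < c ∧ ∃ l₁ : ℕ,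
  ∀ l : ℕ, l.Prime → l₁ ≤ l → ∀ q : ℕ, ¬ l ∣ q →
    c * (l : ℝ) ^ g ≤ ((flipSet g N l q).ncard : ℝ) ∧
    c * (l : ℝ) ^ g ≤ ((splitSet g l q).ncard : ℝ) ∧
    c * (l : ℝ) ^ g ≤ ((irrSet g l).ncard : ℝ)

/-- DENS: the proportions of the patterns (from ORB, WINJ, CNT). -/
def St_DENS : Prop := ∀ g N : ℕ, 0 < g → 0 < N → ∃ c : ℝ, 0 < c ∧ ∃ l₁ : ℕ,
  ∀ l : ℕ, l.Prime → l₁ ≤ l → ∀ q : ℕ, ¬ l ∣ q →
    c ≤ proportion g l q (flipSet g N l q) ∧ c ≤ proportion g l q (splitSet g l q) ∧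
    c ≤ proportion g l q (irrSet g l)

/-- SPL: infinitely many primes split completely. -/
def St_SPL : Prop := ∀ R : ℤ[X], R.Monic → (R.map (Int.castRingHom ℚ)).Separable →
  {l : ℕ | l.Prime ∧ SplitsMod R l}.Infinite

/-- UNI: roots of unity of bounded degree have bounded order. -/
def St_UNI : Prop := ∀ d : ℕ, ∃ N : ℕ, 0 < N ∧ ∀ z : ℂ, (∃ t : ℕ, 0 < t ∧ z ^ t = 1) →
  (∃ P : ℚ[X], P ≠ 0 ∧ P.natDegree ≤ d ∧ aeval z P = 0) → z ^ N = 1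

/-- SIEVE: the second moment. -/
def St_SIEVE : Prop := ∀ (S κ : Type) [Fintype S] [Nonempty S] [Fintype κ] [Nonempty κ]
  (E : κ → Set S) (μ : κ → ℝ) (c δ : ℝ), 0 < c → 0 ≤ δ → (∀ i, c ≤ μ i) → (∀ i, μ i ≤ 1) →
  (∀ i, |((E i).ncard : ℝ) / (Nat.card S : ℝ) - μ i| ≤ δ) →
  (∀ i j, i ≠ j → |((E i ∩ E j).ncard : ℝ) / (Nat.card S : ℝ) - μ i * μ j| ≤ δ) →
  ({s : S | ∀ i, s ∉ E i}.ncard : ℝ) / (Nat.card S : ℝ) ≤
    1 / (c * (Nat.card κ : ℝ)) + 4 * δ / c ^ 2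

/-- The multiplicative relations between the roots of the polynomials `weil (Q i) (h i)` and the
products of roots of `R` are balanced. -/
def Balanced {I : Type} (Q : I → ℕ) (h : I → ℤ[X]) (R : ℤ[X]) : Prop :=
  open Classical in
  ∀ l : List (I × ℂ), (∀ x ∈ l, aeval x.2 (weil (Q x.1) (h x.1)) = 0) → ∀ t : ℕ, 0 < t →
    ∀ ν ∈ Submonoid.closure {z : ℂ | aeval z R = 0}, ∀ c : ℕ, 0 < c →
      (l.map fun x => x.2 ^ t).prod * ν = (c : ℂ) →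
        ∀ i z, l.count (i, z) = l.count (i, (Q i : ℂ) / z)

/-- FLIP: a Frobenius element which exchanges two roots. -/
def St_FLIP : Prop := ∀ {I : Type} (q : I → ℕ) (h : I → ℤ[X]) (R : ℤ[X]) (U : ℤ[X]),
  (∀ i, (h i).Monic) → R.Monic →
  ∀ (L : Type) [Field L] [NumberField L] [IsGalois ℚ L] (i₀ : I),
    ((h i₀).map (algebraMap ℤ L)).Splits →
    (∀ θ : L, aeval θ (h i₀) = 0 → ∃ α : L, α ^ 2 + (q i₀ : L) = θ * α) →
    ∀ l : ℕ, l.Prime → l ≠ 2 → (∀ i, ¬ l ∣ q i) → SplitsMod R l →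
      (∀ i, i ≠ i₀ → (h i).map (Int.castRingHom (ZMod l)) ∈ splitSet (h i).natDegree l (q i)) →
      (∃ (T : Finset (ZMod l)) (t₀ : ZMod l), t₀ ∈ T ∧
        (h i₀).map (Int.castRingHom (ZMod l)) = ∏ t ∈ T, (X - C t) ∧
        ¬ IsSquare (t₀ ^ 2 - 4 * (q i₀ : ZMod l)) ∧
        (U.map (Int.castRingHom (ZMod l))).eval t₀ ≠ 0 ∧
        ∀ t ∈ T, t ≠ t₀ →
          IsSquare (t ^ 2 - 4 * (q i₀ : ZMod l)) ∧ t ^ 2 - 4 * (q i₀ : ZMod l) ≠ 0) →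
      ∃ (σ : Gal(L/ℚ)) (α : L), aeval α (weil (q i₀) (h i₀)) = 0 ∧ σ α = (q i₀ : L) / α ∧
        α ≠ (q i₀ : L) / α ∧ aeval (α + (q i₀ : L) / α) U ≠ 0 ∧
        (∀ β : L, aeval β (weil (q i₀) (h i₀)) = 0 → β ≠ α → β ≠ (q i₀ : L) / α → σ β = β) ∧
        (∀ i, i ≠ i₀ → ∀ β : L, aeval β (weil (q i) (h i)) = 0 → σ β = β) ∧
        ∀ β : L, aeval β R = 0 → σ β = β

/-- NT: the patterns imply that the relations are balanced (from FLIP). -/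
def St_NT : Prop := ∀ {I : Type} [Finite I] (q : I → ℕ) (h : I → ℤ[X]) (R : ℤ[X]) (N : ℕ),
  0 < N → (∀ i, 0 < q i) → (∀ i, (h i).Monic) → (∀ i, 0 < (h i).natDegree) → R.Monic →
  (∀ i, ∀ z : ℂ, (∃ t : ℕ, 0 < t ∧ z ^ t = 1) →
    (∃ P : ℚ[X], P ≠ 0 ∧ P.natDegree ≤ 2 * (h i).natDegree ∧ aeval z P = 0) → z ^ N = 1) →
  (∀ i, ∃ l : ℕ, l.Prime ∧ (h i).map (Int.castRingHom (ZMod l)) ∈ irrSet (h i).natDegree l) →
  (∀ i₀, ∃ l : ℕ, l.Prime ∧ l ≠ 2 ∧ (∀ i, ¬ l ∣ q i) ∧ SplitsMod R l ∧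
    (h i₀).map (Int.castRingHom (ZMod l)) ∈ flipSet (h i₀).natDegree N l (q i₀) ∧
    ∀ i, i ≠ i₀ → (h i).map (Int.castRingHom (ZMod l)) ∈ splitSet (h i).natDegree l (q i)) →
  Balanced q h R ∧ ∀ i, ((weil (q i) (h i)).map (Int.castRingHom ℚ)).Separable

end Pool.Agent.W458.MF
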