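import Pool.Agent.W521.Frob

/-!
# Symplectic similitudes over finite fields and their characteristic polynomials: definitions
-/

open Polynomial

namespace Pool.Agent.W458.MF

open Pool.Agent.W521.Frob

/-- The symplectic similitudes with multiplier `γ` of the space of dimension `2 g` over the field
with `l` elements: the matrices `A` with `A J Aᵀ = γ J`, where `J` is the matrix of the standard
alternating form. -/
def similitudes (g l : ℕ) (γ : ZMod l) : Set (Matrix (Fin g ⊕ Fin g) (Fin g ⊕ Fin g) (ZMod l)) :=
  {A | A * Matrix.J (Fin g) (ZMod l) * A.transpose = γ • Matrix.J (Fin g) (ZMod l)}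

/-- The proportion, among the symplectic similitudes with multiplier `q` of the space of dimension
`2 g` over the field with `l` elements, of those whose characteristic polynomial is
`x ^ g * h (x + q / x)` (modulo `l`) for a monic polynomial `h` of degree `g` whose reduction
modulo `l` is in `E`. -/
noncomputable def proportion (g l q : ℕ) (E : Set (ZMod l)[X]) : ℝ :=
  ({A : Matrix (Fin g ⊕ Fin g) (Fin g ⊕ Fin g) (ZMod l) | A ∈ similitudes g l q ∧
      ∃ h : ℤ[X], h.Monic ∧ h.natDegree = g ∧ h.map (Int.castRingHom (ZMod l)) ∈ E ∧
        A.charpoly = (weil q h).map (Int.castRingHom (ZMod l))}.ncard : ℝ) /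
    ((similitudes g l q).ncard : ℝ)

end Pool.Agent.W458.MF
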