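import Pool.Agent.W534.PoleDefs
import Pool.Agent.W458.MF.NDefs

/-!
# Families of varieties with symplectic monodromy: definitions
-/

open CategoryTheory AlgebraicGeometry Polynomial

universe u v

namespace Pool.Agent.W458.MF

open Pool.Agent.H914 Pool.Agent.W534 Pool.Agent.W521.Frob VarClass Obj WeilCohomology

/-- A variety `obj` with a morphism `mor` to `Y`, an endomorphism `fr`, a subspace `sub` of the
cohomology of `obj` and a polynomial `pol` with integral coefficients. -/
structure Piece {k : Type u} [Field k] {𝒱 : VarClass k} {ops : CycleOps 𝒱}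
    (W : WeilCohomology.{u, v} ops) (Y : 𝒱.Obj) where
  obj : 𝒱.Obj
  mor : obj ⟶ Y
  fr : obj ⟶ obj
  sub : Submodule W.K (W.H obj)
  pol : ℤ[X]

/-- The endomorphism `fr` is the Frobenius endomorphism of a model of the variety `obj` over the
field with `p ^ m` elements: over some larger field it gives the same Frobenius endomorphism as the
model of `obj` of the system `Φ`. -/
def Piece.IsFrobenius {k : Type u} [Field k] {𝒱 : VarClass k} {ops : CycleOps 𝒱}
    {W : WeilCohomology.{u, v} ops} {Y : 𝒱.Obj} (P : Piece W Y) {p : ℕ} (Φ : FrobSystem W p)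
    (m : ℕ) : Prop :=
  ∃ a b : ℕ, 0 < a ∧ 0 < b ∧ a * m = b * Φ.e P.obj ∧ iter P.fr a = iter (Φ.Fr P.obj) b

/-- The cohomology of `obj` is the sum of the pull-back of the cohomology of `Y` and of the
subspace `sub`. -/
def Piece.Generated {k : Type u} [Field k] {𝒱 : VarClass k} {ops : CycleOps 𝒱}
    {W : WeilCohomology.{u, v} ops} {Y : 𝒱.Obj} (P : Piece W Y) : Prop :=
  ∀ x : W.H P.obj, ∃ y : W.H Y, x - W.map P.mor y ∈ P.sub

/-- The characteristic polynomial of the endomorphism `fr` on the subspace `sub`. -/
noncomputable def Piece.charpoly {k : Type u} [Field k] {𝒱 : VarClass k} {ops : CycleOps 𝒱}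
    {W : WeilCohomology.{u, v} ops} {Y : 𝒱.Obj} (P : Piece W Y) : W.K[X] :=
  charpolyOn (W.map P.fr).toLinearMap P.sub

/-- The endomorphism `fr` is a Frobenius endomorphism of `obj` over the field with `p ^ m`
elements, the cohomology of `obj` is the sum of the pull-back of the cohomology of `Y` and of the
subspace `sub` of the cohomology of degree `n = dim obj`, on which the Frobenius endomorphism `fr`
has the characteristic polynomial `x ^ g * h (x + q / x)`, where `q = p ^ (n m)`, and `h = pol` is
monic of degree `g > 0`. -/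
structure Piece.IsOver {k : Type u} [Field k] {𝒱 : VarClass k} {ops : CycleOps 𝒱}
    {W : WeilCohomology.{u, v} ops} {Y : 𝒱.Obj} (P : Piece W Y) {p : ℕ} (Φ : FrobSystem W p)
    (m : ℕ) : Prop where
  frobenius : P.IsFrobenius Φ m
  sub_le : P.sub ≤ W.gr P.obj P.obj.dim
  generated : P.Generated
  monic : P.pol.Monic
  degree_pos : 0 < P.pol.natDegree
  charpoly : P.charpoly = (weil (p ^ (P.obj.dim * m)) P.pol).map (Int.castRingHom W.K)

/-- A family of varieties over `Y`: for every `m` the finite set `S m` of the parameters with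
coordinates in the field with `p ^ m` elements, and the members of the family. -/
structure Family {k : Type u} [Field k] {𝒱 : VarClass k} {ops : CycleOps 𝒱}
    (W : WeilCohomology.{u, v} ops) (Y : 𝒱.Obj) where
  S : ℕ → Type
  fin : ∀ m, Fintype (S m)
  member : ∀ m, S m → Piece W Y

attribute [instance] Family.fin

/-- The proportion of the parameters in `S m` for which the reductions of the polynomial modulo
`l` and `l'` are in `E` and `E'`. -/
noncomputable def Family.frequency {k : Type u} [Field k] {𝒱 : VarClass k} {ops : CycleOps 𝒱}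
    {W : WeilCohomology.{u, v} ops} {Y : 𝒱.Obj} (F : Family W Y) (m l l' : ℕ)
    (E : Set (ZMod l)[X]) (E' : Set (ZMod l')[X]) : ℝ :=
  ({s : F.S m | (F.member m s).pol.map (Int.castRingHom (ZMod l)) ∈ E ∧
      (F.member m s).pol.map (Int.castRingHom (ZMod l')) ∈ E'}.ncard : ℝ) /
    (Nat.card (F.S m) : ℝ)

/-- The family of varieties of dimension `n` over `Y` has full symplectic monodromy of rank `2 g`
modulo all large primes: the members of the family are as in `Piece.IsOver`, and for all primes
`l ≠ l'` with `l, l' ≥ l₀` the matrices of the Frobenius endomorphisms of the members over the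
field with `p ^ m` elements, modulo `l` and modulo `l'`, are asymptotically, as `m` tends to
infinity, independent and equidistributed in the sets of the symplectic similitudes with
multiplier `p ^ (n m)`, as far as their characteristic polynomials are concerned. -/
structure Family.HasSymplecticMonodromy {k : Type u} [Field k] {𝒱 : VarClass k}
    {ops : CycleOps 𝒱} {W : WeilCohomology.{u, v} ops} {Y : 𝒱.Obj} (F : Family W Y) {p : ℕ}
    (Φ : FrobSystem W p) (n g l₀ : ℕ) : Prop where
  isOver : ∀ m, 0 < m → ∀ s : F.S m, (F.member m s).IsOver Φ m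
  dim : ∀ m (s : F.S m), (F.member m s).obj.dim = n
  degree : ∀ m (s : F.S m), (F.member m s).pol.natDegree = g
  equidistributed : ∀ l l' : ℕ, l.Prime → l'.Prime → l₀ ≤ l → l₀ ≤ l' → l ≠ l' →
    ∀ ε : ℝ, 0 < ε → ∃ m₀ : ℕ, ∀ m ≥ m₀, Nonempty (F.S m) →
      ∀ (E : Set (ZMod l)[X]) (E' : Set (ZMod l')[X]), |F.frequency m l l' E E' -
          proportion g l (p ^ (n * m)) E * proportion g l' (p ^ (n * m)) E'| ≤ ε

end Pool.Agent.W458.MF
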