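import Pool.Agent.W458.MF.ODefs

/-!
# Isometries of quadratic spaces over finite fields with the eigenvalue one: definitions
-/

open Polynomial

namespace Pool.Agent.W458.MF

open Pool.Agent.W521.Frob

/-- The group of the isometries of the bilinear form with matrix `M`. -/
def isomOf {n : Type} [Fintype n] [DecidableEq n] {R : Type} [CommRing R] (M : Matrix n n R) :
    Subgroup (Matrix n n R)ˣ where
  carrier := {P | P.val * M * P.val.transpose = M}
  mul_mem' := by
    intro P P' hP hP'
    simp only [Set.mem_ofPred_eq] at hP hP' ⊢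
    rw [Units.val_mul, Matrix.transpose_mul]
    calc P.val * P'.val * M * (P'.val.transpose * P.val.transpose)
        = P.val * (P'.val * M * P'.val.transpose) * P.val.transpose := by
          simp only [mul_assoc]
      _ = M := by rw [hP', hP]
  one_mem' := by
    simp only [Set.mem_ofPred_eq]
    rw [Units.val_one, Matrix.transpose_one, one_mul, mul_one]
  inv_mem' := by
    intro P hP
    simp only [Set.mem_ofPred_eq] at hP ⊢
    have h1 : P.val.transpose * (P⁻¹).val.transpose = 1 := by
      rw [← Matrix.transpose_mul, ← Units.val_mul, inv_mul_cancel, Units.val_one,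
        Matrix.transpose_one]
    calc (P⁻¹).val * M * (P⁻¹).val.transpose
        = (P⁻¹).val * (P.val * M * P.val.transpose) * (P⁻¹).val.transpose := by rw [hP]
      _ = ((P⁻¹).val * P.val) * M * (P.val.transpose * (P⁻¹).val.transpose) := by
            simp only [mul_assoc]
      _ = M := by
            rw [h1, ← Units.val_mul, inv_mul_cancel, Units.val_one, one_mul, mul_one]

/-- The matrix of the orthogonal sum of the split symmetric bilinear form of rank `2 g` and of the
diagonal form with the first `e` of the entries `2`, `2 δ` (where `e` is `1` or `2`). -/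
def extForm (g l e : ℕ) (δ : (ZMod l)ˣ) :
    Matrix ((Fin g ⊕ Fin g) ⊕ Fin e) ((Fin g ⊕ Fin g) ⊕ Fin e) (ZMod l) :=
  Matrix.fromBlocks (splitForm g l) 0 0
    (Matrix.diagonal fun i => if i.val = 0 then 2 else 2 * (δ : ZMod l))

/-- The diagonal matrix with the entries `κ, 1, …, 1, κ⁻¹, 1, …, 1` and the first `e` of the entries
`1`, `-1`. -/
def extElt (g l e : ℕ) (κ : (ZMod l)ˣ) :
    Matrix ((Fin g ⊕ Fin g) ⊕ Fin e) ((Fin g ⊕ Fin g) ⊕ Fin e) (ZMod l) :=
  Matrix.fromBlocks (diagElt g l κ) 0 0 (Matrix.diagonal fun i => if i.val = 0 then 1 else -1)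

/-- The coset, in the group of isometries, of the commutator subgroup, which contains the diagonal
matrix `extElt g l e κ`. -/
def extCoset (g l e : ℕ) (δ κ : (ZMod l)ˣ) :
    Set (Matrix ((Fin g ⊕ Fin g) ⊕ Fin e) ((Fin g ⊕ Fin g) ⊕ Fin e) (ZMod l)) :=
  {B | ∃ ω ∈ ⁅isomOf (extForm g l e δ), isomOf (extForm g l e δ)⁆, B = extElt g l e κ * ω.val}

/-- The product of the first `e` of the factors `X - r`, `X + r` (where `e` is `1` or `2`). -/
noncomputable def extra (e : ℕ) (r : ℤ) : ℤ[X] :=
  ∏ i : Fin e, (X - C (if i.val = 0 then r else -r))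

/-- The proportion, among the isometries `B` in the coset `extCoset g l e δ κ`, of those for which
the characteristic polynomial of the similitude `r B` (with multiplier `q = r ^ 2`) is
`x ^ g * h (x + q / x) * extra e r` (modulo `l`) for a monic polynomial `h` of degree `g` whose
reduction modulo `l` is in `E`. -/
noncomputable def eproportion (g l : ℕ) (r : ℤ) (e : ℕ) (δ κ : (ZMod l)ˣ)
    (E : Set (ZMod l)[X]) : ℝ :=
  ({B : Matrix ((Fin g ⊕ Fin g) ⊕ Fin e) ((Fin g ⊕ Fin g) ⊕ Fin e) (ZMod l) |
      B ∈ extCoset g l e δ κ ∧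
      ∃ h : ℤ[X], h.Monic ∧ h.natDegree = g ∧ h.map (Int.castRingHom (ZMod l)) ∈ E ∧
        ((r : ZMod l) • B).charpoly =
          (weil (r.natAbs ^ 2) h * extra e r).map (Int.castRingHom (ZMod l))}.ncard : ℝ) /
    ((extCoset g l e δ κ).ncard : ℝ)

end Pool.Agent.W458.MF
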