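import Pool.Agent.W458.MF.ODefs

/-!
# Statements of the parts for families with orthogonal monodromy
-/

open Polynomial

namespace Pool.Agent.W458.MF

open Pool.Agent.W521.Frob

/-- The polynomial `x ^ g * u (x + γ / x)`, `g` the degree of `u`, over the field with `l`
elements. -/
noncomputable def weilm {l : ℕ} (γ : ZMod l) (u : (ZMod l)[X]) : (ZMod l)[X] :=
  ∑ j ∈ Finset.range (u.natDegree + 1),
    C (u.coeff j) * ((X ^ 2 + C γ) ^ j * X ^ (u.natDegree - j))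

/-- Products of `g` different linear factors `X - t` such that `t ^ 2 - 4 q` is a nonzero square
with the exception of two, `t₀` and `t₁`, for which it is not a square, and `luc q N` does not
vanish at `t₀`. -/
def flip2Set (g N l q : ℕ) : Set (ZMod l)[X] :=
  {f | ∃ (T : Finset (ZMod l)) (t₀ t₁ : ZMod l), T.card = g ∧ t₀ ∈ T ∧ t₁ ∈ T ∧ t₀ ≠ t₁ ∧
    f = ∏ t ∈ T, (X - C t) ∧
    ¬ IsSquare (t₀ ^ 2 - 4 * (q : ZMod l)) ∧ ¬ IsSquare (t₁ ^ 2 - 4 * (q : ZMod l)) ∧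
    ((luc q N).map (Int.castRingHom (ZMod l))).eval t₀ ≠ 0 ∧
    ∀ t ∈ T, t ≠ t₀ → t ≠ t₁ →
      IsSquare (t ^ 2 - 4 * (q : ZMod l)) ∧ t ^ 2 - 4 * (q : ZMod l) ≠ 0}

/-- Products of a linear factor and of a monic irreducible polynomial of degree `g - 1`. -/
def fixSet (g l : ℕ) : Set (ZMod l)[X] :=
  {f | ∃ (t : ZMod l) (u : (ZMod l)[X]), u.Monic ∧ u.natDegree + 1 = g ∧ Irreducible u ∧
    f = (X - C t) * u}

/-- The monic polynomials `u` of degree `g` for which `weilm (r ^ 2) u` is squarefree and a product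
of a polynomial `f` of degree `g` and of its dual polynomial (with the roots `r ^ 2 / a` for the
roots `a` of `f`), where the product of the roots of `f` is `κ r ^ g` times a square. -/
def halved (g l r : ℕ) (κ : (ZMod l)ˣ) : Set (ZMod l)[X] :=
  {u | u.Monic ∧ u.natDegree = g ∧ Squarefree (weilm ((r : ZMod l) ^ 2) u) ∧
    ∃ f : (ZMod l)[X], f.Monic ∧ f.natDegree = g ∧ f.coeff 0 ≠ 0 ∧
      IsSquare ((κ : ZMod l) * ((-1) ^ g * f.coeff 0 * (r : ZMod l) ^ g)) ∧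
      C (f.coeff 0) * weilm ((r : ZMod l) ^ 2) u =
        f * (f.comp (C ((r : ZMod l) ^ 2) * X)).reverse}

/-- Products of `g` different linear factors `X - t`, such that for two of them, `t₀` and `t₁`,
`t + 2 r` is a nonzero square and `t - 2 r` is not a square, and `luc (r ^ 2) N` does not vanish at
`t₀`, and for the others `t ^ 2 - 4 r ^ 2` is a nonzero square, and the product of the
`r (t + 2 r)` for the others is `κ` times a square. -/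
def oflipSet (g N l r : ℕ) (κ : (ZMod l)ˣ) : Set (ZMod l)[X] :=
  {f | ∃ (T : Finset (ZMod l)) (t₀ t₁ : ZMod l), T.card = g ∧ t₀ ∈ T ∧ t₁ ∈ T ∧ t₀ ≠ t₁ ∧
    f = ∏ t ∈ T, (X - C t) ∧
    (IsSquare (t₀ + 2 * (r : ZMod l)) ∧ t₀ + 2 * (r : ZMod l) ≠ 0 ∧
      ¬ IsSquare (t₀ - 2 * (r : ZMod l))) ∧
    (IsSquare (t₁ + 2 * (r : ZMod l)) ∧ t₁ + 2 * (r : ZMod l) ≠ 0 ∧
      ¬ IsSquare (t₁ - 2 * (r : ZMod l))) ∧
    ((luc ((r ^ 2 : ℕ) : ℤ) N).map (Int.castRingHom (ZMod l))).eval t₀ ≠ 0 ∧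
    (∀ t ∈ (T.erase t₀).erase t₁,
      IsSquare (t ^ 2 - 4 * (r : ZMod l) ^ 2) ∧ t ^ 2 - 4 * (r : ZMod l) ^ 2 ≠ 0) ∧
    IsSquare ((κ : ZMod l) * ∏ t ∈ (T.erase t₀).erase t₁,
      ((r : ZMod l) * (t + 2 * (r : ZMod l))))}

/-- WM: the polynomials `weilm`. -/
def St_WM : Prop := ∀ l : ℕ, l.Prime → ∀ γ : ZMod l,
  (∀ u v : (ZMod l)[X], u.Monic → v.Monic → weilm γ (u * v) = weilm γ u * weilm γ v) ∧
  (∀ t : ZMod l, weilm γ (X - C t) = X ^ 2 - C t * X + C γ) ∧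
  (∀ u : (ZMod l)[X], u.Monic → (weilm γ u).Monic ∧ (weilm γ u).natDegree = 2 * u.natDegree) ∧
  (∀ (q : ℕ) (h : ℤ[X]), h.Monic → (weil q h).map (Int.castRingHom (ZMod l)) =
    weilm (q : ZMod l) (h.map (Int.castRingHom (ZMod l)))) ∧
  ∀ u : (ZMod l)[X], u.Monic → ∃ h : ℤ[X], h.Monic ∧ h.natDegree = u.natDegree ∧
    h.map (Int.castRingHom (ZMod l)) = u

/-- OMEG: the block diagonal isometries whose blocks have a square as determinant are in the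
commutator subgroup. -/
def St_OMEG : Prop := ∀ g l : ℕ, 2 ≤ g → l.Prime → 5 ≤ l →
  ∀ M : Matrix (Fin g) (Fin g) (ZMod l), M.det ≠ 0 → IsSquare M.det →
    ∃ ω ∈ Omega g l, ω.val = Matrix.fromBlocks M 0 0 M⁻¹.transpose

/-- OORB: the number of the isometries in a coset of the commutator subgroup with a given
characteristic polynomial. -/
def St_OORB : Prop := ∀ (g l r : ℕ) (κ : (ZMod l)ˣ) (u : (ZMod l)[X]), 0 < g → l.Prime → l ≠ 2 →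
  ¬ l ∣ r → u.Monic → u.natDegree = g → Squarefree (weilm ((r : ZMod l) ^ 2) u) →
    (∃ B ∈ cosetOf g l κ, ((r : ZMod l) • B).charpoly = weilm ((r : ZMod l) ^ 2) u) →
      (cosetOf g l κ).ncard ≤ (2 * l) ^ g *
        {B | B ∈ cosetOf g l κ ∧
          ((r : ZMod l) • B).charpoly = weilm ((r : ZMod l) ^ 2) u}.ncard

/-- REAL1 (from OMEG): block diagonal isometries. -/
def St_REAL1 : Prop := ∀ (g l r : ℕ) (κ : (ZMod l)ˣ) (f : (ZMod l)[X]), 2 ≤ g → l.Prime → 5 ≤ l →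
  ¬ l ∣ r → f.Monic → f.natDegree = g → f.coeff 0 ≠ 0 →
  IsSquare ((κ : ZMod l) * ((-1) ^ g * f.coeff 0 * (r : ZMod l) ^ g)) →
    ∃ B ∈ cosetOf g l κ, C (f.coeff 0) * ((r : ZMod l) • B).charpoly =
      f * (f.comp (C ((r : ZMod l) ^ 2) * X)).reverse

/-- REAL2 (from OMEG): isometries with two nonsplit factors. -/
def St_REAL2 : Prop := ∀ (g l r : ℕ) (κ : (ZMod l)ˣ) (T : Finset (ZMod l)) (t₀ t₁ : ZMod l),
  3 ≤ g → l.Prime → 5 ≤ l → ¬ l ∣ r → T.card = g → t₀ ∈ T → t₁ ∈ T → t₀ ≠ t₁ →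
  (IsSquare (t₀ + 2 * (r : ZMod l)) ∧ t₀ + 2 * (r : ZMod l) ≠ 0 ∧
    ¬ IsSquare (t₀ - 2 * (r : ZMod l))) →
  (IsSquare (t₁ + 2 * (r : ZMod l)) ∧ t₁ + 2 * (r : ZMod l) ≠ 0 ∧
    ¬ IsSquare (t₁ - 2 * (r : ZMod l))) →
  (∀ t ∈ (T.erase t₀).erase t₁,
    IsSquare (t ^ 2 - 4 * (r : ZMod l) ^ 2) ∧ t ^ 2 - 4 * (r : ZMod l) ^ 2 ≠ 0) →
  IsSquare ((κ : ZMod l) * ∏ t ∈ (T.erase t₀).erase t₁,
    ((r : ZMod l) * (t + 2 * (r : ZMod l)))) →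
    ∃ B ∈ cosetOf g l κ, ((r : ZMod l) • B).charpoly =
      ∏ t ∈ T, (X ^ 2 - C t * X + C ((r : ZMod l) ^ 2))

/-- OCNTS: the number of polynomials with the split pattern. -/
def St_OCNTS : Prop := ∀ g : ℕ, 3 ≤ g → ∃ c : ℝ, 0 < c ∧ ∃ l₁ : ℕ,
  ∀ l : ℕ, l.Prime → l₁ ≤ l → ∀ r : ℕ, ¬ l ∣ r → ∀ κ : (ZMod l)ˣ,
    c * (l : ℝ) ^ g ≤ ((splitSet g l (r ^ 2) ∩ halved g l r κ).ncard : ℝ)

/-- OCNTE: the number of polynomials with the pattern with two exceptions. -/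
def St_OCNTE : Prop := ∀ g N : ℕ, 3 ≤ g → 0 < N → ∃ c : ℝ, 0 < c ∧ ∃ l₁ : ℕ,
  ∀ l : ℕ, l.Prime → l₁ ≤ l → ∀ r : ℕ, ¬ l ∣ r → ∀ κ : (ZMod l)ˣ,
    c * (l : ℝ) ^ g ≤ ((oflipSet g N l r κ).ncard : ℝ)

/-- OCNTI: the number of irreducible polynomials. -/
def St_OCNTI : Prop := ∀ g : ℕ, 2 ≤ g → ∃ c : ℝ, 0 < c ∧ ∃ l₁ : ℕ,
  ∀ l : ℕ, l.Prime → l₁ ≤ l → ∀ r : ℕ, ¬ l ∣ r → ∀ κ : (ZMod l)ˣ,
    c * (l : ℝ) ^ g ≤ ((irrSet g l ∩ halved g l r κ).ncard : ℝ)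

/-- OCNTF: the number of products of a linear factor and of an irreducible polynomial. -/
def St_OCNTF : Prop := ∀ g : ℕ, 3 ≤ g → ∃ c : ℝ, 0 < c ∧ ∃ l₁ : ℕ,
  ∀ l : ℕ, l.Prime → l₁ ≤ l → ∀ r : ℕ, ¬ l ∣ r → ∀ κ : (ZMod l)ˣ,
    c * (l : ℝ) ^ g ≤ ((fixSet g l ∩ halved g l r κ).ncard : ℝ)

/-- ODENS: the proportions of the patterns (from the previous statements). -/
def St_ODENS : Prop := ∀ g N : ℕ, 3 ≤ g → 0 < N → ∃ c : ℝ, 0 < c ∧ ∃ l₁ : ℕ,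
  ∀ l : ℕ, l.Prime → l₁ ≤ l → ∀ r : ℕ, ¬ l ∣ r → ∀ κ : (ZMod l)ˣ,
    c ≤ oproportion g l r κ (flip2Set g N l (r ^ 2)) ∧
    c ≤ oproportion g l r κ (splitSet g l (r ^ 2)) ∧
    c ≤ oproportion g l r κ (irrSet g l) ∧
    c ≤ oproportion g l r κ (fixSet g l)

/-- FLIP2: a Frobenius element which exchanges two pairs of roots. -/
def St_FLIP2 : Prop := ∀ {I : Type} (q : I → ℕ) (h : I → ℤ[X]) (R : ℤ[X]) (U : ℤ[X]),
  (∀ i, (h i).Monic) → R.Monic →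
  ∀ (L : Type) [Field L] [NumberField L] [IsGalois ℚ L] (i₀ : I),
    ((h i₀).map (algebraMap ℤ L)).Splits →
    (∀ θ : L, aeval θ (h i₀) = 0 → ∃ α : L, α ^ 2 + (q i₀ : L) = θ * α) →
    ∀ l : ℕ, l.Prime → l ≠ 2 → (∀ i, ¬ l ∣ q i) → SplitsMod R l →
      (∀ i, i ≠ i₀ → (h i).map (Int.castRingHom (ZMod l)) ∈ splitSet (h i).natDegree l (q i)) →
      (∃ (T : Finset (ZMod l)) (t₀ t₁ : ZMod l), t₀ ∈ T ∧ t₁ ∈ T ∧ t₀ ≠ t₁ ∧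
        (h i₀).map (Int.castRingHom (ZMod l)) = ∏ t ∈ T, (X - C t) ∧
        ¬ IsSquare (t₀ ^ 2 - 4 * (q i₀ : ZMod l)) ∧ ¬ IsSquare (t₁ ^ 2 - 4 * (q i₀ : ZMod l)) ∧
        (U.map (Int.castRingHom (ZMod l))).eval t₀ ≠ 0 ∧
        ∀ t ∈ T, t ≠ t₀ → t ≠ t₁ →
          IsSquare (t ^ 2 - 4 * (q i₀ : ZMod l)) ∧ t ^ 2 - 4 * (q i₀ : ZMod l) ≠ 0) →
      ∃ (σ : Gal(L/ℚ)) (θ₀ θ₁ : L), aeval θ₀ (h i₀) = 0 ∧ aeval θ₁ (h i₀) = 0 ∧ θ₀ ≠ θ₁ ∧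
        aeval θ₀ U ≠ 0 ∧
        (∀ β : L, aeval β (weil (q i₀) (h i₀)) = 0 →
          (β + (q i₀ : L) / β = θ₀ ∨ β + (q i₀ : L) / β = θ₁) →
            σ β = (q i₀ : L) / β ∧ β ≠ (q i₀ : L) / β) ∧
        (∀ β : L, aeval β (weil (q i₀) (h i₀)) = 0 → β + (q i₀ : L) / β ≠ θ₀ →
          β + (q i₀ : L) / β ≠ θ₁ → σ β = β) ∧
        (∀ i, i ≠ i₀ → ∀ β : L, aeval β (weil (q i) (h i)) = 0 → σ β = β) ∧
        ∀ β : L, aeval β R = 0 → σ β = β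

/-- FIX: a Frobenius element which fixes exactly one root. -/
def St_FIX : Prop := ∀ h : ℤ[X], h.Monic → 3 ≤ h.natDegree →
  ∀ (L : Type) [Field L] [NumberField L] [IsGalois ℚ L], (h.map (algebraMap ℤ L)).Splits →
    ∀ l : ℕ, l.Prime → h.map (Int.castRingHom (ZMod l)) ∈ fixSet h.natDegree l →
      ∃ (σ : Gal(L/ℚ)) (θ : L), aeval θ h = 0 ∧ σ θ = θ ∧
        ∀ θ' : L, aeval θ' h = 0 → σ θ' = θ' → θ' = θ

/-- NT2: the patterns imply that the relations are balanced (from FLIP, FLIP2, FIX): the indices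
`i` with `o i` have the orthogonal patterns, the other indices have the symplectic patterns. -/
def St_NT2 : Prop := ∀ {I : Type} [Finite I] (o : I → Prop) (q : I → ℕ) (h : I → ℤ[X])
  (R : ℤ[X]) (N : ℕ), 0 < N → (∀ i, 0 < q i) → (∀ i, (h i).Monic) →
  (∀ i, 0 < (h i).natDegree) → R.Monic →
  (∀ i, ∀ z : ℂ, (∃ t : ℕ, 0 < t ∧ z ^ t = 1) →
    (∃ P : ℚ[X], P ≠ 0 ∧ P.natDegree ≤ 2 * (h i).natDegree ∧ aeval z P = 0) → z ^ N = 1) →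
  (∀ i, ∃ l : ℕ, l.Prime ∧ (h i).map (Int.castRingHom (ZMod l)) ∈ irrSet (h i).natDegree l) →
  (∀ i₀, ¬ o i₀ → ∃ l : ℕ, l.Prime ∧ l ≠ 2 ∧ (∀ i, ¬ l ∣ q i) ∧ SplitsMod R l ∧
    (h i₀).map (Int.castRingHom (ZMod l)) ∈ flipSet (h i₀).natDegree N l (q i₀) ∧
    ∀ i, i ≠ i₀ → (h i).map (Int.castRingHom (ZMod l)) ∈ splitSet (h i).natDegree l (q i)) →
  (∀ i₀, o i₀ → 3 ≤ (h i₀).natDegree ∧
    (∃ l : ℕ, l.Prime ∧ (h i₀).map (Int.castRingHom (ZMod l)) ∈ fixSet (h i₀).natDegree l) ∧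
    ∃ l : ℕ, l.Prime ∧ l ≠ 2 ∧ (∀ i, ¬ l ∣ q i) ∧ SplitsMod R l ∧
      (h i₀).map (Int.castRingHom (ZMod l)) ∈ flip2Set (h i₀).natDegree N l (q i₀) ∧
      ∀ i, i ≠ i₀ → (h i).map (Int.castRingHom (ZMod l)) ∈ splitSet (h i).natDegree l (q i)) →
  Balanced q h R ∧ ∀ i, ((weil (q i) (h i)).map (Int.castRingHom ℚ)).Separable

end Pool.Agent.W458.MF
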