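import Pool.Agent.W458.MF.EDefs
import Pool.Agent.W458.MF.OStm

/-!
# Statements of the parts for families with orthogonal monodromy and the eigenvalue one
-/

open Polynomial

namespace Pool.Agent.W458.MF

open Pool.Agent.W521.Frob

/-- The characteristic polynomials of the similitudes `r B`. -/
noncomputable def echar (g l r e : ℕ) (u : (ZMod l)[X]) : (ZMod l)[X] :=
  weilm ((r : ZMod l) ^ 2) u *
    ∏ i : Fin e, (X - C (if i.val = 0 then (r : ZMod l) else -(r : ZMod l)))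

/-- EORB: the number of the isometries in a coset of the commutator subgroup with a given
characteristic polynomial. -/
def St_EORB : Prop := ∀ (g l r e : ℕ) (δ κ : (ZMod l)ˣ) (u : (ZMod l)[X]), 0 < g → l.Prime →
  l ≠ 2 → ¬ l ∣ r → (e = 1 ∨ e = 2) → u.Monic → u.natDegree = g → Squarefree (echar g l r e u) →
    (∃ B ∈ extCoset g l e δ κ, ((r : ZMod l) • B).charpoly = echar g l r e u) →
      (extCoset g l e δ κ).ncard ≤ 4 * (2 * l) ^ g *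
        {B | B ∈ extCoset g l e δ κ ∧ ((r : ZMod l) • B).charpoly = echar g l r e u}.ncard

/-- EREAL1: extension of isometries of the split space. -/
def St_EREAL1 : Prop := ∀ (g l r e : ℕ) (δ κ : (ZMod l)ˣ) (u : (ZMod l)[X]), l.Prime →
  l ≠ 2 → (∃ B ∈ cosetOf g l κ, ((r : ZMod l) • B).charpoly = weilm ((r : ZMod l) ^ 2) u) →
    ∃ B ∈ extCoset g l e δ κ, ((r : ZMod l) • B).charpoly = echar g l r e u

/-- EREAL2 (from OMEG): isometries with one nonsplit factor. -/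
def St_EREAL2 : Prop := ∀ (g l r e : ℕ) (δ κ : (ZMod l)ˣ) (T : Finset (ZMod l)) (t₀ : ZMod l),
  2 ≤ g → l.Prime → 5 ≤ l → ¬ l ∣ r → (e = 1 ∨ e = 2) → T.card = g → t₀ ∈ T →
  t₀ ^ 2 - 4 * (r : ZMod l) ^ 2 ≠ 0 →
  (∀ t ∈ T.erase t₀,
    IsSquare (t ^ 2 - 4 * (r : ZMod l) ^ 2) ∧ t ^ 2 - 4 * (r : ZMod l) ^ 2 ≠ 0) →
  IsSquare ((κ : ZMod l) * ∏ t ∈ T, ((r : ZMod l) * (t + 2 * (r : ZMod l)))) →
    ∃ B ∈ extCoset g l e δ κ, ((r : ZMod l) • B).charpoly =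
      (∏ t ∈ T, (X ^ 2 - C t * X + C ((r : ZMod l) ^ 2))) *
        ∏ i : Fin e, (X - C (if i.val = 0 then (r : ZMod l) else -(r : ZMod l)))

/-- Products of `g` different linear factors `X - t`, such that for one of them, `t₀`,
`t ^ 2 - 4 r ^ 2` is not a square, and `luc (r ^ 2) N` does not vanish at `t₀`, and for the others
`t ^ 2 - 4 r ^ 2` is a nonzero square, and the product of all `r (t + 2 r)` is `κ` times a
square. -/
def eflipSet (g N l r : ℕ) (κ : (ZMod l)ˣ) : Set (ZMod l)[X] :=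
  {f | ∃ (T : Finset (ZMod l)) (t₀ : ZMod l), T.card = g ∧ t₀ ∈ T ∧ f = ∏ t ∈ T, (X - C t) ∧
    ¬ IsSquare (t₀ ^ 2 - 4 * (r : ZMod l) ^ 2) ∧
    ((luc ((r ^ 2 : ℕ) : ℤ) N).map (Int.castRingHom (ZMod l))).eval t₀ ≠ 0 ∧
    (∀ t ∈ T.erase t₀,
      IsSquare (t ^ 2 - 4 * (r : ZMod l) ^ 2) ∧ t ^ 2 - 4 * (r : ZMod l) ^ 2 ≠ 0) ∧
    IsSquare ((κ : ZMod l) * ∏ t ∈ T, ((r : ZMod l) * (t + 2 * (r : ZMod l))))}

/-- ECNT: the number of polynomials with the pattern with one exception. -/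
def St_ECNT : Prop := ∀ g N : ℕ, 0 < g → 0 < N → ∃ c : ℝ, 0 < c ∧ ∃ l₁ : ℕ,
  ∀ l : ℕ, l.Prime → l₁ ≤ l → ∀ r : ℕ, ¬ l ∣ r → ∀ κ : (ZMod l)ˣ,
    c * (l : ℝ) ^ g ≤ ((eflipSet g N l r κ).ncard : ℝ)

/-- EDENS: the proportions of the patterns (from the previous statements). -/
def St_EDENS : Prop := ∀ g N : ℕ, 3 ≤ g → 0 < N → ∃ c : ℝ, 0 < c ∧ ∃ l₁ : ℕ,
  ∀ l : ℕ, l.Prime → l₁ ≤ l → ∀ r : ℤ, ¬ (l : ℤ) ∣ r → ∀ e : ℕ, (e = 1 ∨ e = 2) →
    ∀ δ κ : (ZMod l)ˣ,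
      c ≤ eproportion g l r e δ κ (flipSet g N l (r.natAbs ^ 2)) ∧
      c ≤ eproportion g l r e δ κ (splitSet g l (r.natAbs ^ 2)) ∧
      c ≤ eproportion g l r e δ κ (irrSet g l)

end Pool.Agent.W458.MF
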