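import Pool.Agent.W458.MF.Defs
import Pool.Agent.H914R2.DDefs

/-!
# Exceptional tuples of members of families
-/

open CategoryTheory AlgebraicGeometry

universe u v

namespace Pool.Agent.W458.MF

open Pool.Agent.H914 Pool.Agent.W534 VarClass Obj WeilCohomology

/-- The tuples of members of the families such that not all products of copies of `Y` and of the
members have the property `P`. -/
def exceptions {k : Type u} [Field k] {𝒱 : VarClass k} {ops : CycleOps 𝒱}
    {W : WeilCohomology.{u, v} ops} {Y : 𝒱.Obj} {I : Type} (F : I → Family W Y) (m : ℕ)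
    (P : 𝒱.Obj → Prop) : Set (∀ i, (F i).S m) :=
  {s | ¬ ∀ Z, IsProductOf ({Y} ∪ Set.range fun i => ((F i).member m (s i)).obj) Z → P Z}

end Pool.Agent.W458.MF
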