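import Pool.Agent.W458.MF.Defs
import Pool.Agent.W458.MF.EDefs

/-!
# Families of varieties with large monodromy: definitions
-/

open CategoryTheory AlgebraicGeometry Polynomial

universe u v

namespace Pool.Agent.W458.MF.Fam

open Pool.Agent.H914 Pool.Agent.W534 VarClass Obj WeilCohomology Pool.Agent.W458.MF

/-- The polynomial `x ^ g * h (x + q / x)`, `g` the degree of `h`. -/
noncomputable def weilPoly (q : ℕ) (h : ℤ[X]) : ℤ[X] :=
  ∑ j ∈ Finset.range (h.natDegree + 1),
    C (h.coeff j) * ((X ^ 2 + C (q : ℤ)) ^ j * X ^ (h.natDegree - j))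

/-- The product of the first `e` of the factors `X - r`, `X + r` (where `e` is `0`, `1` or `2`). -/
noncomputable def extraPoly (e : ℕ) (r : ℤ) : ℤ[X] :=
  ∏ i : Fin e, (X - C (if i.val = 0 then r else -r))

/-- The reduction of `D` modulo `l` is a product of different linear factors. -/
def SplitsAt (D : ℤ[X]) (l : ℕ) : Prop :=
  ∃ T : Finset (ZMod l), D.map (Int.castRingHom (ZMod l)) = ∏ t ∈ T, (X - C t)

/-- The proportion, among the matrices `B` in the set `S`, of those for which the characteristic
polynomial of `c B` is the reduction modulo `l` of `w h` for a monic polynomial `h` with integral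
coefficients and of degree `g`, whose reduction modulo `l` is in `E`. -/
noncomputable def law {n : Type} [Fintype n] [DecidableEq n] (l : ℕ) (S : Set (Matrix n n (ZMod l)))
    (c : ZMod l) (w : ℤ[X] → ℤ[X]) (g : ℕ) (E : Set (ZMod l)[X]) : ℝ :=
  ({B : Matrix n n (ZMod l) | B ∈ S ∧ ∃ h : ℤ[X], h.Monic ∧ h.natDegree = g ∧
      h.map (Int.castRingHom (ZMod l)) ∈ E ∧
        (c • B).charpoly = (w h).map (Int.castRingHom (ZMod l))}.ncard : ℝ) / (S.ncard : ℝ)

/-- The limit distributions: for symplectic similitudes of multiplier `q = p ^ (d m)`; for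
isometries of determinant one, in a coset of the commutator subgroup of the orthogonal group, of
the split quadratic space of dimension `2 g ≥ 6`, multiplied by `p ^ (n m)`; and for isometries, in
a coset of the commutator subgroup of the orthogonal group, of quadratic spaces of dimension
`2 g + 1` (determinant one) or `2 g + 2` (determinant minus one), multiplied by `δ p ^ (n m)`. The
cosets depend on `m` and `l`. -/
def IsLaw (p d n g e : ℕ) (δ : ℤˣ) (π : ∀ m l : ℕ, Set (ZMod l)[X] → ℝ) : Prop :=
  (e = 0 ∧ ∀ m l, π m l = law l (similitudes g l (p ^ (d * m) : ℕ)) 1 (weilPoly (p ^ (d * m))) g) ∨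
  (e = 0 ∧ d = 2 * n ∧ 3 ≤ g ∧ ∃ κ : ∀ m l : ℕ, (ZMod l)ˣ, ∀ m l, π m l =
    law l (cosetOf g l (κ m l)) (p ^ (n * m) : ℕ) (weilPoly ((p ^ (n * m)) ^ 2)) g) ∨
  ((e = 1 ∨ e = 2) ∧ d = 2 * n ∧ 3 ≤ g ∧ ∃ α κ : ∀ m l : ℕ, (ZMod l)ˣ, ∀ m l, π m l =
    law l (extCoset g l e (α m l) (κ m l)) ((δ * (p : ℤ) ^ (n * m) : ℤ) : ZMod l)
      (fun h => weilPoly ((δ * (p : ℤ) ^ (n * m) : ℤ).natAbs ^ 2) h *
        extraPoly e (δ * (p : ℤ) ^ (n * m))) g)

/-- The endomorphism `fr` is a Frobenius endomorphism of `obj` over the field with `p ^ m`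
elements, the cohomology of `obj` is the sum of the pull-back of the cohomology of `Y` and of the
subspace `sub` of the cohomology of degree `dim obj`, the Gysin map to the cohomology of `Y` is zero
on `sub`, and the Frobenius endomorphism `fr` has on `sub` the characteristic polynomial
`x ^ g * h (x + q / x) * extraPoly e r`, where `q = p ^ (m dim obj)`, `r = δ p ^ (n m)`, and
`h = pol` is monic of degree `g > 0`. -/
structure IsMember {k : Type u} [Field k] {𝒱 : VarClass k} {ops : CycleOps 𝒱}
    {W : WeilCohomology.{u, v} ops} {Y : 𝒱.Obj} (P : Piece W Y) {p : ℕ} (Φ : FrobSystem W p)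
    (m n e : ℕ) (δ : ℤˣ) : Prop where
  frobenius : P.IsFrobenius Φ m
  sub_le : P.sub ≤ W.gr P.obj P.obj.dim
  generated : P.Generated
  gysin : P.sub ≤ LinearMap.ker (W.push P.mor)
  monic : P.pol.Monic
  degree_pos : 0 < P.pol.natDegree
  charpoly : P.charpoly = (weilPoly (p ^ (P.obj.dim * m)) P.pol *
    extraPoly e (δ * (p : ℤ) ^ (n * m))).map (Int.castRingHom W.K)

/-- The family of varieties of dimension `d` over `Y` has large monodromy: the members of the
family are as in `IsMember`, and for all large primes `l ≠ l'` modulo which the polynomial `D`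
splits the Frobenius endomorphisms of the members over the field with `p ^ m` elements, modulo `l`
and modulo `l'`, are asymptotically, as `m` tends to infinity, independent and distributed as
random similitudes of symplectic or quadratic spaces (in the sense of `IsLaw`), as far as their
characteristic polynomials are concerned. -/
structure HasLaw {k : Type u} [Field k] {𝒱 : VarClass k}
    {ops : CycleOps 𝒱} {W : WeilCohomology.{u, v} ops} {Y : 𝒱.Obj} (F : Family W Y) {p : ℕ}
    (Φ : FrobSystem W p) (d n g e l₀ : ℕ) (δ : ℤˣ) (D : ℤ[X])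
    (π : ∀ m l : ℕ, Set (ZMod l)[X] → ℝ) : Prop where
  isMember : ∀ m, 0 < m → ∀ s : F.S m, IsMember (F.member m s) Φ m n e δ
  dim : ∀ m (s : F.S m), (F.member m s).obj.dim = d
  degree : ∀ m (s : F.S m), (F.member m s).pol.natDegree = g
  monic : D.Monic
  separable : (D.map (Int.castRingHom ℚ)).Separable
  law : IsLaw p d n g e δ π
  equidistributed : ∀ l l' : ℕ, l.Prime → l'.Prime → l₀ ≤ l → l₀ ≤ l' → l ≠ l' →
    SplitsAt D l → SplitsAt D l' → ∀ ε : ℝ, 0 < ε → ∃ m₀ : ℕ, ∀ m ≥ m₀, Nonempty (F.S m) →
      ∀ (E : Set (ZMod l)[X]) (E' : Set (ZMod l')[X]),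
        |F.frequency m l l' E E' - π m l E * π m l' E'| ≤ ε

/-- The family has large monodromy; the subspaces `sub` of its members have no further
eigenvalues if `e = 0`, the further eigenvalue `δ p ^ (n m)` if `e = 1`, and both of the eigenvalues
`p ^ (n m)`, `-p ^ (n m)` if `e = 2`. -/
def HasLargeMonodromy {k : Type u} [Field k] {𝒱 : VarClass k}
    {ops : CycleOps 𝒱} {W : WeilCohomology.{u, v} ops} {Y : 𝒱.Obj} (F : Family W Y) {p : ℕ}
    (Φ : FrobSystem W p) (e : ℕ) : Prop :=
  ∃ d n g l₀ δ D π, HasLaw F Φ d n g e l₀ δ D π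

end Pool.Agent.W458.MF.Fam
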