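import Pool.Agent.W458.MF.Defs
import Pool.Agent.W458.MF.NStm

/-!
# The sieve for products of families
-/

open Polynomial

universe u v

namespace Pool.Agent.W458.MF

open Pool.Agent.H914 Pool.Agent.W534 Pool.Agent.W521.Frob

section Prod

lemma prod_sub_prod {I : Type*} (s : Finset I) (a b : I → ℝ) {δ : ℝ}
    (ha : ∀ i ∈ s, 0 ≤ a i ∧ a i ≤ 1) (hb : ∀ i ∈ s, 0 ≤ b i ∧ b i ≤ 1)
    (h : ∀ i ∈ s, |a i - b i| ≤ δ) :
    |∏ i ∈ s, a i - ∏ i ∈ s, b i| ≤ (s.card : ℝ) * δ := by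
  classical
  induction s using Finset.induction_on with
  | empty => simp
  | insert j s hj ih =>
    have h1 := ih (fun i hi => ha i (Finset.mem_insert_of_mem hi))
      (fun i hi => hb i (Finset.mem_insert_of_mem hi)) (fun i hi => h i (Finset.mem_insert_of_mem hi))
    rw [Finset.prod_insert hj, Finset.prod_insert hj, Finset.card_insert_of_notMem hj]
    have hA0 : 0 ≤ ∏ i ∈ s, a i := Finset.prod_nonneg fun i hi => (ha i (Finset.mem_insert_of_mem hi)).1
    have hA1 : ∏ i ∈ s, a i ≤ 1 := Finset.prod_le_one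
      (fun i hi => (ha i (Finset.mem_insert_of_mem hi)).1)
      (fun i hi => (ha i (Finset.mem_insert_of_mem hi)).2)
    have h2 := h j (Finset.mem_insert_self j s)
    have h3 := hb j (Finset.mem_insert_self j s)
    have e : a j * ∏ i ∈ s, a i - b j * ∏ i ∈ s, b i =
        (a j - b j) * ∏ i ∈ s, a i + b j * (∏ i ∈ s, a i - ∏ i ∈ s, b i) := by ring
    rw [e]
    calc |(a j - b j) * ∏ i ∈ s, a i + b j * (∏ i ∈ s, a i - ∏ i ∈ s, b i)|
        ≤ |(a j - b j) * ∏ i ∈ s, a i| + |b j * (∏ i ∈ s, a i - ∏ i ∈ s, b i)| := abs_add_le _ _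
      _ = |a j - b j| * ∏ i ∈ s, a i + b j * |∏ i ∈ s, a i - ∏ i ∈ s, b i| := by
          rw [abs_mul, abs_mul, abs_of_nonneg hA0, abs_of_nonneg h3.1]
      _ ≤ δ * 1 + 1 * ((s.card : ℝ) * δ) := by
          have hδ : 0 ≤ δ := le_trans (abs_nonneg _) h2
          gcongr
          exact h3.2
      _ = ((s.card + 1 : ℕ) : ℝ) * δ := by push_cast; ring

lemma ncard_pi {I : Type} [Fintype I] {S : I → Type} (A : ∀ i, Set (S i)) :
    {s : ∀ i, S i | ∀ i, s i ∈ A i}.ncard = ∏ i, (A i).ncard := by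
  classical
  have e : {s : ∀ i, S i | ∀ i, s i ∈ A i} ≃ ∀ i, A i :=
    Equiv.subtypePiEquivPi (p := fun i x => x ∈ A i)
  rw [← Nat.card_coe_set_eq, Nat.card_congr e, Nat.card_pi]
  exact Finset.prod_congr rfl fun i _ => Nat.card_coe_set_eq _

theorem event_bound (hS : St_SIEVE) {I : Type} [Fintype I] {S : I → Type} [∀ i, Fintype (S i)]
    [∀ i, Nonempty (S i)] {κ : Type} [Fintype κ] [Nonempty κ] (A : ∀ i, κ → Set (S i))
    (μ : I → κ → ℝ) {c₀ δ : ℝ} (hc₀ : 0 < c₀) (hδ : 0 ≤ δ)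
    (hμ : ∀ i l, c₀ ≤ μ i l ∧ μ i l ≤ 1)
    (h1 : ∀ i l, |((A i l).ncard : ℝ) / (Nat.card (S i) : ℝ) - μ i l| ≤ δ)
    (h2 : ∀ i l l', l ≠ l' →
      |((A i l ∩ A i l').ncard : ℝ) / (Nat.card (S i) : ℝ) - μ i l * μ i l'| ≤ δ) :
    ({s : ∀ i, S i | ∀ l, ¬ ∀ i, s i ∈ A i l}.ncard : ℝ) ≤
      (1 / (c₀ ^ Fintype.card I * (Nat.card κ : ℝ)) +
        4 * ((Fintype.card I : ℝ) * δ) / (c₀ ^ Fintype.card I) ^ 2) *
          ∏ i, (Nat.card (S i) : ℝ) := by
  classical
  have hcard : (Nat.card (∀ i, S i) : ℝ) = ∏ i, (Nat.card (S i) : ℝ) := by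
    rw [Nat.card_pi]
    push_cast
    rfl
  have hpos : 0 < ∏ i, (Nat.card (S i) : ℝ) :=
    Finset.prod_pos fun i _ => by exact_mod_cast Nat.card_pos
  have hfrac : ∀ (B : ∀ i, Set (S i)) (i : I),
      0 ≤ ((B i).ncard : ℝ) / (Nat.card (S i) : ℝ) ∧
        ((B i).ncard : ℝ) / (Nat.card (S i) : ℝ) ≤ 1 := by
    intro B i
    refine ⟨by positivity, div_le_one_of_le₀ ?_ (by positivity)⟩
    have := Set.ncard_le_ncard (Set.subset_univ (B i)) Set.finite_univ
    rw [Set.ncard_univ] at this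
    exact_mod_cast this
  have hprod : ∀ B : ∀ i, Set (S i), ({s : ∀ i, S i | ∀ i, s i ∈ B i}.ncard : ℝ) /
      (Nat.card (∀ i, S i) : ℝ) = ∏ i, (((B i).ncard : ℝ) / (Nat.card (S i) : ℝ)) := by
    intro B
    rw [ncard_pi, hcard, Finset.prod_div_distrib]
    push_cast
    rfl
  have hμ0 : ∀ i l, 0 ≤ μ i l := fun i l => hc₀.le.trans (hμ i l).1
  have key := hS (∀ i, S i) κ (fun l => {s | ∀ i, s i ∈ A i l}) (fun l => ∏ i, μ i l)
    (c₀ ^ Fintype.card I) ((Fintype.card I : ℝ) * δ) (pow_pos hc₀ _) (by positivity)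
    (fun l => by
      rw [← Finset.card_univ, ← Finset.prod_const]
      exact Finset.prod_le_prod (fun i _ => hc₀.le) fun i _ => (hμ i l).1)
    (fun l => Finset.prod_le_one (fun i _ => hμ0 i l) fun i _ => (hμ i l).2)
    (fun l => by
      rw [hprod fun i => A i l, ← Finset.card_univ]
      exact prod_sub_prod _ _ _ (fun i _ => hfrac (fun i => A i l) i)
        (fun i _ => ⟨hμ0 i l, (hμ i l).2⟩) fun i _ => h1 i l)
    (fun l l' hll => by
      have e1 : ({s | ∀ i, s i ∈ A i l} : Set (∀ i, S i)) ∩ {s | ∀ i, s i ∈ A i l'} =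
          {s | ∀ i, s i ∈ A i l ∩ A i l'} := by
        ext s
        simp only [Set.mem_inter_iff, Set.mem_ofPred_eq]
        exact ⟨fun h i => ⟨h.1 i, h.2 i⟩, fun h => ⟨fun i => (h i).1, fun i => (h i).2⟩⟩
      rw [e1, hprod fun i => A i l ∩ A i l', ← Finset.card_univ, ← Finset.prod_mul_distrib]
      exact prod_sub_prod _ _ _ (fun i _ => hfrac (fun i => A i l ∩ A i l') i)
        (fun i _ => ⟨mul_nonneg (hμ0 i l) (hμ0 i l'),
          mul_le_one₀ (hμ i l).2 (hμ0 i l') (hμ i l').2⟩) fun i _ => h2 i l l' hll)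
  have hset : {s : ∀ i, S i | ∀ l, s ∉ (fun l => {s : ∀ i, S i | ∀ i, s i ∈ A i l}) l} =
      {s : ∀ i, S i | ∀ l, ¬ ∀ i, s i ∈ A i l} := rfl
  rw [hset, div_le_iff₀ (by rw [hcard]; exact hpos), hcard] at key
  exact key

end Prod

section Proportion

variable {g l q : ℕ}

lemma proportion_nonneg (E : Set (ZMod l)[X]) : 0 ≤ proportion g l q E := by
  unfold proportion
  positivity

lemma proportion_mono (hl : l.Prime) {E E' : Set (ZMod l)[X]} (h : E ⊆ E') :
    proportion g l q E ≤ proportion g l q E' := by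
  have : NeZero l := ⟨hl.ne_zero⟩
  unfold proportion
  refine div_le_div_of_nonneg_right ?_ (by positivity)
  refine Nat.cast_le.2 (Set.ncard_le_ncard ?_ (Set.toFinite _))
  rintro A ⟨hA, f, hf, hf2, hf3, hf4⟩
  exact ⟨hA, f, hf, hf2, h hf3, hf4⟩

lemma proportion_le_one (hl : l.Prime) (E : Set (ZMod l)[X]) : proportion g l q E ≤ 1 := by
  have : NeZero l := ⟨hl.ne_zero⟩
  unfold proportion
  refine div_le_one_of_le₀ ?_ (by positivity)
  refine Nat.cast_le.2 (Set.ncard_le_ncard ?_ (Set.toFinite _))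
  rintro A ⟨hA, -⟩
  exact hA

end Proportion

section Fam

variable {k : Type u} [Field k] {𝒱 : VarClass k} {ops : CycleOps 𝒱}
  {W : WeilCohomology.{u, v} ops} {Y : 𝒱.Obj} {p : ℕ} {Φ : FrobSystem W p}

/-- The members of the family with a pattern modulo `l`. -/
def Family.pat (F : Family W Y) (m l : ℕ) (E : Set (ZMod l)[X]) : Set (F.S m) :=
  {s | (F.member m s).pol.map (Int.castRingHom (ZMod l)) ∈ E}

lemma equi (F : Family W Y) {n g l₀ : ℕ} (hF : F.HasSymplecticMonodromy Φ n g l₀) {l l' : ℕ}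
    (hl : l.Prime) (hl' : l'.Prime) (h0 : l₀ ≤ l) (h0' : l₀ ≤ l') (hll : l ≠ l') {ε : ℝ}
    (hε : 0 < ε) : ∃ m₀ : ℕ, ∀ m ≥ m₀, Nonempty (F.S m) →
      (∀ (E : Set (ZMod l)[X]) (E' : Set (ZMod l')[X]),
        |((F.pat m l E ∩ F.pat m l' E').ncard : ℝ) / (Nat.card (F.S m) : ℝ) -
          proportion g l (p ^ (n * m)) E * proportion g l' (p ^ (n * m)) E'| ≤ ε) ∧
      ∀ E : Set (ZMod l)[X], |((F.pat m l E).ncard : ℝ) / (Nat.card (F.S m) : ℝ) -
          proportion g l (p ^ (n * m)) E| ≤ ε := by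
  obtain ⟨m₀, h⟩ := hF.equidistributed l l' hl hl' h0 h0' hll (ε / 2) (by positivity)
  refine ⟨m₀, fun m hm hne => ?_⟩
  have h1 : ∀ (E : Set (ZMod l)[X]) (E' : Set (ZMod l')[X]),
        |((F.pat m l E ∩ F.pat m l' E').ncard : ℝ) / (Nat.card (F.S m) : ℝ) -
          proportion g l (p ^ (n * m)) E * proportion g l' (p ^ (n * m)) E'| ≤ ε / 2 :=
    fun E E' => h m hm hne E E'
  refine ⟨fun E E' => (h1 E E').trans (by linarith), fun E => ?_⟩
  have h2 := h1 E Set.univ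
  have h3 := h1 Set.univ Set.univ
  have e1 : F.pat m l E ∩ F.pat m l' Set.univ = F.pat m l E := by
    ext s
    simp [Family.pat]
  have e2 : F.pat m l Set.univ ∩ F.pat m l' Set.univ = Set.univ := by
    ext s
    simp [Family.pat]
  rw [e1] at h2
  rw [e2, Set.ncard_univ, div_self (by exact_mod_cast Nat.card_pos.ne')] at h3
  have h4 := proportion_le_one (g := g) (q := p ^ (n * m)) hl E
  have h5 := proportion_nonneg (g := g) (q := p ^ (n * m)) E
  have h6 := proportion_le_one (g := g) (q := p ^ (n * m)) hl Set.univ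
  have h7 := proportion_nonneg (g := g) (q := p ^ (n * m)) (Set.univ : Set (ZMod l')[X])
  have h8 := proportion_le_one (g := g) (q := p ^ (n * m)) hl' Set.univ
  have h9 := proportion_nonneg (g := g) (q := p ^ (n * m)) (Set.univ : Set (ZMod l)[X])
  rw [abs_le] at h2 h3 ⊢
  have h10 : 1 - proportion g l' (p ^ (n * m)) Set.univ ≤ ε / 2 := by
    have : proportion g l (p ^ (n * m)) Set.univ * proportion g l' (p ^ (n * m)) Set.univ ≤
        1 * proportion g l' (p ^ (n * m)) Set.univ := mul_le_mul_of_nonneg_right h6 h7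
    linarith [h3.2]
  have h11 : proportion g l (p ^ (n * m)) E * (1 - proportion g l' (p ^ (n * m)) Set.univ) ≤
      1 * (ε / 2) := mul_le_mul h4 h10 (by linarith) (by norm_num)
  have h12 : 0 ≤ proportion g l (p ^ (n * m)) E *
      (1 - proportion g l' (p ^ (n * m)) Set.univ) := mul_nonneg h5 (by linarith)
  constructor
  · linarith [h2.1]
  · linarith [h2.2]

end Fam

end Pool.Agent.W458.MF
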