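import Pool.Agent.W458.MF.Fin1

/-!
# Almost all members have the patterns
-/

open Polynomial

universe u v

namespace Pool.Agent.W458.MF

open Pool.Agent.H914 Pool.Agent.W534 Pool.Agent.W521.Frob

variable {k : Type u} [Field k] {𝒱 : VarClass k} {ops : CycleOps 𝒱}
  {W : WeilCohomology.{u, v} ops} {Y : 𝒱.Obj} {p : ℕ} {Φ : FrobSystem W p}

lemma ncard_iUnion_le' {I α : Type} [Fintype I] (B : I → Set α) (c : I → ℝ)
    (h : ∀ i, ((B i).ncard : ℝ) ≤ c i) : ((⋃ i, B i).ncard : ℝ) ≤ ∑ i, c i := by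
  classical
  have h1 := Finset.set_ncard_biUnion_le (Finset.univ : Finset I) B
  simp only [Finset.mem_univ, Set.iUnion_true] at h1
  calc ((⋃ i, B i).ncard : ℝ) ≤ ((∑ i, (B i).ncard : ℕ) : ℝ) := by exact_mod_cast h1
    _ = ∑ i, ((B i).ncard : ℝ) := by push_cast; rfl
    _ ≤ ∑ i, c i := Finset.sum_le_sum fun i _ => h i

/-- The patterns. -/
def HasPatterns {I : Type} (g q : I → ℕ) (N : ℕ) (R : ℤ[X]) (h : I → ℤ[X]) : Prop :=
  (∀ i, ∃ l : ℕ, l.Prime ∧ (h i).map (Int.castRingHom (ZMod l)) ∈ irrSet (g i) l) ∧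
  ∀ i₀, ∃ l : ℕ, l.Prime ∧ l ≠ 2 ∧ (∀ i, ¬ l ∣ q i) ∧ SplitsMod R l ∧
    (h i₀).map (Int.castRingHom (ZMod l)) ∈ flipSet (g i₀) N l (q i₀) ∧
    ∀ i, i ≠ i₀ → (h i).map (Int.castRingHom (ZMod l)) ∈ splitSet (g i) l (q i)

theorem almost_all (hS : St_SIEVE) (hD : St_DENS) (hSPL : St_SPL) (hp : p.Prime) {I : Type}
    [Fintype I] (F : I → Family W Y) (n g l₀ : I → ℕ)
    (hF : ∀ i, (F i).HasSymplecticMonodromy Φ (n i) (g i) (l₀ i)) (R : ℤ[X]) (hR : R.Monic)
    (hRs : (R.map (Int.castRingHom ℚ)).Separable) (N : ℕ) (hN : 0 < N) (ε : ℝ) (hε : 0 < ε) :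
    ∃ m₀ : ℕ, ∀ m ≥ m₀, ({s : ∀ i, (F i).S m | ¬ HasPatterns g (fun i => p ^ (n i * m)) N R
      fun i => ((F i).member m (s i)).pol}.ncard : ℝ) ≤ ε * ∏ i, (Nat.card ((F i).S m) : ℝ) := by
  classical
  have hempty : ∀ m, (∃ i, IsEmpty ((F i).S m)) → ∀ B : Set (∀ i, (F i).S m),
      (B.ncard : ℝ) ≤ ε * ∏ i, (Nat.card ((F i).S m) : ℝ) := by
    rintro m ⟨i, hi⟩ B
    have : IsEmpty (∀ i, (F i).S m) := ⟨fun s => hi.false (s i)⟩
    rw [Set.eq_empty_of_isEmpty B, Set.ncard_empty, Nat.cast_zero]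
    positivity
  by_cases hg : ∀ i, 0 < g i
  swap
  · push Not at hg
    obtain ⟨i, hi⟩ := hg
    refine ⟨1, fun m hm => hempty m ⟨i, ⟨fun s => ?_⟩⟩ _⟩
    have h1 := ((hF i).isOver m hm s).degree_pos
    rw [(hF i).degree m s] at h1
    omega
  -- the constants
  choose c hc l₁ hl₁ using fun i => hD (g i) N (hg i) hN
  obtain ⟨c₀, hc₀, hc₀c⟩ : ∃ c₀ : ℝ, 0 < c₀ ∧ ∀ i, c₀ ≤ c i := by
    rcases isEmpty_or_nonempty I with hI | hI
    · exact ⟨1, one_pos, fun i => hI.elim i⟩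
    · obtain ⟨i, hi⟩ := Finite.exists_min c
      exact ⟨c i, hc i, hi⟩
  set L : ℕ := p + 3 + ∑ i, (l₀ i + l₁ i) with hL
  have hLi : ∀ i, l₀ i + l₁ i ≤ L := fun i => by
    have := Finset.single_le_sum (f := fun i => l₀ i + l₁ i) (fun j _ => Nat.zero_le _)
      (Finset.mem_univ i)
    omega
  have hinf : ({l : ℕ | l.Prime ∧ SplitsMod R l} \ {l | l ≤ L}).Infinite :=
    (hSPL R hR hRs).sdiff (Set.finite_le_nat L)
  set C : ℝ := c₀ ^ Fintype.card I with hC
  have hCpos : 0 < C := pow_pos hc₀ _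
  set η : ℝ := ε / (2 * (Fintype.card I : ℝ) + 1) with hη
  have hηpos : 0 < η := by positivity
  obtain ⟨M, hM⟩ := exists_nat_gt (2 / (C * η))
  obtain ⟨κ, hκ, hκM⟩ := hinf.exists_subset_card_eq (M + 2)
  have hκp : ∀ l ∈ κ, l.Prime ∧ SplitsMod R l ∧ L < l := fun l hl =>
    ⟨(hκ hl).1.1, (hκ hl).1.2, not_le.1 (hκ hl).2⟩
  set δ : ℝ := η * C ^ 2 / (8 * ((Fintype.card I : ℝ) + 1)) with hδ
  have hδpos : 0 < δ := by positivity
  have hev : ∀ᶠ m in Filter.atTop, ∀ i, ∀ l l' : κ, l ≠ l' → Nonempty ((F i).S m) →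
      (∀ (E : Set (ZMod l)[X]) (E' : Set (ZMod l')[X]),
        |(((F i).pat m l E ∩ (F i).pat m l' E').ncard : ℝ) / (Nat.card ((F i).S m) : ℝ) -
          proportion (g i) l (p ^ (n i * m)) E * proportion (g i) l' (p ^ (n i * m)) E'| ≤ δ) ∧
      ∀ E : Set (ZMod l)[X], |(((F i).pat m l E).ncard : ℝ) / (Nat.card ((F i).S m) : ℝ) -
          proportion (g i) l (p ^ (n i * m)) E| ≤ δ := by
    rw [Filter.eventually_all]
    intro i
    rw [Filter.eventually_all]
    intro l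
    rw [Filter.eventually_all]
    intro l'
    by_cases hll : l = l'
    · exact Filter.Eventually.of_forall fun m h => absurd hll h
    · have h1 := hκp l l.2
      have h2 := hκp l' l'.2
      have h3 := hLi i
      obtain ⟨m₀, h4⟩ := equi (F i) (hF i) h1.1 h2.1 (by omega) (by omega)
        (fun h => hll (Subtype.ext h)) hδpos
      exact Filter.eventually_atTop.2 ⟨m₀, fun m hm _ => h4 m hm⟩
  obtain ⟨m₀, hm₀⟩ := Filter.eventually_atTop.1 hev
  refine ⟨m₀, fun m hm => ?_⟩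
  by_cases hne : ∀ i, Nonempty ((F i).S m)
  swap
  · push Not at hne
    exact hempty m hne _
  have hcard : 1 < Fintype.card κ := by
    rw [Fintype.card_coe, hκM]
    omega
  have hnek : Nonempty κ := Fintype.card_pos_iff.1 (by omega)
  have hnt : ∀ l : κ, ∃ l' : κ, l ≠ l' := by
    intro l
    have : Nontrivial κ := Fintype.one_lt_card_iff_nontrivial.1 hcard
    obtain ⟨l', hl'⟩ := exists_ne l
    exact ⟨l', hl'.symm⟩
  have hdiv : ∀ l : κ, ∀ i, ¬ (l : ℕ) ∣ p ^ (n i * m) := by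
    intro l i h
    have h1 := hκp l l.2
    have h2 := (Nat.Prime.dvd_of_dvd_pow h1.1 h)
    have h3 := Nat.le_of_dvd hp.pos h2
    omega
  have hdens : ∀ i (l : κ), c₀ ≤ proportion (g i) l (p ^ (n i * m)) (flipSet (g i) N l
      (p ^ (n i * m))) ∧ c₀ ≤ proportion (g i) l (p ^ (n i * m)) (splitSet (g i) l
      (p ^ (n i * m))) ∧ c₀ ≤ proportion (g i) l (p ^ (n i * m)) (irrSet (g i) l) := by
    intro i l
    have h1 := hκp l l.2
    have h3 := hLi i
    have h2 := hl₁ i l h1.1 (by omega) (p ^ (n i * m)) (hdiv l i)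
    exact ⟨(hc₀c i).trans h2.1, (hc₀c i).trans h2.2.1, (hc₀c i).trans h2.2.2⟩
  -- the bound for the families of events
  have hbound : ∀ E : ∀ i, ∀ l : κ, Set (ZMod l)[X],
      (∀ i (l : κ), c₀ ≤ proportion (g i) l (p ^ (n i * m)) (E i l)) →
      ({s : ∀ i, (F i).S m | ∀ l : κ, ¬ ∀ i, s i ∈ (F i).pat m l (E i l)}.ncard : ℝ) ≤
        η * ∏ i, (Nat.card ((F i).S m) : ℝ) := by
    intro E hE
    have h1 := event_bound hS (S := fun i => (F i).S m) (κ := κ)
      (fun i l => (F i).pat m l (E i l)) (fun i l => proportion (g i) l (p ^ (n i * m)) (E i l))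
      hc₀ hδpos.le (fun i l => ⟨hE i l, proportion_le_one (hκp l l.2).1 _⟩)
      (fun i l => by
        obtain ⟨l', hl'⟩ := hnt l
        exact (hm₀ m hm i l l' hl' (hne i)).2 _)
      (fun i l l' hll => (hm₀ m hm i l l' hll (hne i)).1 _ _)
    refine h1.trans (mul_le_mul_of_nonneg_right ?_ (by positivity))
    rw [← hC]
    have h2 : 1 / (C * (Nat.card κ : ℝ)) ≤ η / 2 := by
      have h3 : (M : ℝ) ≤ (Nat.card κ : ℝ) := by
        rw [Nat.card_eq_fintype_card, Fintype.card_coe, hκM]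
        push_cast
        linarith
      have h4 : 2 / (C * η) < (Nat.card κ : ℝ) := hM.trans_le h3
      rw [div_lt_iff₀ (by positivity)] at h4
      have h5 : 0 < (Nat.card κ : ℝ) := by
        exact_mod_cast Nat.card_pos
      rw [div_le_div_iff₀ (by positivity) (by norm_num)]
      nlinarith
    have h3 : 4 * ((Fintype.card I : ℝ) * δ) / C ^ 2 ≤ η / 2 := by
      rw [hδ, div_le_iff₀ (by positivity)]
      have e : 4 * ((Fintype.card I : ℝ) * (η * C ^ 2 / (8 * ((Fintype.card I : ℝ) + 1)))) =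
          (η / 2 * C ^ 2) * ((Fintype.card I : ℝ) / ((Fintype.card I : ℝ) + 1)) := by
        field_simp
        ring
      rw [e]
      have h6 : (Fintype.card I : ℝ) / ((Fintype.card I : ℝ) + 1) ≤ 1 :=
        div_le_one_of_le₀ (by linarith) (by positivity)
      calc (η / 2 * C ^ 2) * ((Fintype.card I : ℝ) / ((Fintype.card I : ℝ) + 1))
          ≤ (η / 2 * C ^ 2) * 1 := mul_le_mul_of_nonneg_left h6 (by positivity)
        _ = η / 2 * C ^ 2 := mul_one _
    linarith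
  set B₁ : I → Set (∀ i, (F i).S m) := fun i₀ => {s | ∀ l : κ, ¬ ∀ i, s i ∈ (F i).pat m l
    (if i = i₀ then irrSet (g i) l else Set.univ)} with hB₁
  set B₂ : I → Set (∀ i, (F i).S m) := fun i₀ => {s | ∀ l : κ, ¬ ∀ i, s i ∈ (F i).pat m l
    (if i = i₀ then flipSet (g i) N l (p ^ (n i * m)) else splitSet (g i) l (p ^ (n i * m)))}
    with hB₂
  have hb1 : ∀ i₀, ((B₁ i₀).ncard : ℝ) ≤ η * ∏ i, (Nat.card ((F i).S m) : ℝ) := by
    intro i₀
    refine hbound (fun i l => if i = i₀ then irrSet (g i) l else Set.univ) ?_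
    intro i l
    split_ifs with h
    · exact (hdens i l).2.2
    · exact (hdens i l).2.2.trans (proportion_mono (hκp l l.2).1 (Set.subset_univ _))
  have hb2 : ∀ i₀, ((B₂ i₀).ncard : ℝ) ≤ η * ∏ i, (Nat.card ((F i).S m) : ℝ) := by
    intro i₀
    refine hbound (fun i l => if i = i₀ then flipSet (g i) N l (p ^ (n i * m)) else
      splitSet (g i) l (p ^ (n i * m))) ?_
    intro i l
    split_ifs with h
    · exact (hdens i l).1
    · exact (hdens i l).2.1
  have hsub : {s : ∀ i, (F i).S m | ¬ HasPatterns g (fun i => p ^ (n i * m)) N R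
      fun i => ((F i).member m (s i)).pol} ⊆ (⋃ i, B₁ i) ∪ ⋃ i, B₂ i := by
    intro s hs
    by_contra hcon
    rw [Set.mem_union, not_or, Set.mem_iUnion, Set.mem_iUnion] at hcon
    obtain ⟨h1, h2⟩ := hcon
    push Not at h1 h2
    apply hs
    constructor
    · intro i₀
      have h3 : ∃ l : κ, ∀ i, s i ∈ (F i).pat m l (if i = i₀ then irrSet (g i) l else Set.univ) := by
        by_contra h4
        push Not at h4
        exact h1 i₀ fun l hl => by
          obtain ⟨i, hi⟩ := h4 l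
          exact hi (hl i)
      obtain ⟨l, hl⟩ := h3
      have h4 := hl i₀
      rw [if_pos rfl] at h4
      exact ⟨l, (hκp l l.2).1, h4⟩
    · intro i₀
      have h3 : ∃ l : κ, ∀ i, s i ∈ (F i).pat m l (if i = i₀ then flipSet (g i) N l
          (p ^ (n i * m)) else splitSet (g i) l (p ^ (n i * m))) := by
        by_contra h4
        push Not at h4
        exact h2 i₀ fun l hl => by
          obtain ⟨i, hi⟩ := h4 l
          exact hi (hl i)
      obtain ⟨l, hl⟩ := h3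
      have h5 := hκp l l.2
      refine ⟨l, h5.1, by omega, hdiv l, h5.2.1, ?_, fun i hi => ?_⟩
      · have h4 := hl i₀
        rw [if_pos rfl] at h4
        exact h4
      · have h4 := hl i
        rw [if_neg hi] at h4
        exact h4
  have hP : 0 ≤ ∏ i, (Nat.card ((F i).S m) : ℝ) := by positivity
  calc ({s : ∀ i, (F i).S m | ¬ HasPatterns g (fun i => p ^ (n i * m)) N R
        fun i => ((F i).member m (s i)).pol}.ncard : ℝ)
      ≤ (((⋃ i, B₁ i) ∪ ⋃ i, B₂ i).ncard : ℝ) := by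
        exact_mod_cast Set.ncard_le_ncard hsub (Set.toFinite _)
    _ ≤ ((⋃ i, B₁ i).ncard : ℝ) + ((⋃ i, B₂ i).ncard : ℝ) := by
        exact_mod_cast Set.ncard_union_le _ _
    _ ≤ (∑ _i : I, η * ∏ i, (Nat.card ((F i).S m) : ℝ)) +
          ∑ _i : I, η * ∏ i, (Nat.card ((F i).S m) : ℝ) :=
        add_le_add (ncard_iUnion_le' _ _ hb1) (ncard_iUnion_le' _ _ hb2)
    _ = (2 * (Fintype.card I : ℝ) * η) * ∏ i, (Nat.card ((F i).S m) : ℝ) := by
        rw [Finset.sum_const, Finset.card_univ, nsmul_eq_mul]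
        ring
    _ ≤ ε * ∏ i, (Nat.card ((F i).S m) : ℝ) := by
        refine mul_le_mul_of_nonneg_right ?_ hP
        rw [hη, mul_div_assoc', div_le_iff₀ (by positivity)]
        nlinarith [(Nat.cast_nonneg (Fintype.card I) : (0 : ℝ) ≤ Fintype.card I)]

end Pool.Agent.W458.MF
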