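import Pool.Agent.W458.MF.Geo5
import Pool.Agent.W397.MF.PAIR

/-!
# The generalised Tate classes of the products
-/

open CategoryTheory AlgebraicGeometry Polynomial

universe u v w

namespace Pool.Agent.W458.MF

open Pool.Agent.H914 Pool.Agent.W534 Pool.Agent.W521.Frob VarClass Obj WeilCohomology
  Pool.Agent.H281R3.HT Pool.Agent.W536.RR

section Lin

variable {K : Type*} [Field K] {V : Type*} [AddCommGroup V] [Module K V]

/-- An element of an invariant subspace is a sum of generalised eigenvectors in the subspace. -/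
lemma span_gen_sub [IsAlgClosed K] [Module.Finite K V] (T : Module.End K V) {S : Submodule K V}
    (hS : ∀ x ∈ S, T x ∈ S) {x : V} (hx : x ∈ S) :
    x ∈ Submodule.span K {v | v ∈ S ∧ ∃ ν : K, v ∈ T.maxGenEigenspace ν} := by
  have h1 : x ∈ S ⊓ ⨆ ν, T.maxGenEigenspace ν := by
    rw [Module.End.iSup_maxGenEigenspace_eq_top]
    exact ⟨hx, Submodule.mem_top⟩
  have h2 : S ⊓ ⨆ ν, T.maxGenEigenspace ν = ⨆ ν, S ⊓ T.maxGenEigenspace ν :=
    Submodule.inf_iSup_genEigenspace hS ⊤
  rw [h2] at h1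
  clear hx
  induction h1 using Submodule.iSup_induction' with
  | mem ν x hx => exact Submodule.subset_span ⟨hx.1, ν, hx.2⟩
  | zero => exact Submodule.zero_mem _
  | add x y _ _ hx hy => exact Submodule.add_mem _ hx hy

end Lin

variable {k : Type u} [Field k] {𝒱 : VarClass k} {ops : CycleOps 𝒱}
  {W : WeilCohomology.{u, v} ops} {Y Z : 𝒱.Obj} {p : ℕ} {Φ : FrobSystem W p}
  {I : Type} {P : I → Piece W Y} {m : ℕ} {σ : W.K →+* ℂ} {R : ℤ[X]}

/-- The pull-back by `g` commutes with the Frobenius endomorphisms, and the Frobenius endomorphism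
acts on all eigenvectors as a power of the Frobenius endomorphism of the piece. -/
def LComm (Φ : FrobSystem W p) (P : Piece W Y) (m : ℕ) (g : Z ⟶ P.obj) (s : ℕ) : Prop :=
  ∃ s' t, 0 < t ∧ m * t = Φ.e Z * s ∧ LevelAt Φ P m s' t ∧
    ∀ x : W.H P.obj, frob Φ Z s (W.map g x) = W.map g (frob Φ P.obj s' x)

lemma exists_lcomm {P : Piece W Y} (hP : P.IsOver Φ m) (g : Z ⟶ P.obj) : ∃ a, 0 < a ∧
    ∀ r, 0 < r → LComm Φ P m g (a * r) := by
  obtain ⟨a₀, b₀, ha₀, hb₀, hlev⟩ := hP.exists_level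
  obtain ⟨a, ha, h⟩ := exists_comm_dvd Φ g b₀ hb₀
  refine ⟨a, ha, fun r hr => ?_⟩
  obtain ⟨s', hs', ⟨r', rfl⟩, he, hc⟩ := h r hr
  have hr' : 0 < r' := Nat.pos_of_ne_zero (by rintro rfl; simp at hs')
  have hL := hlev r' hr'
  refine ⟨b₀ * r', a₀ * r', hL.2.1, ?_, hL, hc⟩
  rw [mul_comm m, hL.2.2.1, he]
  ring

/-- All letters are compatible with the Frobenius endomorphism. -/
def ListComm (Φ : FrobSystem W p) (t : ℕ) (l : List (ELetter p P m Z)) : Prop :=
  ∀ b ∈ l, LComm Φ (P b.i) m b.g t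

lemma span_letters [IsAlgClosed W.K] (H : Setup Φ σ P m R) (t : ℕ) :
    ∀ l : List (Letter P Z), (∀ a ∈ l, LComm Φ (P a.i) m a.g t) →
      (l.map Letter.val).prod ∈ Submodule.span W.K
        {c | ∃ l' : List (ELetter p P m Z), ListComm Φ t l' ∧ c = (l'.map ELetter.val).prod} := by
  intro l
  induction l with
  | nil =>
    intro _
    refine Submodule.subset_span ⟨[], ?_, rfl⟩
    intro b hb
    exact absurd hb List.not_mem_nil
  | cons a l ih =>
    intro hl
    have h1 := ih fun b hb => hl b (List.mem_cons_of_mem _ hb)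
    have ha0 := hl a List.mem_cons_self
    obtain ⟨i, v, hv, g⟩ := a
    rw [List.map_cons, List.prod_cons]
    change W.map g v * _ ∈ _
    have ha : LComm Φ (P i) m g t := ha0
    have h2 := (H.isOver i).span_eig (H.sep i) hv
    clear hl ha0 hv
    induction h2 using Submodule.span_induction with
    | mem v hv =>
      obtain ⟨lam, hv⟩ := hv
      have h3 := Submodule.apply_mem_span_image_of_mem_span
        (LinearMap.mulLeft W.K (W.map g v)) h1
      refine Submodule.span_mono ?_ h3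
      rintro _ ⟨_, ⟨l', hl', rfl⟩, rfl⟩
      refine ⟨⟨i, v, lam, hv, g⟩ :: l', ?_, ?_⟩
      · intro b hb
        rcases List.mem_cons.1 hb with rfl | hb
        · exact ha
        · exact hl' b hb
      · rw [List.map_cons, List.prod_cons]
        rfl
    | zero => rw [map_zero, zero_mul]; exact Submodule.zero_mem _
    | add x y _ _ hx hy => rw [map_add, add_mul]; exact Submodule.add_mem _ hx hy
    | smul c x _ hx => rw [map_smul, smul_mul_assoc]; exact Submodule.smul_mem _ _ hx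

lemma letters_comm (hP : ∀ i, (P i).IsOver Φ m) (l : List (Letter P Z)) : ∃ t, 0 < t ∧
    ∀ r, 0 < r → ∀ a ∈ l, LComm Φ (P a.i) m a.g (t * r) := by
  induction l with
  | nil => exact ⟨1, one_pos, fun r _ a ha => absurd ha List.not_mem_nil⟩
  | cons a l ih =>
    obtain ⟨t, ht, h⟩ := ih
    obtain ⟨s, hs, h'⟩ := exists_lcomm (hP a.i) a.g
    refine ⟨s * t, Nat.mul_pos hs ht, fun r hr b hb => ?_⟩
    rcases List.mem_cons.1 hb with rfl | hb
    · rw [mul_assoc]
      exact h' _ (Nat.mul_pos ht hr)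
    · rw [mul_comm s t, mul_assoc]
      exact h _ (Nat.mul_pos hs hr) b hb

/-- Products of letters and of a homogeneous generalised eigenvector of a product of copies
of `Y`, with compatible Frobenius endomorphisms. -/
structure GoodMono (Φ : FrobSystem W p) (σ : W.K →+* ℂ) (P : I → Piece W Y) (m : ℕ) (R : ℤ[X])
    (Z : 𝒱.Obj) (t : ℕ) where
  l : List (ELetter p P m Z)
  T : 𝒱.Obj
  g : Z ⟶ T
  d : ℕ
  y : W.H T
  ν : W.K
  s : ℕ
  hl : ListComm Φ t l
  hT : IsProductOf {Y} T
  hy : y ∈ W.gr T d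
  hs : 0 < s
  hse : s * Φ.e T = t * Φ.e Z
  comm : ∀ y : W.H T, frob Φ Z t (W.map g y) = W.map g (frob Φ T s y)
  good : GoodAt Φ σ R T s
  gen : y ∈ Module.End.maxGenEigenspace (frob Φ T s) ν

/-- The product. -/
noncomputable def GoodMono.val {t : ℕ} (G : GoodMono Φ σ P m R Z t) : W.H Z :=
  (G.l.map ELetter.val).prod * W.map G.g G.y

/-- The cohomology is spanned by the good monomials. -/
lemma span_good [IsAlgClosed W.K] (hSPAN : St_SPAN.{u, v, 0}) (H : Setup Φ σ P m R)
    (hZ : IsProductOf ({Y} ∪ Set.range fun i => (P i).obj) Z) (c : W.H Z) :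
    ∃ t, 0 < t ∧ ∀ r, 0 < r →
      c ∈ Submodule.span W.K {c | ∃ G : GoodMono Φ σ P m R Z (t * r), c = G.val} := by
  have h1 := hSPAN W Y P (fun i => (H.isOver i).sub_le) (fun i => (H.isOver i).generated) Z hZ c
  induction h1 using Submodule.span_induction with
  | mem c hc =>
    obtain ⟨l, T, g, d, y, hT, hy, rfl⟩ := hc
    obtain ⟨t₁, ht₁, h1⟩ := letters_comm H.isOver l
    obtain ⟨a, ha, h2⟩ := good_Y (σ := σ) H.hR hT
    obtain ⟨t₂, ht₂, h3⟩ := exists_comm_dvd Φ g a ha
    refine ⟨t₁ * t₂, Nat.mul_pos ht₁ ht₂, fun r hr => ?_⟩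
    have h4 : ∀ a ∈ l, LComm Φ (P a.i) m a.g (t₁ * t₂ * r) := by
      rw [mul_assoc]
      exact h1 _ (Nat.mul_pos ht₂ hr)
    have h5 := h3 (t₁ * r) (Nat.mul_pos ht₁ hr)
    rw [← mul_assoc, mul_comm t₂ t₁] at h5
    obtain ⟨s, hs, has, hse, hcomm⟩ := h5
    have h6 := span_gen_sub (frob Φ T s) (S := W.gr T d) (fun x hx => W.map_mem _ hx) hy
    have h7 := span_letters H (t₁ * t₂ * r) l h4
    clear hy
    generalize (l.map Letter.val).prod = A at h7
    induction h7 using Submodule.span_induction with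
    | mem A hA =>
      obtain ⟨l', hl', rfl⟩ := hA
      induction h6 using Submodule.span_induction with
      | mem y hy =>
        obtain ⟨hy, ν, hν⟩ := hy
        exact Submodule.subset_span ⟨⟨l', T, g, d, y, ν, s, hl', hT, hy, hs, hse, hcomm,
          h2.dvd has, hν⟩, rfl⟩
      | zero => rw [map_zero, mul_zero]; exact Submodule.zero_mem _
      | add x y _ _ hx hy => rw [map_add, mul_add]; exact Submodule.add_mem _ hx hy
      | smul c x _ hx => rw [map_smul, mul_smul_comm]; exact Submodule.smul_mem _ _ hx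
    | zero => rw [zero_mul]; exact Submodule.zero_mem _
    | add x y _ _ hx hy => rw [add_mul]; exact Submodule.add_mem _ hx hy
    | smul c x _ hx => rw [smul_mul_assoc]; exact Submodule.smul_mem _ _ hx
  | zero => exact ⟨1, one_pos, fun r _ => Submodule.zero_mem _⟩
  | add x y _ _ hx hy =>
    obtain ⟨t₁, ht₁, h1⟩ := hx
    obtain ⟨t₂, ht₂, h2⟩ := hy
    refine ⟨t₁ * t₂, Nat.mul_pos ht₁ ht₂, fun r hr => Submodule.add_mem _ ?_ ?_⟩
    · rw [mul_assoc]
      exact h1 _ (Nat.mul_pos ht₂ hr)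
    · rw [mul_comm t₁ t₂, mul_assoc]
      exact h2 _ (Nat.mul_pos ht₁ hr)
  | smul c x _ hx =>
    obtain ⟨t₁, ht₁, h1⟩ := hx
    exact ⟨t₁, ht₁, fun r hr => Submodule.smul_mem _ _ (h1 r hr)⟩

/-- The Frobenius endomorphism on a product of letters. -/
lemma frob_letters (H : Setup Φ σ P m R) {t : ℕ} (l : List (ELetter p P m Z))
    (hl : ListComm Φ t l) : ∃ t', 0 < t' ∧
      frob Φ Z t (l.map ELetter.val).prod = (l.map ELetter.lam).prod ^ t' •
        (l.map ELetter.val).prod ∧ (l ≠ [] → m * t' = Φ.e Z * t) := by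
  by_cases h0 : l = []
  · subst h0
    refine ⟨1, one_pos, ?_, fun h => absurd rfl h⟩
    rw [List.map_nil, List.map_nil, List.prod_nil, List.prod_nil, one_pow, one_smul]
    exact frob_one Φ t
  · obtain ⟨b, hb⟩ := List.exists_mem_of_ne_nil l h0
    obtain ⟨s', t', ht', he, -⟩ := hl b hb
    refine ⟨t', ht', ?_, fun _ => he⟩
    clear h0 hb
    induction l with
    | nil =>
      rw [List.map_nil, List.map_nil, List.prod_nil, List.prod_nil, one_pow, one_smul]
      exact frob_one Φ t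
    | cons a l ih =>
      have h1 := ih fun b hb => hl b (List.mem_cons_of_mem _ hb)
      obtain ⟨s'', t'', ht'', he', hL, h2⟩ := hl a List.mem_cons_self
      rw [← he] at he'
      have e1 : t'' = t' := Nat.eq_of_mul_eq_mul_left H.hm he'
      subst e1
      rw [List.map_cons, List.prod_cons, List.map_cons, List.prod_cons, frob_mul_apply, h1]
      have h3 : frob Φ Z t a.val = a.lam ^ t'' • a.val := by
        rw [ELetter.val, h2, hL.2.2.2 _ _ a.isEig, map_smul]
      rw [h3, smul_mul_smul_comm, mul_pow]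

lemma letters_mem (H : Setup Φ σ P m R) (l : List (ELetter p P m Z)) :
    (l.map ELetter.val).prod ∈ W.gr Z (l.map ELetter.deg).sum := by
  induction l with
  | nil => exact W.one_mem Z
  | cons a l ih =>
    simp only [List.map_cons, List.prod_cons, List.sum_cons]
    exact W.mul_mem (a.val_mem H) ih

/-- A good monomial is a generalised eigenvector. -/
lemma good_gen {t : ℕ} (G : GoodMono Φ σ P m R Z t) {μ : W.K}
    (hμ : frob Φ Z t (G.l.map ELetter.val).prod = μ • (G.l.map ELetter.val).prod) :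
    G.val ∈ Module.End.maxGenEigenspace (frob Φ Z t) (μ * G.ν) := by
  refine gen_map (T := frob Φ G.T G.s) (θ := (LinearMap.mulLeft W.K
    (G.l.map ELetter.val).prod) ∘ₗ (W.map G.g).toLinearMap) ?_ G.gen
  intro x
  change frob Φ Z t ((G.l.map ELetter.val).prod * W.map G.g x) =
    μ • ((G.l.map ELetter.val).prod * W.map G.g (frob Φ G.T G.s x))
  rw [frob_mul_apply, hμ, G.comm, smul_mul_assoc]

lemma exists_good_gen (H : Setup Φ σ P m R) {t : ℕ} (G : GoodMono Φ σ P m R Z t) :
    ∃ μ : W.K, G.val ∈ Module.End.maxGenEigenspace (frob Φ Z t) μ := by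
  obtain ⟨t', -, h, -⟩ := frob_letters H G.l G.hl
  exact ⟨_, good_gen G h⟩

lemma good_deg (H : Setup Φ σ P m R) {t : ℕ} (G : GoodMono Φ σ P m R Z t) :
    G.val ∈ W.gr Z ((G.l.map ELetter.deg).sum + G.d) :=
  W.mul_mem (letters_mem H G.l) (W.map_mem _ G.hy)

lemma proj_cases {Z : 𝒱.Obj} {i n : ℕ} {c : W.H Z} (hc : c ∈ W.gr Z i) :
    H914.proj (W.isInternal Z) n c = c ∧ c ∈ W.gr Z n ∨
      H914.proj (W.isInternal Z) n c = 0 := by
  by_cases h : i = n
  · subst h
    exact Or.inl ⟨proj_same _ hc, hc⟩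
  · exact Or.inr (proj_ne _ hc h)

/-- Generalised Tate classes are spanned by good monomials which are generalised Tate classes. -/
lemma genTate_span [IsAlgClosed W.K] (hSPAN : St_SPAN.{u, v, 0}) (H : Setup Φ σ P m R)
    (hZ : IsProductOf ({Y} ∪ Set.range fun i => (P i).obj) Z) {s j : ℕ} (hs : 0 < s) {c : W.H Z}
    (hc : c ∈ genTate Φ Z s j) : ∃ t, 0 < t ∧
      c ∈ Submodule.span W.K {c | (∃ G : GoodMono Φ σ P m R Z t, c = G.val) ∧
        c ∈ genTate Φ Z t j} := by
  obtain ⟨t₀, ht₀, h0⟩ := span_good (σ := σ) hSPAN H hZ c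
  refine ⟨t₀ * s, Nat.mul_pos ht₀ hs, ?_⟩
  set t := t₀ * s with ht
  have htp : 0 < t := Nat.mul_pos ht₀ hs
  have h1 := h0 s hs
  have h2 : c ∈ genTate Φ Z t j := genTate_mono' Φ s t₀ j hc
  have h3 := mem_span_gen (T := frob Φ Z t) (fun v hv => by
    obtain ⟨G, rfl⟩ := hv
    exact exists_good_gen H G) h1 h2.1
  have h4 := Submodule.apply_mem_span_image_of_mem_span (H914.proj (W.isInternal Z) (2 * j)) h3
  rw [proj_same _ h2.2] at h4
  refine Submodule.span_le.2 ?_ h4
  rintro _ ⟨_, ⟨⟨G, rfl⟩, hv⟩, rfl⟩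
  rcases proj_cases (n := 2 * j) (good_deg H G) with ⟨h6, h7⟩ | h6
  · rw [h6]
    exact Submodule.subset_span ⟨⟨G, rfl⟩, hv, h7⟩
  · rw [h6]
    exact Submodule.zero_mem _

/-- Good monomials which are generalised Tate classes are algebraic. -/
lemma good_alg [IsAlgClosed W.K] (hPAIR : St_PAIR.{u, v}) (H : Setup Φ σ P m R)
    (hT : ∀ T : 𝒱.Obj, IsProductOf {Y} T → ∀ j ≤ T.dim, SemisimpleTateIn Φ T j)
    {t j : ℕ} (G : GoodMono Φ σ P m R Z t)
    (hc : G.val ∈ genTate Φ Z t j) : G.val ∈ algSpan W Z := by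
  classical
  by_cases hc0 : G.val = 0
  · rw [hc0]
    exact Submodule.zero_mem _
  obtain ⟨t', ht', hfr, hne⟩ := frob_letters H G.l G.hl
  have h1 := good_gen G hfr
  have h2 : (G.l.map ELetter.lam).prod ^ t' * G.ν = (card Φ Z t : W.K) ^ j :=
    eq_of_mem_gen h1 hc.1 hc0
  have hy0 : G.y ≠ 0 := by
    intro h
    apply hc0
    rw [GoodMono.val, h, map_zero, mul_zero]
  have hν : σ G.ν ∈ Submonoid.closure {z : ℂ | aeval z R = 0} :=
    G.good _ (hasEigenvalue_of_gen G.gen hy0)
  -- the relation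
  have h3 : (((G.l.map (ELetter.label σ)).map fun x => x.2 ^ t').prod) * σ G.ν =
      ((card Φ Z t ^ j : ℕ) : ℂ) := by
    have e1 := congrArg σ h2
    rw [map_mul, map_pow, map_list_prod, map_pow, map_natCast] at e1
    rw [Nat.cast_pow, ← e1, List.map_map, List.map_map]
    congr 1
    have e2 : ∀ l : List (ELetter p P m Z), (l.map ((fun x : I × ℂ => x.2 ^ t') ∘
        ELetter.label σ)).prod = (l.map (⇑σ ∘ ELetter.lam)).prod ^ t' := by
      intro l
      induction l with
      | nil => simp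
      | cons a l ih =>
        rw [List.map_cons, List.prod_cons, ih, List.map_cons, List.prod_cons, mul_pow]
        rfl
    exact e2 _
  have h4 : BalList (fun i => (P i).Q p m) (G.l.map (ELetter.label σ)) := by
    intro i z
    have := H.bal (G.l.map (ELetter.label σ)) (by
      intro x hx
      obtain ⟨b, _, rfl⟩ := List.mem_map.1 hx
      exact aeval_sigma σ b.isEig.root) t' ht' (σ G.ν) hν (card Φ Z t ^ j)
      (pow_pos (card_pos Φ t) j) h3 i z
    convert this
  obtain ⟨h5, N, hN, hprod⟩ := balanced_alg hPAIR H G.l.length G.l le_rfl h4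
  -- degrees
  have h6 : G.val ∈ W.gr Z (2 * N + G.d) := by
    rw [← hN]
    exact good_deg H G
  have h7 : 2 * N + G.d = 2 * j := by
    by_contra hne
    apply hc0
    rw [← proj_same (W.isInternal Z) hc.2]
    exact proj_ne _ h6 hne
  have h8 : ((p : W.K) ^ (m * N)) ^ t' = (p : W.K) ^ (Φ.e Z * t * N) := by
    rw [← pow_mul]
    by_cases hl : G.l = []
    · have : N = 0 := by
        rw [hl] at hN
        simp at hN
        omega
      rw [this]
      simp
    · congr 1
      rw [← hne hl]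
      ring
  have hp0 : (p : W.K) ≠ 0 := Nat.cast_ne_zero.2 Φ.p_pos.ne'
  obtain ⟨j', hj'⟩ : ∃ j', j = N + j' := ⟨j - N, by omega⟩
  have hd : G.d = 2 * j' := by omega
  have h9 : G.ν = (card Φ G.T G.s : W.K) ^ j' := by
    rw [hprod, h8, card_pow, hj', mul_add, pow_add] at h2
    have h10 := mul_left_cancel₀ (pow_ne_zero _ hp0) h2
    rw [h10, card_pow]
    congr 1
    rw [mul_comm (Φ.e G.T), G.hse]
    ring
  have h10 : G.y ∈ genTate Φ G.T G.s j' := by
    refine ⟨?_, ?_⟩
    · have := G.gen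
      rw [h9] at this
      exact this
    · rw [← hd]
      exact G.hy
  have h11 : j' ≤ G.T.dim := by
    by_contra hlt
    push Not at hlt
    apply hy0
    have := h10.2
    have h12 : W.gr G.T (2 * j') = ⊥ := W.gr_eq_bot G.T (2 * j') (by omega)
    rw [h12] at this
    exact (Submodule.mem_bot _).1 this
  have h12 := hT G.T G.hT j' h11 G.s G.hs h10
  exact algSpan_mul h5 (algSpan_map _ (W397.MF.spanCycles_le_algSpan _ h12))

/-- Homogeneous elements of the span of the algebraic classes. -/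
lemma spanCycles_of_alg {j : ℕ} {c : W.H Z} (hc : c ∈ algSpan W Z) (hj : c ∈ W.gr Z (2 * j)) :
    c ∈ spanCycles W Z j := by
  have h1 : H914.proj (W.isInternal Z) (2 * j) c ∈ spanCycles W Z j := by
    refine algSpan_induction (p := fun c => H914.proj (W.isInternal Z) (2 * j) c ∈
      spanCycles W Z j) ?_ ?_ ?_ ?_ hc
    · rw [map_zero]; exact Submodule.zero_mem _
    · intro a b ha hb
      rw [map_add]; exact Submodule.add_mem _ ha hb
    · intro r a ha
      rw [map_smul]; exact Submodule.smul_mem _ _ ha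
    · intro i z hz
      by_cases h : i = j
      · subst h
        rw [proj_same _ (W.cl_mem hz)]
        exact H447.mem_span_cl hz
      · rw [proj_ne _ (W.cl_mem hz) (by omega)]
        exact Submodule.zero_mem _
  rwa [proj_same _ hj] at h1

/-- **The Tate conjecture and semisimplicity for all products.** -/
theorem tate_products [IsAlgClosed W.K] (hPAIR : St_PAIR.{u, v}) (hSPAN : St_SPAN.{u, v, 0})
    (H : Setup Φ σ P m R)
    (hY : ∀ T : 𝒱.Obj, IsProductOf {Y} T → ∀ j ≤ T.dim, SemisimpleTateIn Φ T j) (Z : 𝒱.Obj)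
    (hZ : IsProductOf ({Y} ∪ Set.range fun i => (P i).obj) Z) :
    ∀ j, SemisimpleTateIn Φ Z j := by
  intro j s hs c hc
  obtain ⟨t, ht, h1⟩ := genTate_span (σ := σ) hSPAN H hZ hs hc
  refine spanCycles_of_alg ?_ hc.2
  refine Submodule.span_le.2 ?_ h1
  rintro v ⟨⟨G, rfl⟩, hv⟩
  exact good_alg hPAIR H hY G hv

/-- **The pole formula for all products.** -/
theorem pole_products [IsAlgClosed W.K] (hPAIR : St_PAIR.{u, v}) (hSPAN : St_SPAN.{u, v, 0})
    (hPOLE : St_POLE.{u, v}) (H : Setup Φ σ P m R) (hRH : ∀ Z, RiemannHyp Φ σ Z)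
    (hY : ∀ T : 𝒱.Obj, IsProductOf {Y} T → ∀ j ≤ T.dim, PoleFormula Φ σ T j) (Z : 𝒱.Obj)
    (hZ : IsProductOf ({Y} ∪ Set.range fun i => (P i).obj) Z) :
    ∀ j ≤ Z.dim, PoleFormula Φ σ Z j := by
  refine hPOLE W σ p H.hp Φ Z (hRH Z) fun j _ => tate_products hPAIR hSPAN H ?_ Z hZ j
  intro T hT j hj
  obtain ⟨l, hl⟩ := Nat.exists_eq_add_of_le hj
  exact (semisimple_of_pole H.hp (hRH T) hl.symm (hY T hT j hj)).1

end Pool.Agent.W458.MF
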