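import Pool.Agent.W458.MF.Fin2
import Pool.Agent.W458.MF.ExDefs
import Pool.Agent.W458.MF.Geo6
import Pool.Agent.W40.MF.Span
import Pool.Agent.W216.MF.Pole
import Pool.Agent.W216.MF.Uni
import Pool.Agent.W337.MF.Orb
import Pool.Agent.W806.MF.DENS
import Pool.Agent.W976.MF.SPL
import Pool.Agent.W976.MF.FLIP
import Pool.Agent.W366.MF.WInj
import Pool.Agent.W205.MF.CNT
import Pool.Agent.W338.MF.NT

/-!
# The pole formula for the products of almost all members of families
-/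

open CategoryTheory AlgebraicGeometry Polynomial

universe u v

namespace Pool.Agent.W458.MF

open Pool.Agent.H914 Pool.Agent.W534 Pool.Agent.W521.Frob VarClass Obj WeilCohomology

lemma exists_R {K : Type*} [Field K] [CharZero K] {S : Set K} (hS : S.Finite)
    (h : ∀ x ∈ S, IsIntegral ℤ x) : ∃ R : ℤ[X], R.Monic ∧
      (R.map (Int.castRingHom ℚ)).Separable ∧ ∀ x ∈ S, aeval x R = 0 := by
  classical
  set T : Finset ℤ[X] := hS.toFinset.image (minpoly ℤ) with hT
  have hmem : ∀ f ∈ T, ∃ x ∈ S, f = minpoly ℤ x := by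
    intro f hf
    obtain ⟨x, hx, rfl⟩ := Finset.mem_image.1 hf
    exact ⟨x, hS.mem_toFinset.1 hx, rfl⟩
  have hmap : ∀ x ∈ S, (minpoly ℤ x).map (Int.castRingHom ℚ) = minpoly ℚ x := by
    intro x hx
    rw [minpoly.isIntegrallyClosed_eq_field_fractions' ℚ (h x hx)]
    rfl
  refine ⟨∏ f ∈ T, f, ?_, ?_, ?_⟩
  · refine monic_prod_of_monic _ _ fun f hf => ?_
    obtain ⟨x, hx, rfl⟩ := hmem f hf
    exact minpoly.monic (h x hx)
  · rw [Polynomial.map_prod]
    refine separable_prod' ?_ ?_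
    · intro f hf f' hf' hne
      obtain ⟨x, hx, rfl⟩ := hmem f hf
      obtain ⟨y, hy, rfl⟩ := hmem f' hf'
      rw [hmap x hx, hmap y hy]
      have hxi : IsIntegral ℚ x := (h x hx).tower_top
      have hyi : IsIntegral ℚ y := (h y hy).tower_top
      rw [(minpoly.irreducible hxi).coprime_iff_not_dvd]
      intro hdvd
      apply hne
      have h1 : minpoly ℚ x = minpoly ℚ y :=
        eq_of_monic_of_associated (minpoly.monic hxi) (minpoly.monic hyi)
          ((minpoly.irreducible hxi).associated_of_dvd (minpoly.irreducible hyi) hdvd)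
      rw [← hmap x hx, ← hmap y hy] at h1
      exact map_injective _ Int.cast_injective h1
    · intro f hf
      obtain ⟨x, hx, rfl⟩ := hmem f hf
      rw [hmap x hx]
      exact (minpoly.irreducible (h x hx).tower_top).separable
  · intro x hx
    rw [map_prod]
    refine Finset.prod_eq_zero (i := minpoly ℤ x) ?_ (minpoly.aeval ℤ x)
    exact Finset.mem_image_of_mem _ (hS.mem_toFinset.2 hx)

variable {k : Type u} [Field k] {𝒱 : VarClass k} {ops : CycleOps 𝒱}

/-- Almost all tuples of members of families with symplectic monodromy satisfy the hypotheses of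
the geometric theorem. -/
theorem almost_all_setup (W : WeilCohomology.{u, v} ops) (σ : W.K →+* ℂ) (p : ℕ)
    (hp : p.Prime) (Φ : FrobSystem W p) (Y : 𝒱.Obj)
    (hint : ∀ μ : W.K, Module.End.HasEigenvalue (W.map (Φ.Fr Y)).toLinearMap μ → IsIntegral ℤ μ)
    {I : Type} [Fintype I] (F : I → Family W Y) (n g l₀ : I → ℕ)
    (hF : ∀ i, (F i).HasSymplecticMonodromy Φ (n i) (g i) (l₀ i)) (ε : ℝ) (hε : 0 < ε) :
    ∃ (R : ℤ[X]) (m₀ : ℕ), ∀ m ≥ m₀, ({s : ∀ i, (F i).S m |
        ¬ Setup Φ σ (fun i => (F i).member m (s i)) m R}.ncard : ℝ) ≤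
      ε * ∏ i, (Nat.card ((F i).S m) : ℝ) := by
  classical
  obtain ⟨R, hRm, hRs, hR⟩ := exists_R
    (Module.End.finite_hasEigenvalue (W.map (Φ.Fr Y)).toLinearMap) hint
  obtain ⟨N, hN, hNz⟩ := W216.MF.uni (2 * ∑ i, g i)
  obtain ⟨m₀, h⟩ := almost_all W216.MF.sieve (W806.MF.dens W337.MF.orb W366.MF.winj W205.MF.cnt)
    W976.MF.SPL hp F n g l₀ hF R hRm hRs N hN ε hε
  refine ⟨R, m₀ + 1, fun m hm => le_trans ?_ (h m (by omega))⟩
  have hm0 : 0 < m := by omega
  refine Nat.cast_le.2 (Set.ncard_le_ncard ?_ (Set.toFinite _))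
  intro s hs hpat
  apply hs
  have hO : ∀ i, ((F i).member m (s i)).IsOver Φ m := fun i => (hF i).isOver m hm0 (s i)
  have hdeg : ∀ i, ((F i).member m (s i)).pol.natDegree = g i := fun i => (hF i).degree m (s i)
  have hdim : ∀ i, ((F i).member m (s i)).obj.dim = n i := fun i => (hF i).dim m (s i)
  have hnt := W338.MF.nt W976.MF.FLIP (fun i => p ^ (n i * m))
    (fun i => ((F i).member m (s i)).pol) R N hN (fun i => pow_pos hp.pos _)
    (fun i => (hO i).monic) (fun i => (hO i).degree_pos) hRm (by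
      rintro i z ht ⟨P, hP0, hPd, hPz⟩
      refine hNz z ht ⟨P, hP0, hPd.trans ?_, hPz⟩
      rw [hdeg i]
      exact Nat.mul_le_mul_left 2 (Finset.single_le_sum (fun j _ => Nat.zero_le _)
        (Finset.mem_univ i)))
    (by
      intro i
      obtain ⟨l, hl, h1⟩ := hpat.1 i
      exact ⟨l, hl, by rw [hdeg i]; exact h1⟩)
    (by
      intro i₀
      obtain ⟨l, hl, hl2, hlq, hlR, h1, h2⟩ := hpat.2 i₀
      refine ⟨l, hl, hl2, hlq, hlR, ?_, fun i hi => ?_⟩
      · rw [hdeg i₀]; exact h1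
      · rw [hdeg i]; exact h2 i hi)
  have hQ : ∀ i, ((F i).member m (s i)).Q p m = p ^ (n i * m) := by
    intro i
    rw [Piece.Q, hdim i]
  refine ⟨hp.one_lt, hm0, hO, fun μ hμ => hR μ hμ, ?_, ?_⟩
  · have e : (fun i => ((F i).member m (s i)).Q p m) = fun i => p ^ (n i * m) := funext hQ
    rw [e]
    exact hnt.1
  · intro i
    rw [hQ i]
    exact hnt.2 i

/-- **The Tate conjecture and semisimplicity for the products of almost all members of families
with symplectic monodromy.** -/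
theorem almost_all_tate (W : WeilCohomology.{u, v} ops) [IsAlgClosed W.K] (σ : W.K →+* ℂ) (p : ℕ)
    (hp : p.Prime) (Φ : FrobSystem W p) (Y : 𝒱.Obj)
    (hint : ∀ μ : W.K, Module.End.HasEigenvalue (W.map (Φ.Fr Y)).toLinearMap μ → IsIntegral ℤ μ)
    (hY : ∀ Z, IsProductOf {Y} Z → ∀ j ≤ Z.dim, SemisimpleTateIn Φ Z j)
    {I : Type} [Fintype I] (F : I → Family W Y) (n g l₀ : I → ℕ)
    (hF : ∀ i, (F i).HasSymplecticMonodromy Φ (n i) (g i) (l₀ i)) (ε : ℝ) (hε : 0 < ε) :
    ∃ m₀ : ℕ, ∀ m ≥ m₀, ((exceptions F m fun Z => ∀ j, SemisimpleTateIn Φ Z j).ncard : ℝ) ≤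
      ε * ∏ i, (Nat.card ((F i).S m) : ℝ) := by
  classical
  obtain ⟨R, m₀, h⟩ := almost_all_setup W σ p hp Φ Y hint F n g l₀ hF ε hε
  refine ⟨m₀, fun m hm => le_trans ?_ (h m hm)⟩
  refine Nat.cast_le.2 (Set.ncard_le_ncard ?_ (Set.toFinite _))
  intro s hs H
  exact hs fun Z hZ => tate_products W397.MF.pair W40.MF.span H hY Z hZ

/-- **The pole formula for the products of almost all members of families with symplectic
monodromy.** -/
theorem almost_all_pole (W : WeilCohomology.{u, v} ops) [IsAlgClosed W.K] (σ : W.K →+* ℂ) (p : ℕ)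
    (hp : p.Prime) (Φ : FrobSystem W p) (hRH : ∀ Z, RiemannHyp Φ σ Z) (Y : 𝒱.Obj)
    (hint : ∀ μ : W.K, Module.End.HasEigenvalue (W.map (Φ.Fr Y)).toLinearMap μ → IsIntegral ℤ μ)
    (hY : ∀ Z, IsProductOf {Y} Z → ∀ j ≤ Z.dim, PoleFormula Φ σ Z j)
    {I : Type} [Fintype I] (F : I → Family W Y) (n g l₀ : I → ℕ)
    (hF : ∀ i, (F i).HasSymplecticMonodromy Φ (n i) (g i) (l₀ i)) (ε : ℝ) (hε : 0 < ε) :
    ∃ m₀ : ℕ, ∀ m ≥ m₀,
      ((exceptions F m fun Z => ∀ j ≤ Z.dim, PoleFormula Φ σ Z j).ncard : ℝ) ≤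
        ε * ∏ i, (Nat.card ((F i).S m) : ℝ) := by
  classical
  obtain ⟨R, m₀, h⟩ := almost_all_setup W σ p hp Φ Y hint F n g l₀ hF ε hε
  refine ⟨m₀, fun m hm => le_trans ?_ (h m hm)⟩
  refine Nat.cast_le.2 (Set.ncard_le_ncard ?_ (Set.toFinite _))
  intro s hs H
  exact hs fun Z hZ => pole_products W397.MF.pair W40.MF.span W216.MF.pole H hRH hY Z hZ

end Pool.Agent.W458.MF
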