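import Pool.Agent.W458.MF.Geo2
import Pool.Agent.W458.MF.EDefs
import Pool.Agent.H914R2.DDefs

/-!
# Pieces with further eigenvectors: definitions and statements of parts
-/

open CategoryTheory AlgebraicGeometry Polynomial

universe u v w

namespace Pool.Agent.W458.MF

open Pool.Agent.H914 Pool.Agent.W534 Pool.Agent.W521.Frob VarClass Obj WeilCohomology
  Pool.Agent.H281R3.HT

variable {k : Type u} [Field k] {𝒱 : VarClass k} {ops : CycleOps 𝒱}
  {W : WeilCohomology.{u, v} ops} {Y : 𝒱.Obj}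

/-- The further eigenvectors of the endomorphism `fr` in the subspace `sub` of a piece of even
dimension `2 n`, for the eigenvalues `p ^ (n m)` and `-p ^ (n m)`. -/
def IsExt (p : ℕ) (P : Piece W Y) (m : ℕ) (x : W.H P.obj) : Prop :=
  x ∈ P.sub ∧ ∃ n, P.obj.dim = 2 * n ∧ (W.map P.fr x = ((p : W.K) ^ (n * m)) • x ∨
    W.map P.fr x = (-((p : W.K) ^ (n * m))) • x)

/-- The hypotheses of the geometric theorems: the pieces are spanned by the eigenvectors for the
roots of the polynomials `weil`, which are simple, and by further eigenvectors, and the relations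
between the roots are balanced. -/
structure GSetup {I : Type} {p : ℕ} (Φ : FrobSystem W p) (σ : W.K →+* ℂ) (P : I → Piece W Y)
    (m : ℕ) (R : ℤ[X]) : Prop where
  hp : 1 < p
  hm : 0 < m
  frob : ∀ i, (P i).IsFrobenius Φ m
  sub_le : ∀ i, (P i).sub ≤ W.gr (P i).obj (P i).obj.dim
  gen : ∀ i, (P i).Generated
  monic : ∀ i, (P i).pol.Monic
  span : ∀ i, ∀ x ∈ (P i).sub, x ∈ Submodule.span W.K
    {v | (∃ lam, IsEig p (P i) m lam v) ∨ IsExt p (P i) m v}
  uniq : ∀ i (lam : W.K) (x y : W.H (P i).obj), IsEig p (P i) m lam x →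
    IsEig p (P i) m lam y → ∃ c : W.K, y = c • x
  hR : ∀ μ : W.K, Module.End.HasEigenvalue (W.map (Φ.Fr Y)).toLinearMap μ → aeval μ R = 0
  hRp : aeval (p : ℂ) R = 0
  bal : Balanced (fun i => (P i).Q p m) (fun i => (P i).pol) R
  sep : ∀ i, ((weil ((P i).Q p m) (P i).pol).map (Int.castRingHom ℚ)).Separable

/-- XPAIR: if the generalised eigenspace of an endomorphism `φ^*` for the eigenvalue `ρ`, with
`ρ ^ 2 = Q = deg φ`, is spanned by algebraic classes and by an eigenvector `v` orthogonal to them,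
then the external product of `v` and `v` is a linear combination of algebraic classes. -/
def St_XPAIR : Prop := ∀ {k : Type u} [Field k] {𝒱 : VarClass k} {ops : CycleOps 𝒱}
  (W : WeilCohomology.{u, v} ops) (X : 𝒱.Obj) (φ : X ⟶ X) (Q : ℕ) (ρ : W.K) (v : W.H X)
  (B : Submodule W.K (W.H X)), 0 < Q → (∀ x, W.tr X (W.map φ x) = (Q : W.K) * W.tr X x) →
  ρ ^ 2 = (Q : W.K) → W.map φ v = ρ • v → B ≤ algSpan W X → (∀ b ∈ B, W.tr X (b * v) = 0) →
  (∀ b ∈ B, b * v = v * b) → W.tr X (v * v) ≠ 0 →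
  (∀ x ∈ Module.End.maxGenEigenspace (W.map φ).toLinearMap ρ, ∃ b ∈ B, ∃ c : W.K,
    x = b + c • v) →
  ext W v v ∈ algSpan W (X.prod X)

/-- DFIN: a criterion for the conjecture D: all generalised Tate classes are combinations of
products of algebraic classes and classes `w` whose external square is algebraic. -/
def St_DFIN : Prop := ∀ {k : Type u} [Field k] {𝒱 : VarClass k} {ops : CycleOps 𝒱}
  (W : WeilCohomology.{u, v} ops) (p : ℕ), 1 < p → ∀ (Φ : FrobSystem W p) (Z : 𝒱.Obj),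
  (∀ s, 0 < s → ∀ j, ∀ c ∈ genTate Φ Z s j, c ∈ Submodule.span W.K
    {c | ∃ w A : W.H Z, (∃ d : ℕ, w ∈ W.gr Z (2 * d)) ∧ ext W w w ∈ algSpan W (Z.prod Z) ∧
      A ∈ algSpan W Z ∧ c = w * A}) →
  HomEqNum W Z

end Pool.Agent.W458.MF
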