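import Pool.Agent.W458.MF.Fin2

/-!
# The sieve for products of families, general form
-/

open Polynomial

universe u v

namespace Pool.Agent.W458.MF

open Pool.Agent.H914 Pool.Agent.W534 Pool.Agent.W521.Frob

variable {k : Type u} [Field k] {𝒱 : VarClass k} {ops : CycleOps 𝒱}
  {W : WeilCohomology.{u, v} ops} {Y : 𝒱.Obj} {p : ℕ} {Φ : FrobSystem W p}

/-- Asymptotic independence modulo the primes in `G`. -/
def Family.Equi (F : Family W Y) (G : Set ℕ) (π : ∀ m l : ℕ, Set (ZMod l)[X] → ℝ) : Prop :=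
  ∀ l ∈ G, ∀ l' ∈ G, l ≠ l' → ∀ ε : ℝ, 0 < ε → ∃ m₀ : ℕ, ∀ m ≥ m₀, Nonempty (F.S m) →
    ∀ (E : Set (ZMod l)[X]) (E' : Set (ZMod l')[X]),
      |F.frequency m l l' E E' - π m l E * π m l' E'| ≤ ε

lemma equi_gen {F : Family W Y} {G : Set ℕ} {π : ∀ m l : ℕ, Set (ZMod l)[X] → ℝ}
    (hF : F.Equi G π) (h0 : ∀ l ∈ G, ∀ m, ∀ E, 0 ≤ π m l E) (h1 : ∀ l ∈ G, ∀ m, ∀ E, π m l E ≤ 1)
    {l l' : ℕ} (hl : l ∈ G) (hl' : l' ∈ G) (hll : l ≠ l') {ε : ℝ} (hε : 0 < ε) :
    ∃ m₀ : ℕ, ∀ m ≥ m₀, Nonempty (F.S m) →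
      (∀ (E : Set (ZMod l)[X]) (E' : Set (ZMod l')[X]),
        |((F.pat m l E ∩ F.pat m l' E').ncard : ℝ) / (Nat.card (F.S m) : ℝ) -
          π m l E * π m l' E'| ≤ ε) ∧
      ∀ E : Set (ZMod l)[X], |((F.pat m l E).ncard : ℝ) / (Nat.card (F.S m) : ℝ) -
          π m l E| ≤ ε := by
  obtain ⟨m₀, h⟩ := hF l hl l' hl' hll (ε / 2) (by positivity)
  refine ⟨m₀, fun m hm hne => ?_⟩
  have h2 : ∀ (E : Set (ZMod l)[X]) (E' : Set (ZMod l')[X]),
        |((F.pat m l E ∩ F.pat m l' E').ncard : ℝ) / (Nat.card (F.S m) : ℝ) -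
          π m l E * π m l' E'| ≤ ε / 2 := fun E E' => h m hm hne E E'
  refine ⟨fun E E' => (h2 E E').trans (by linarith), fun E => ?_⟩
  have h3 := h2 E Set.univ
  have h4 := h2 Set.univ Set.univ
  have e1 : F.pat m l E ∩ F.pat m l' Set.univ = F.pat m l E := by
    ext s
    simp [Family.pat]
  have e2 : F.pat m l Set.univ ∩ F.pat m l' Set.univ = Set.univ := by
    ext s
    simp [Family.pat]
  rw [e1] at h3
  rw [e2, Set.ncard_univ, div_self (by exact_mod_cast Nat.card_pos.ne')] at h4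
  have h5 := h1 l hl m E
  have h6 := h0 l hl m E
  have h7 := h1 l hl m Set.univ
  have h8 := h0 l' hl' m Set.univ
  rw [abs_le] at h3 h4 ⊢
  have h10 : 1 - π m l' Set.univ ≤ ε / 2 := by
    have : π m l Set.univ * π m l' Set.univ ≤ 1 * π m l' Set.univ :=
      mul_le_mul_of_nonneg_right h7 h8
    linarith [h4.2]
  have h9 := h1 l' hl' m Set.univ
  have h11 : π m l E * (1 - π m l' Set.univ) ≤ 1 * (ε / 2) :=
    mul_le_mul h5 h10 (by linarith) (by norm_num)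
  have h12 : 0 ≤ π m l E * (1 - π m l' Set.univ) := mul_nonneg h6 (by linarith)
  constructor
  · linarith [h3.1]
  · linarith [h3.2]

/-- Almost all tuples have the patterns. -/
theorem almost_all_gen (hS : St_SIEVE) {I K : Type} [Fintype I] [Fintype K]
    (F : I → Family W Y) (G : Set ℕ) (hG : G.Infinite)
    (π : I → ∀ m l : ℕ, Set (ZMod l)[X] → ℝ) (hF : ∀ i, (F i).Equi G (π i))
    (h0 : ∀ i, ∀ l ∈ G, ∀ m E, 0 ≤ π i m l E) (h1 : ∀ i, ∀ l ∈ G, ∀ m E, π i m l E ≤ 1)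
    (E : K → I → ∀ m l : ℕ, Set (ZMod l)[X]) {c₀ : ℝ} (hc₀ : 0 < c₀)
    (hE : ∀ κ i, ∀ l ∈ G, ∀ m, c₀ ≤ π i m l (E κ i m l)) (ε : ℝ) (hε : 0 < ε) :
    ∃ m₀ : ℕ, ∀ m ≥ m₀, ({s : ∀ i, (F i).S m | ¬ ∀ κ, ∃ l ∈ G, ∀ i,
      s i ∈ (F i).pat m l (E κ i m l)}.ncard : ℝ) ≤ ε * ∏ i, (Nat.card ((F i).S m) : ℝ) := by
  classical
  have hempty : ∀ m, (∃ i, IsEmpty ((F i).S m)) → ∀ B : Set (∀ i, (F i).S m),
      (B.ncard : ℝ) ≤ ε * ∏ i, (Nat.card ((F i).S m) : ℝ) := by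
    rintro m ⟨i, hi⟩ B
    have : IsEmpty (∀ i, (F i).S m) := ⟨fun s => hi.false (s i)⟩
    rw [Set.eq_empty_of_isEmpty B, Set.ncard_empty, Nat.cast_zero]
    positivity
  set C : ℝ := c₀ ^ Fintype.card I with hC
  have hCpos : 0 < C := pow_pos hc₀ _
  set η : ℝ := ε / ((Fintype.card K : ℝ) + 1) with hη
  have hηpos : 0 < η := by positivity
  obtain ⟨M, hM⟩ := exists_nat_gt (2 / (C * η))
  obtain ⟨P, hP, hPM⟩ := hG.exists_subset_card_eq (M + 2)
  set δ : ℝ := η * C ^ 2 / (8 * ((Fintype.card I : ℝ) + 1)) with hδ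
  have hδpos : 0 < δ := by positivity
  have hev : ∀ᶠ m in Filter.atTop, ∀ i, ∀ l l' : P, l ≠ l' → Nonempty ((F i).S m) →
      (∀ (E : Set (ZMod l)[X]) (E' : Set (ZMod l')[X]),
        |(((F i).pat m l E ∩ (F i).pat m l' E').ncard : ℝ) / (Nat.card ((F i).S m) : ℝ) -
          π i m l E * π i m l' E'| ≤ δ) ∧
      ∀ E : Set (ZMod l)[X], |(((F i).pat m l E).ncard : ℝ) / (Nat.card ((F i).S m) : ℝ) -
          π i m l E| ≤ δ := by
    rw [Filter.eventually_all]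
    intro i
    rw [Filter.eventually_all]
    intro l
    rw [Filter.eventually_all]
    intro l'
    by_cases hll : l = l'
    · exact Filter.Eventually.of_forall fun m h => absurd hll h
    · obtain ⟨m₀, h4⟩ := equi_gen (hF i) (h0 i) (h1 i) (hP l.2) (hP l'.2)
        (fun h => hll (Subtype.ext h)) hδpos
      exact Filter.eventually_atTop.2 ⟨m₀, fun m hm _ => h4 m hm⟩
  obtain ⟨m₀, hm₀⟩ := Filter.eventually_atTop.1 hev
  refine ⟨m₀, fun m hm => ?_⟩
  by_cases hne : ∀ i, Nonempty ((F i).S m)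
  swap
  · push Not at hne
    exact hempty m hne _
  have hcard : 1 < Fintype.card P := by
    rw [Fintype.card_coe, hPM]
    omega
  have hnek : Nonempty P := Fintype.card_pos_iff.1 (by omega)
  have hnt : ∀ l : P, ∃ l' : P, l ≠ l' := by
    intro l
    have : Nontrivial P := Fintype.one_lt_card_iff_nontrivial.1 hcard
    obtain ⟨l', hl'⟩ := exists_ne l
    exact ⟨l', hl'.symm⟩
  -- the bound for the families of events
  have hbound : ∀ κ : K,
      ({s : ∀ i, (F i).S m | ∀ l : P, ¬ ∀ i, s i ∈ (F i).pat m l (E κ i m l)}.ncard : ℝ) ≤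
        η * ∏ i, (Nat.card ((F i).S m) : ℝ) := by
    intro κ
    have h2 := event_bound hS (S := fun i => (F i).S m) (κ := P)
      (fun i l => (F i).pat m l (E κ i m l)) (fun i l => π i m l (E κ i m l))
      hc₀ hδpos.le (fun i l => ⟨hE κ i l (hP l.2) m, h1 i l (hP l.2) m _⟩)
      (fun i l => by
        obtain ⟨l', hl'⟩ := hnt l
        exact (hm₀ m hm i l l' hl' (hne i)).2 _)
      (fun i l l' hll => (hm₀ m hm i l l' hll (hne i)).1 _ _)
    refine h2.trans (mul_le_mul_of_nonneg_right ?_ (by positivity))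
    rw [← hC]
    have h2 : 1 / (C * (Nat.card P : ℝ)) ≤ η / 2 := by
      have h3 : (M : ℝ) ≤ (Nat.card P : ℝ) := by
        rw [Nat.card_eq_fintype_card, Fintype.card_coe, hPM]
        push_cast
        linarith
      have h4 : 2 / (C * η) < (Nat.card P : ℝ) := hM.trans_le h3
      rw [div_lt_iff₀ (by positivity)] at h4
      have h5 : 0 < (Nat.card P : ℝ) := by
        exact_mod_cast Nat.card_pos
      rw [div_le_div_iff₀ (by positivity) (by norm_num)]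
      nlinarith
    have h3 : 4 * ((Fintype.card I : ℝ) * δ) / C ^ 2 ≤ η / 2 := by
      rw [hδ, div_le_iff₀ (by positivity)]
      have e : 4 * ((Fintype.card I : ℝ) * (η * C ^ 2 / (8 * ((Fintype.card I : ℝ) + 1)))) =
          (η / 2 * C ^ 2) * ((Fintype.card I : ℝ) / ((Fintype.card I : ℝ) + 1)) := by
        field_simp
        ring
      rw [e]
      have h6 : (Fintype.card I : ℝ) / ((Fintype.card I : ℝ) + 1) ≤ 1 :=
        div_le_one_of_le₀ (by linarith) (by positivity)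
      calc (η / 2 * C ^ 2) * ((Fintype.card I : ℝ) / ((Fintype.card I : ℝ) + 1))
          ≤ (η / 2 * C ^ 2) * 1 := mul_le_mul_of_nonneg_left h6 (by positivity)
        _ = η / 2 * C ^ 2 := mul_one _
    linarith
  have hsub : {s : ∀ i, (F i).S m | ¬ ∀ κ, ∃ l ∈ G, ∀ i, s i ∈ (F i).pat m l (E κ i m l)} ⊆
      ⋃ κ, {s : ∀ i, (F i).S m | ∀ l : P, ¬ ∀ i, s i ∈ (F i).pat m l (E κ i m l)} := by
    intro s hs
    rw [Set.mem_iUnion]
    by_contra hcon
    push Not at hcon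
    apply hs
    intro κ
    have h3 := hcon κ
    by_contra h4
    push Not at h4
    exact h3 fun l => h4 l (hP l.2)
  have hP0 : 0 ≤ ∏ i, (Nat.card ((F i).S m) : ℝ) := by positivity
  calc ({s : ∀ i, (F i).S m | ¬ ∀ κ, ∃ l ∈ G, ∀ i,
        s i ∈ (F i).pat m l (E κ i m l)}.ncard : ℝ)
      ≤ ((⋃ κ, {s : ∀ i, (F i).S m |
          ∀ l : P, ¬ ∀ i, s i ∈ (F i).pat m l (E κ i m l)}).ncard : ℝ) := by
        exact_mod_cast Set.ncard_le_ncard hsub (Set.toFinite _)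
    _ ≤ ∑ _κ : K, η * ∏ i, (Nat.card ((F i).S m) : ℝ) := ncard_iUnion_le' _ _ hbound
    _ = ((Fintype.card K : ℝ) * η) * ∏ i, (Nat.card ((F i).S m) : ℝ) := by
        rw [Finset.sum_const, Finset.card_univ, nsmul_eq_mul]
        ring
    _ ≤ ε * ∏ i, (Nat.card ((F i).S m) : ℝ) := by
        refine mul_le_mul_of_nonneg_right ?_ hP0
        rw [hη, mul_div_assoc', div_le_iff₀ (by positivity)]
        nlinarith [(Nat.cast_nonneg (Fintype.card K) : (0 : ℝ) ≤ Fintype.card K)]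

end Pool.Agent.W458.MF
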