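import Pool.Agent.W458.MF.FDefs
import Pool.Agent.W552.Defs

/-!
# Families with large monodromy and polarizations of their members: definitions
-/

open CategoryTheory AlgebraicGeometry Polynomial

universe u v

namespace Pool.Agent.W458.MF.Pol

open Pool.Agent.H914 Pool.Agent.W534 VarClass Obj WeilCohomology Pool.Agent.W458.MF
  Pool.Agent.H281R3.HT Pool.Agent.W552 Pool.Agent.W458.MF.Fam

/-- The subspace `S` of the algebra `H` consists of elements of degree `n` in the kernel of the
linear map `push`, every element of `H` is the sum of an element of `S` and of an element of the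
image of `pull`, and the operator `F` has on `S` the characteristic polynomial `χ`. -/
structure IsVanishingPart {K H H' : Type*} [Field K] [Ring H] [Algebra K H] [Ring H']
    [Algebra K H'] [Module.Finite K H] (pull : H' →ₐ[K] H) (push : H →ₗ[K] H')
    (gr : ℕ → Submodule K H) (n : ℕ) (F : H →ₐ[K] H) (S : Submodule K H) (χ : K[X]) : Prop where
  degree : ∀ x ∈ S, x ∈ gr n
  kernel : ∀ x ∈ S, push x = 0
  generate : ∀ x, ∃ y, x - pull y ∈ S
  charpoly : charpolyOn F.toLinearMap S = χ

/-- The endomorphism `fr` is a Frobenius endomorphism of `obj` over the field with `p ^ m`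
elements, the cohomology of `obj` is the sum of the pull-back of the cohomology of `Y` and of the
subspace `sub` of the cohomology of degree `dim obj`, the Gysin map to the cohomology of `Y` is zero
on `sub`, and the Frobenius endomorphism `fr` has on `sub` the characteristic polynomial
`x ^ g * h (x + q / x) * extraPoly e r`, where `q = p ^ (m dim obj)`, `r = δ p ^ (n m)`, and
`h = pol` is monic of degree `g > 0`. -/
structure IsMember {k : Type u} [Field k] {𝒱 : VarClass k} {ops : CycleOps 𝒱}
    {W : WeilCohomology.{u, v} ops} {Y : 𝒱.Obj} (P : Piece W Y) {p : ℕ} (Φ : FrobSystem W p)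
    (m n e : ℕ) (δ : ℤˣ) : Prop where
  frobenius : P.IsFrobenius Φ m
  monic : P.pol.Monic
  degree_pos : 0 < P.pol.natDegree
  vanishing : IsVanishingPart (W.map P.mor) (W.push P.mor) (W.gr P.obj) P.obj.dim (W.map P.fr)
    P.sub ((weilPoly (p ^ (P.obj.dim * m)) P.pol * extraPoly e (δ * (p : ℤ) ^ (n * m))).map
      (Int.castRingHom W.K))

/-- The family of varieties of dimension `d` over `Y` has large monodromy: the members of the
family are as in `IsMember`, and for all large primes `l ≠ l'` modulo which the polynomial `D`
splits the Frobenius endomorphisms of the members over the field with `p ^ m` elements, modulo `l`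
and modulo `l'`, are asymptotically, as `m` tends to infinity, independent and distributed as
random similitudes of symplectic or quadratic spaces (in the sense of `IsLaw`), as far as their
characteristic polynomials are concerned. -/
structure HasLaw {k : Type u} [Field k] {𝒱 : VarClass k}
    {ops : CycleOps 𝒱} {W : WeilCohomology.{u, v} ops} {Y : 𝒱.Obj} (F : Family W Y) {p : ℕ}
    (Φ : FrobSystem W p) (d n g e l₀ : ℕ) (δ : ℤˣ) (D : ℤ[X])
    (π : ∀ m l : ℕ, Set (ZMod l)[X] → ℝ) : Prop where
  isMember : ∀ m, 0 < m → ∀ s : F.S m, IsMember (F.member m s) Φ m n e δ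
  dim : ∀ m (s : F.S m), (F.member m s).obj.dim = d
  degree : ∀ m (s : F.S m), (F.member m s).pol.natDegree = g
  monic : D.Monic
  separable : (D.map (Int.castRingHom ℚ)).Separable
  law : IsLaw p d n g e δ π
  equidistributed : ∀ l l' : ℕ, l.Prime → l'.Prime → l₀ ≤ l → l₀ ≤ l' → l ≠ l' →
    SplitsAt D l → SplitsAt D l' → ∀ ε : ℝ, 0 < ε → ∃ m₀ : ℕ, ∀ m ≥ m₀, Nonempty (F.S m) →
      ∀ (E : Set (ZMod l)[X]) (E' : Set (ZMod l')[X]),
        |F.frequency m l l' E E' - π m l E * π m l' E'| ≤ ε

/-- The family has large monodromy; the subspaces `sub` of its members have no further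
eigenvalues if `e = 0`, the further eigenvalue `δ p ^ (n m)` if `e = 1`, and both of the eigenvalues
`p ^ (n m)`, `-p ^ (n m)` if `e = 2`. -/
def HasLargeMonodromy {k : Type u} [Field k] {𝒱 : VarClass k}
    {ops : CycleOps 𝒱} {W : WeilCohomology.{u, v} ops} {Y : 𝒱.Obj} (F : Family W Y) {p : ℕ}
    (Φ : FrobSystem W p) (e : ℕ) : Prop :=
  ∃ d n g l₀ δ D π, HasLaw F Φ d n g e l₀ δ D π

/-- The standard conjecture of Hodge type for the cycles on `X` whose classes have the property
`C`: for `2 j ≤ n = dim X` and every cycle `z` of codimension `j` whose class has the property `C`,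
is primitive and is not zero, the sign of the intersection number `z · z · D ^ (n - 2 j)` is
`(-1) ^ j`. -/
def HodgeTypeFor {k : Type u} [Field k] {𝒱 : VarClass k} {ops : CycleOps 𝒱}
    (W : WeilCohomology.{u, v} ops) (X : 𝒱.Obj) (D : X.Cycles) (C : W.H X → Prop) : Prop :=
  ∀ j, 2 * j ≤ X.dim → ∀ z, X.IsCyc j z → C (W.cl X z) →
    W.cl X (divPow ops D (X.dim - 2 * j + 1) z) = 0 → W.cl X z ≠ 0 →
    0 < (-1 : ℚ) ^ j * X.V.degCycle (ops.mul z (divPow ops D (X.dim - 2 * j) z))

/-- The vectors in the subspace `S` on which the operator `F` is the multiplication by a square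
root of `Q` are in `A`. -/
def RootsIn {K V : Type*} [Field K] [AddCommGroup V] [Module K V] (F : V →ₗ[K] V)
    (S : Submodule K V) (Q : K) (A : Submodule K V) : Prop :=
  ∀ x ∈ S, ∀ ρ : K, ρ ^ 2 = Q → F x = ρ • x → x ∈ A

/-- The divisor `D` on the variety `obj` has a positive degree and satisfies the hard Lefschetz
theorem, `obj` satisfies the Riemann hypothesis, and the standard conjecture of Hodge type holds
for the cycles on `obj` whose classes are pull-backs of classes on `Y`; if `e ≠ 0`, it holds for
all cycles on `obj`, and the eigenvectors of the Frobenius endomorphism `fr` in `sub` for the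
eigenvalues `± p ^ (m dim obj / 2)` are linear combinations of algebraic classes (a case of the
Tate conjecture). -/
structure IsPolarization {k : Type u} [Field k] {𝒱 : VarClass k} {ops : CycleOps 𝒱}
    {W : WeilCohomology.{u, v} ops} {Y : 𝒱.Obj} (P : Piece W Y) {p : ℕ} (Φ : FrobSystem W p)
    (m e : ℕ) (D : P.obj.Cycles) : Prop where
  div : P.obj.IsCyc 1 D
  degree : 0 < P.obj.V.degCycle (divPow ops D P.obj.dim P.obj.V.fundCycle)
  hardLef : HardLefschetz W P.obj D
  rh : RiemannHypothesis W P.obj (Φ.Fr P.obj) (p ^ Φ.e P.obj)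
  hodge : HodgeTypeFor W P.obj D (fun x => e = 0 → ∃ y, x = W.map P.mor y)
  tate : e ≠ 0 → RootsIn (W.map P.fr).toLinearMap P.sub ((p : W.K) ^ (P.obj.dim * m))
    (algSpan W P.obj)

/-- The standard conjecture of Hodge type for all products of the varieties `X i`, with any number
of factors and any repetitions, and the sum of the pull-backs of the divisors. -/
def HodgeTypeForProducts {k : Type u} [Field k] {𝒱 : VarClass k} {ops : CycleOps 𝒱}
    (W : WeilCohomology.{u, v} ops) {I : Type} (X : I → Polarized 𝒱) : Prop :=
  ∀ (n : ℕ) (a : Fin (n + 1) → I),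
    HodgeTypeFor W (nest ops n (fun j => X (a j))).X (nest ops n (fun j => X (a j))).D
      (fun _ => True)

end Pool.Agent.W458.MF.Pol
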