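import Pool.Agent.W458.MF.Gen8
import Pool.Agent.W458.MF.PDefs
import Pool.Agent.W290.MF.Hodge
import Pool.Agent.H447R3.DegB

/-!
# Families with large monodromy: the standard conjecture of Hodge type
-/

open CategoryTheory AlgebraicGeometry Polynomial

universe u v

namespace Pool.Agent.W458.MF

open Pool.Agent.H914 Pool.Agent.W534 Pool.Agent.W521.Frob VarClass Obj WeilCohomology
  Pool.Agent.H281R3.HT Pool.Agent.W536.RR

variable {k : Type u} [Field k] {𝒱 : VarClass k} {ops : CycleOps 𝒱}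
  {W : WeilCohomology.{u, v} ops} {Y : 𝒱.Obj} {p : ℕ} {Φ : FrobSystem W p}

section Alg

/-- The cohomology of the products of copies of `Y`. -/
lemma alg_products (hY : ∀ x : W.H Y, x ∈ algSpan W Y) (Z : 𝒱.Obj) (hZ : IsProductOf {Y} Z) :
    ∀ x : W.H Z, x ∈ algSpan W Z := by
  induction hZ with
  | base h =>
    rw [Set.mem_singleton_iff] at h
    subst h
    exact hY
  | prod _ _ ih1 ih2 =>
    intro x
    refine W.kunneth_induction (p := fun c => c ∈ algSpan W _) ?_ ?_ x
    · intro a b ha hb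
      exact Submodule.add_mem _ ha hb
    · intro i j x _ y _
      exact algSpan_mul (algSpan_map _ (ih1 x)) (algSpan_map _ (ih2 y))

lemma tate_of_alg {Z : 𝒱.Obj} (hZ : ∀ x : W.H Z, x ∈ algSpan W Z) (j : ℕ) :
    SemisimpleTateIn Φ Z j := by
  intro s _ c hc
  exact spanCycles_of_alg (hZ c) hc.2

/-- The algebraic classes are killed by monic polynomials in the Frobenius endomorphism with
integral coefficients. -/
lemma exists_monic {x : W.H Y} (hx : x ∈ algSpan W Y) : ∃ g : ℤ[X], g.Monic ∧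
    aeval (W.map (Φ.Fr Y)).toLinearMap g x = 0 := by
  refine algSpan_induction (p := fun x => ∃ g : ℤ[X], g.Monic ∧
    aeval (W.map (Φ.Fr Y)).toLinearMap g x = 0) ?_ ?_ ?_ ?_ hx
  · exact ⟨1, monic_one, by rw [map_zero]⟩
  · rintro a b ⟨g, hg, ha⟩ ⟨g', hg', hb⟩
    refine ⟨g * g', hg.mul hg', ?_⟩
    have e1 : aeval (W.map (Φ.Fr Y)).toLinearMap (g * g') b = 0 := by
      rw [map_mul, Module.End.mul_apply, hb, map_zero]
    have e2 : aeval (W.map (Φ.Fr Y)).toLinearMap (g * g') a = 0 := by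
      rw [mul_comm, map_mul, Module.End.mul_apply, ha, map_zero]
    rw [map_add, e1, e2, add_zero]
  · rintro r a ⟨g, hg, ha⟩
    exact ⟨g, hg, by rw [map_smul, ha, smul_zero]⟩
  · intro j z hz
    obtain ⟨s, hs, h⟩ := Φ.cyc hz
    refine ⟨X ^ s - C ((p : ℤ) ^ (Φ.e Y * s * j)), monic_X_pow_sub_C _ hs.ne', ?_⟩
    rw [map_sub, map_pow, aeval_X, LinearMap.sub_apply, sub_eq_zero]
    have e1 : ((W.map (Φ.Fr Y)).toLinearMap ^ s) (W.cl Y z) =
        W.map (W534.iter (Φ.Fr Y) s) (W.cl Y z) := by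
      rw [W534.map_iter, Module.End.pow_apply]
      rfl
    rw [e1, h, aeval_C]
    rw [Algebra.algebraMap_eq_smul_one, LinearMap.smul_apply, Module.End.one_apply,
      ← Int.cast_smul_eq_zsmul W.K]
    push_cast
    rfl

lemma integral_of_alg (hY : ∀ x : W.H Y, x ∈ algSpan W Y) (μ : W.K)
    (hμ : Module.End.HasEigenvalue (W.map (Φ.Fr Y)).toLinearMap μ) : IsIntegral ℤ μ := by
  obtain ⟨x, hx⟩ := hμ.exists_hasEigenvector
  obtain ⟨g, hg, h⟩ := exists_monic (Φ := Φ) (hY x)
  refine ⟨g, hg, ?_⟩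
  have h1 : aeval (W.map (Φ.Fr Y)).toLinearMap (g.map (algebraMap ℤ W.K)) x =
      (g.map (algebraMap ℤ W.K)).eval μ • x :=
    Module.End.aeval_apply_of_hasEigenvector hx
  rw [aeval_map_algebraMap, h, Polynomial.eval_map] at h1
  exact (smul_eq_zero.1 h1.symm).resolve_right hx.2

end Alg

section Tuple

variable {I : Type} {P : I → Piece W Y} {m : ℕ} {σ : W.K →+* ℂ} {R : ℤ[X]}

/-- Without further eigenvectors the algebraic classes come from `Y`. -/
lemma alg_range [IsAlgClosed W.K] (H : GSetup Φ σ P m R) (i : I)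
    (hE : ∀ x, IsExt p (P i) m x → x = 0) {j : ℕ} {z : (P i).obj.Cycles}
    (hz : (P i).obj.IsCyc j z) : ∃ y, W.cl (P i).obj z = W.map (P i).mor y := by
  obtain ⟨a, b, ha, hb, hab, h⟩ := frob_comm Φ (P i).mor
  obtain ⟨a₀, b₀, ha₀, hb₀, hlev⟩ := G.exists_glevel (H.frob i)
  obtain ⟨c, hc, hcyc⟩ := Φ.cyc hz
  have hL := hlev (a * c) (Nat.mul_pos ha hc)
  set s := b₀ * (a * c) with hs
  set t := a₀ * (a * c) with ht
  have hcomm : ∀ y : W.H Y, frob Φ (P i).obj s (W.map (P i).mor y) =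
      W.map (P i).mor (frob Φ Y (b * (b₀ * c)) y) := by
    intro y
    have e : s = a * (b₀ * c) := by rw [hs]; ring
    rw [e]
    exact h (b₀ * c) y
  set x := W.cl (P i).obj z with hx
  have hx1 : frob Φ (P i).obj s x = ((card Φ (P i).obj s : W.K) ^ j) • x := by
    have h1 := frob_mul Φ hcyc (b₀ * a)
    rw [card_pow, frob_apply, show s = c * (b₀ * a) by rw [hs]; ring]
    exact h1
  set M : Set (W.H (P i).obj) := {z | (∃ (w : W.H Y) (ν : W.K),
    w ∈ Module.End.maxGenEigenspace (frob Φ Y (b * (b₀ * c))) ν ∧ z = W.map (P i).mor w) ∨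
    (∃ mu, IsEig p (P i) m mu z)} with hM
  have hMgen : ∀ z ∈ M, ∃ ν : W.K, z ∈ Module.End.maxGenEigenspace (frob Φ (P i).obj s) ν := by
    rintro z (⟨w, ν, hw, rfl⟩ | ⟨mu, hz⟩)
    · refine ⟨1 * ν, gen_map (θ := (W.map (P i).mor).toLinearMap) (c := 1) ?_ hw⟩
      intro y
      rw [one_smul]
      exact hcomm y
    · exact ⟨mu ^ t, eig_mem_gen (hL.eig hz.eig)⟩
  have hspan : x ∈ Submodule.span W.K M := by
    obtain ⟨w, hw⟩ := (H.gen i) x
    have h1 : x = W.map (P i).mor w + (x - W.map (P i).mor w) := by abel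
    rw [h1]
    refine Submodule.add_mem _ ?_ ?_
    · have h2 := Submodule.apply_mem_span_image_of_mem_span (W.map (P i).mor).toLinearMap
        (span_gen_top (frob Φ Y (b * (b₀ * c))) w)
      refine Submodule.span_mono ?_ h2
      rintro _ ⟨w', ⟨ν, hν⟩, rfl⟩
      exact Or.inl ⟨w', ν, hν, rfl⟩
    · refine Submodule.span_le.2 ?_ (H.span i _ hw)
      rintro z (hz | hz)
      · exact Submodule.subset_span (Or.inr hz)
      · rw [hE z hz]
        exact Submodule.zero_mem _
  have h3 := mem_span_gen hMgen hspan (eig_mem_gen hx1)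
  have h4 : Submodule.span W.K {v | v ∈ M ∧
      v ∈ Module.End.maxGenEigenspace (frob Φ (P i).obj s) ((card Φ (P i).obj s : W.K) ^ j)} ≤
      LinearMap.range (W.map (P i).mor).toLinearMap := by
    rw [Submodule.span_le]
    rintro z ⟨hz | hz, hz2⟩
    · obtain ⟨w, ν, hw, rfl⟩ := hz
      exact ⟨w, rfl⟩
    · obtain ⟨mu, hz⟩ := hz
      exfalso
      have h6 := eq_of_mem_gen (eig_mem_gen (hL.eig hz.eig)) hz2 hz.ne
      have h7 := congrArg σ h6
      rw [map_pow, map_pow, map_natCast, ← Nat.cast_pow] at h7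
      exact G.sep_nat (G.GSetup.Q_pos H) H.monic H.bal H.sep i hL.2.1 (aeval_sigma σ hz.root)
        (pow_pos (card_pos Φ s) j) h7
  obtain ⟨y, hy⟩ := h4 h3
  exact ⟨y, hy.symm⟩

end Tuple

/-- The two versions of the definition of the members agree. -/
lemma isMember_of_pol {P : Piece W Y} {m n e : ℕ} {δ : ℤˣ} (h : Pol.IsMember P Φ m n e δ) :
    Fam.IsMember P Φ m n e δ where
  frobenius := h.frobenius
  sub_le := h.vanishing.degree
  generated := h.vanishing.generate
  gysin := fun x hx => LinearMap.mem_ker.2 (h.vanishing.kernel x hx)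
  monic := h.monic
  degree_pos := h.degree_pos
  charpoly := h.vanishing.charpoly

lemma largeMonodromy_of_pol {F : Family W Y} {e : ℕ} (h : Pol.HasLargeMonodromy F Φ e) :
    Fam.HasLargeMonodromy F Φ e := by
  obtain ⟨d, n, g, l₀, δ, D, π, h⟩ := h
  exact ⟨d, n, g, l₀, δ, D, π, {
    isMember := fun m hm s => isMember_of_pol (h.isMember m hm s)
    dim := h.dim
    degree := h.degree
    monic := h.monic
    separable := h.separable
    law := h.law
    equidistributed := h.equidistributed }⟩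

/-- **The standard conjecture of Hodge type for all products of almost all members.** -/
theorem final_hodge (W : WeilCohomology.{u, v} ops) [IsAlgClosed W.K] (σ : W.K →+* ℂ) (p : ℕ)
    (hp : p.Prime) (Φ : FrobSystem W p) (Y : 𝒱.Obj) (hY : ∀ x : W.H Y, x ∈ algSpan W Y)
    {I : Type} [Fintype I] (F : I → Family W Y) (e : I → ℕ)
    (hF : ∀ i, Pol.HasLargeMonodromy (F i) Φ (e i)) (ε : ℝ) (hε : 0 < ε) :
    ∃ m₀ : ℕ, ∀ m ≥ m₀, ({s : ∀ i, (F i).S m |
        ¬ ∀ D : ∀ i, ((F i).member m (s i)).obj.Cycles,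
          (∀ i, Pol.IsPolarization ((F i).member m (s i)) Φ m (e i) (D i)) →
            Pol.HodgeTypeForProducts W fun i =>
              ⟨((F i).member m (s i)).obj, D i⟩}.ncard : ℝ) ≤
      ε * ∏ i, (Nat.card ((F i).S m) : ℝ) := by
  classical
  have hF' := fun i => largeMonodromy_of_pol (hF i)
  choose d n g l₀ δ D π hF using hF'
  have hYp : ∀ Z, IsProductOf {Y} Z → ∀ j ≤ Z.dim, SemisimpleTateIn Φ Z j :=
    fun Z hZ j _ => tate_of_alg (alg_products hY Z hZ) j
  obtain ⟨R, m₀, h⟩ := mixed_setup2 (σ := σ) W216.MF.sieve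
    (W806.MF.dens W337.MF.orb W366.MF.winj W205.MF.cnt) st_odens st_edens W976.MF.SPL
    W216.MF.uni st_nt2 hp (integral_of_alg hY) F d n g e l₀ δ D π hF ε hε
  refine ⟨m₀, fun m hm => le_trans ?_ (h m hm)⟩
  refine Nat.cast_le.2 (Set.ncard_le_ncard ?_ (Set.toFinite _))
  intro s hs H
  refine hs fun D hD => ?_
  have h0 : ∀ i, e i = 0 → ∀ x, IsExt p ((F i).member m (s i)) m x → x = 0 := by
    intro i hi x hx
    have h1 := (hF i).isMember m H.hm (s i)
    rw [hi] at h1
    exact ext_zero H i h1 hx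
  have hE : ∀ i, ∀ x, IsExt p ((F i).member m (s i)) m x →
      x ∈ algSpan W ((F i).member m (s i)).obj := by
    intro i x hx
    by_cases he : e i = 0
    · rw [h0 i he x hx]
      exact Submodule.zero_mem _
    · obtain ⟨hx1, r, hr, hx2⟩ := hx
      have hsq : ((p : W.K) ^ (r * m)) ^ 2 =
          (p : W.K) ^ (((F i).member m (s i)).obj.dim * m) := by
        rw [hr, ← pow_mul]
        congr 1
        ring
      rcases hx2 with hx2 | hx2
      · exact (hD i).tate he x hx1 _ hsq hx2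
      · exact (hD i).tate he x hx1 _ (by rw [neg_sq, hsq]) hx2
  have hdD : ∀ Z, IsProductOf ({Y} ∪ Set.range fun i => ((F i).member m (s i)).obj) Z →
      HomEqNum W Z := by
    intro Z hZ
    refine G.gd_products W397.MF.pair W40.MF.span W839.MF.dfin H hYp ?_ Z hZ
    intro i x hx
    exact algSpan_mul (algSpan_map _ (hE i x hx)) (algSpan_map _ (hE i x hx))
  have hB : ∀ i, LefschetzB W ((F i).member m (s i)).obj (D i) := by
    intro i
    have hi : IsProductOf ({Y} ∪ Set.range fun i => ((F i).member m (s i)).obj)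
        ((F i).member m (s i)).obj := IsProductOf.base (Or.inr ⟨i, rfl⟩)
    have h3 := H447.d_tfae (W := W) (hD i).div (hD i).hardLef
    have h4 := (h3.out 0 2).1 (hdD _ (IsProductOf.prod hi hi))
    exact h4.2
  intro n a j hj z hz _ h1 h2
  refine (W290.MF.hodge W Φ σ (fun i => (F i).member m (s i)) m R H hY hE ?_ D
    (fun i => (hD i).div) (fun i => (hD i).degree) (fun i => (hD i).hardLef)
    hB (fun i => ?_) ?_ n a).1 j hj z hz h1 h2
  · intro i j
    exact G.gtate_products W397.MF.pair W40.MF.span H hYp hE _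
      (IsProductOf.base (Or.inr ⟨i, rfl⟩)) j
  · rw [card, mul_one]
    exact (hD i).rh
  · intro i j hj z hz h1 h2
    exact (hD i).hodge j hj z hz (fun he => alg_range H i (h0 i he) hz) h1 h2

end Pool.Agent.W458.MF
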