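import Pool.Agent.W458.MF.NStm

/-!
# Proper similitudes of split quadratic spaces over finite fields: definitions
-/

open Polynomial

namespace Pool.Agent.W458.MF

open Pool.Agent.W521.Frob

/-- The matrix of the split symmetric bilinear form of rank `2 g`. -/
def splitForm (g l : ℕ) : Matrix (Fin g ⊕ Fin g) (Fin g ⊕ Fin g) (ZMod l) :=
  Matrix.fromBlocks 0 1 1 0

lemma splitForm_transpose (g l : ℕ) : (splitForm g l).transpose = splitForm g l := by
  rw [splitForm, Matrix.fromBlocks_transpose, Matrix.transpose_zero, Matrix.transpose_one]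

lemma splitForm_mul (g l : ℕ) : splitForm g l * splitForm g l = 1 := by
  rw [splitForm, Matrix.fromBlocks_multiply]
  simp

/-- The group of the isometries of the split quadratic space of dimension `2 g` over the field with
`l` elements. -/
def isometries (g l : ℕ) : Subgroup (Matrix (Fin g ⊕ Fin g) (Fin g ⊕ Fin g) (ZMod l))ˣ where
  carrier := {P | P.val * splitForm g l * P.val.transpose = splitForm g l}
  mul_mem' := by
    intro P P' hP hP'
    simp only [Set.mem_ofPred_eq] at hP hP' ⊢
    rw [Units.val_mul, Matrix.transpose_mul]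
    calc P.val * P'.val * splitForm g l * (P'.val.transpose * P.val.transpose)
        = P.val * (P'.val * splitForm g l * P'.val.transpose) * P.val.transpose := by
          simp only [mul_assoc]
      _ = splitForm g l := by rw [hP', hP]
  one_mem' := by
    simp only [Set.mem_ofPred_eq]
    rw [Units.val_one, Matrix.transpose_one, one_mul, mul_one]
  inv_mem' := by
    intro P hP
    simp only [Set.mem_ofPred_eq] at hP ⊢
    have h1 : P.val.transpose * (P⁻¹).val.transpose = 1 := by
      rw [← Matrix.transpose_mul, ← Units.val_mul, inv_mul_cancel, Units.val_one,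
        Matrix.transpose_one]
    calc (P⁻¹).val * splitForm g l * (P⁻¹).val.transpose
        = (P⁻¹).val * (P.val * splitForm g l * P.val.transpose) * (P⁻¹).val.transpose := by rw [hP]
      _ = ((P⁻¹).val * P.val) * splitForm g l * (P.val.transpose * (P⁻¹).val.transpose) := by
            simp only [mul_assoc]
      _ = splitForm g l := by
            rw [h1, ← Units.val_mul, inv_mul_cancel, Units.val_one, one_mul, mul_one]

/-- The commutator subgroup of the group of isometries. -/
def Omega (g l : ℕ) : Subgroup (Matrix (Fin g ⊕ Fin g) (Fin g ⊕ Fin g) (ZMod l))ˣ :=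
  ⁅isometries g l, isometries g l⁆

/-- The diagonal matrix with the entries `κ, 1, …, 1, κ⁻¹, 1, …, 1`. -/
def diagElt (g l : ℕ) (κ : (ZMod l)ˣ) : Matrix (Fin g ⊕ Fin g) (Fin g ⊕ Fin g) (ZMod l) :=
  Matrix.diagonal (Sum.elim (fun i => if i.val = 0 then (κ : ZMod l) else 1)
    (fun i => if i.val = 0 then ((κ⁻¹ : (ZMod l)ˣ) : ZMod l) else 1))

/-- The coset, in the group of isometries, of the commutator subgroup, which contains the diagonal
matrix with the entries `κ, 1, …, 1, κ⁻¹, 1, …, 1`. -/
def cosetOf (g l : ℕ) (κ : (ZMod l)ˣ) : Set (Matrix (Fin g ⊕ Fin g) (Fin g ⊕ Fin g) (ZMod l)) :=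
  {B | ∃ ω ∈ Omega g l, B = diagElt g l κ * ω.val}

/-- The proportion, among the isometries `B` in the coset `cosetOf g l κ`, of those for which the
characteristic polynomial of the similitude `r B` (with multiplier `q = r ^ 2`) is
`x ^ g * h (x + q / x)` (modulo `l`) for a monic polynomial `h` of degree `g` whose reduction
modulo `l` is in `E`. -/
noncomputable def oproportion (g l r : ℕ) (κ : (ZMod l)ˣ) (E : Set (ZMod l)[X]) : ℝ :=
  ({B : Matrix (Fin g ⊕ Fin g) (Fin g ⊕ Fin g) (ZMod l) | B ∈ cosetOf g l κ ∧
      ∃ h : ℤ[X], h.Monic ∧ h.natDegree = g ∧ h.map (Int.castRingHom (ZMod l)) ∈ E ∧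
        ((r : ZMod l) • B).charpoly =
          (weil (r ^ 2) h).map (Int.castRingHom (ZMod l))}.ncard : ℝ) /
    ((cosetOf g l κ).ncard : ℝ)

end Pool.Agent.W458.MF
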