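import Pool.Agent.W458.MF.Defs
import Pool.Agent.W458.MF.ODefs

/-!
# Families of varieties with orthogonal monodromy: definitions
-/

open CategoryTheory AlgebraicGeometry Polynomial

universe u v

namespace Pool.Agent.W458.MF

open Pool.Agent.H914 Pool.Agent.W534 Pool.Agent.W521.Frob VarClass Obj WeilCohomology

/-- The family of varieties of even dimension `2 n` over `Y` has full orthogonal monodromy of rank
`2 g ≥ 6` and determinant one modulo all large primes modulo which the polynomial `D` splits (for
which the quadratic form is split): the members of the family are as in `Piece.IsOver`, and for all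
such primes `l ≠ l'` the matrices of the Frobenius endomorphisms of the members over the field with
`p ^ m` elements, divided by `p ^ (n m)`, modulo `l` and modulo `l'`, are asymptotically, as `m`
tends to infinity, independent and equidistributed in cosets (which depend only on `m` and on the
prime) of the commutator subgroups of the orthogonal groups, as far as their characteristic
polynomials are concerned. -/
structure Family.HasOrthogonalMonodromy {k : Type u} [Field k] {𝒱 : VarClass k}
    {ops : CycleOps 𝒱} {W : WeilCohomology.{u, v} ops} {Y : 𝒱.Obj} (F : Family W Y) {p : ℕ}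
    (Φ : FrobSystem W p) (n g l₀ : ℕ) (D : ℤ[X]) : Prop where
  isOver : ∀ m, 0 < m → ∀ s : F.S m, (F.member m s).IsOver Φ m
  dim : ∀ m (s : F.S m), (F.member m s).obj.dim = 2 * n
  degree : ∀ m (s : F.S m), (F.member m s).pol.natDegree = g
  rank : 3 ≤ g
  monic : D.Monic
  separable : (D.map (Int.castRingHom ℚ)).Separable
  equidistributed : ∃ κ : ∀ m l : ℕ, (ZMod l)ˣ, ∀ l l' : ℕ, l.Prime → l'.Prime → l₀ ≤ l →
    l₀ ≤ l' → l ≠ l' → SplitsMod D l → SplitsMod D l' →
    ∀ ε : ℝ, 0 < ε → ∃ m₀ : ℕ, ∀ m ≥ m₀, Nonempty (F.S m) →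
      ∀ (E : Set (ZMod l)[X]) (E' : Set (ZMod l')[X]), |F.frequency m l l' E E' -
          oproportion g l (p ^ (n * m)) (κ m l) E *
            oproportion g l' (p ^ (n * m)) (κ m l') E'| ≤ ε

/-- The family has full symplectic or orthogonal monodromy. -/
def Family.HasFullMonodromy {k : Type u} [Field k] {𝒱 : VarClass k}
    {ops : CycleOps 𝒱} {W : WeilCohomology.{u, v} ops} {Y : 𝒱.Obj} (F : Family W Y) {p : ℕ}
    (Φ : FrobSystem W p) : Prop :=
  (∃ n g l₀ : ℕ, F.HasSymplecticMonodromy Φ n g l₀) ∨
    ∃ (n g l₀ : ℕ) (D : ℤ[X]), F.HasOrthogonalMonodromy Φ n g l₀ D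

end Pool.Agent.W458.MF
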