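import Pool.Agent.W458.MF.Gen1
import Pool.Agent.W458.MF.ODefs2
import Pool.Agent.W458.MF.OStm
import Pool.Agent.W458.MF.Fin3

/-!
# Mixed families: the data
-/

open CategoryTheory AlgebraicGeometry Polynomial

universe u v

namespace Pool.Agent.W458.MF

open Pool.Agent.H914 Pool.Agent.W534 Pool.Agent.W521.Frob VarClass Obj WeilCohomology

section Splits

lemma splitsMod_of_dvd {A P : ℤ[X]} (hP : P.Monic) (h : P ∣ A) {l : ℕ} (hl : l.Prime)
    (hA : SplitsMod A l) : SplitsMod P l := by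
  classical
  have : Fact l.Prime := ⟨hl⟩
  obtain ⟨T, hT⟩ := hA
  have h1 : P.map (Int.castRingHom (ZMod l)) ∣ ∏ t ∈ T, (X - C t) := by
    rw [← hT]
    exact Polynomial.map_dvd _ h
  have hne : (∏ t ∈ T, (X - C t) : (ZMod l)[X]) ≠ 0 :=
    Finset.prod_ne_zero_iff.2 fun t _ => X_sub_C_ne_zero t
  have hroots : (∏ t ∈ T, (X - C t) : (ZMod l)[X]).roots = T.val := roots_prod_X_sub_C T
  have hs : (∏ t ∈ T, (X - C t) : (ZMod l)[X]).Splits :=
    Polynomial.Splits.prod fun t _ => Polynomial.Splits.X_sub_C t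
  have hs' : (P.map (Int.castRingHom (ZMod l))).Splits := hs.of_dvd hne h1
  have hle : (P.map (Int.castRingHom (ZMod l))).roots ≤ T.val := by
    rw [← hroots]
    exact Polynomial.roots.le_of_dvd hne h1
  have hnd : (P.map (Int.castRingHom (ZMod l))).roots.Nodup := Multiset.nodup_of_le hle T.nodup
  exact ⟨⟨(P.map (Int.castRingHom (ZMod l))).roots, hnd⟩, hs'.eq_prod_roots_of_monic (hP.map _)⟩

lemma splitsMod_one (l : ℕ) : SplitsMod 1 l := ⟨∅, by simp⟩

/-- A common multiple of separable polynomials. -/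
lemma exists_common {I : Type} [Finite I] (P : I → ℤ[X]) (hP : ∀ i, (P i).Monic)
    (hs : ∀ i, ((P i).map (Int.castRingHom ℚ)).Separable) : ∃ A : ℤ[X], A.Monic ∧
      (A.map (Int.castRingHom ℚ)).Separable ∧ ∀ i, P i ∣ A := by
  classical
  obtain ⟨A, hA, hAs, hAr⟩ := exists_R (K := ℂ) (S := ⋃ i, {z : ℂ | aeval z (P i) = 0})
    (by
      refine Set.finite_iUnion fun i => ?_
      have h1 : {z : ℂ | aeval z (P i) = 0} =
          {z : ℂ | ((P i).map (algebraMap ℤ ℂ)).IsRoot z} := by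
        ext z
        simp [IsRoot.def, Polynomial.aeval_def, Polynomial.eval_map]
      rw [h1]
      exact Polynomial.finite_setOf_isRoot ((hP i).map _).ne_zero)
    (by
      intro z hz
      obtain ⟨i, hi⟩ := Set.mem_iUnion.1 hz
      exact ⟨P i, hP i, hi⟩)
  refine ⟨A, hA, hAs, fun i => ?_⟩
  rw [← Polynomial.map_dvd_map (Int.castRingHom ℂ) Int.cast_injective (hP i)]
  refine Polynomial.Splits.dvd_of_roots_le_roots (IsAlgClosed.splits _) ((hP i).map _).ne_zero ?_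
  have hnd : ((P i).map (Int.castRingHom ℂ)).roots.Nodup :=
    Polynomial.nodup_roots (map_separable (hs i))
  rw [Multiset.le_iff_subset hnd]
  intro z hz
  rw [Polynomial.mem_roots ((hA.map _).ne_zero)]
  have h1 : aeval z (P i) = 0 := by
    have := (Polynomial.mem_roots ((hP i).map _).ne_zero).1 hz
    rw [IsRoot.def, Polynomial.eval_map] at this
    exact this
  have h2 := hAr z (Set.mem_iUnion.2 ⟨i, h1⟩)
  rw [IsRoot.def, Polynomial.eval_map]
  exact h2

end Splits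

section Data

variable {k : Type u} [Field k] {𝒱 : VarClass k} {ops : CycleOps 𝒱}
  {W : WeilCohomology.{u, v} ops} {Y : 𝒱.Obj} {p : ℕ} {Φ : FrobSystem W p}

/-- The data of a family with full monodromy. -/
structure MData (F : Family W Y) (Φ : FrobSystem W p) (o : Prop) (d g l₀ : ℕ) (D : ℤ[X])
    (π : ∀ m l : ℕ, Set (ZMod l)[X] → ℝ) : Prop where
  isOver : ∀ m, 0 < m → ∀ s : F.S m, (F.member m s).IsOver Φ m
  dim : ∀ m (s : F.S m), (F.member m s).obj.dim = d
  degree : ∀ m (s : F.S m), (F.member m s).pol.natDegree = g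
  rank : o → 3 ≤ g
  monic : D.Monic
  separable : (D.map (Int.castRingHom ℚ)).Separable
  equi : F.Equi {l | l.Prime ∧ l₀ ≤ l ∧ SplitsMod D l} π
  nonneg : ∀ l : ℕ, l.Prime → ∀ (m : ℕ) (E : Set (ZMod l)[X]), 0 ≤ π m l E
  le_one : ∀ l : ℕ, l.Prime → ∀ (m : ℕ) (E : Set (ZMod l)[X]), π m l E ≤ 1
  mono : ∀ l : ℕ, l.Prime → ∀ (m : ℕ) (E E' : Set (ZMod l)[X]), E ⊆ E' → π m l E ≤ π m l E'
  dens : 0 < g → ∀ N : ℕ, 0 < N → ∃ c : ℝ, 0 < c ∧ ∃ l₁ : ℕ, ∀ l : ℕ, l.Prime → l₁ ≤ l →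
    ¬ l ∣ p → ∀ m : ℕ, c ≤ π m l (irrSet g l) ∧ c ≤ π m l (splitSet g l (p ^ (d * m))) ∧
      (¬ o → c ≤ π m l (flipSet g N l (p ^ (d * m)))) ∧
      (o → c ≤ π m l (flip2Set g N l (p ^ (d * m))) ∧ c ≤ π m l (fixSet g l))

lemma mdata_symp (hD : St_DENS) {F : Family W Y} {n g l₀ : ℕ}
    (h : F.HasSymplecticMonodromy Φ n g l₀) :
    MData F Φ False n g l₀ 1 (fun m l E => proportion g l (p ^ (n * m)) E) where
  isOver := h.isOver
  dim := h.dim
  degree := h.degree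
  rank := False.elim
  monic := monic_one
  separable := by
    rw [Polynomial.map_one]
    exact separable_one
  equi := fun l hl l' hl' hll => h.equidistributed l l' hl.1 hl'.1 hl.2.1 hl'.2.1 hll
  nonneg := fun _ _ _ _ => proportion_nonneg _
  le_one := fun _ hl _ _ => proportion_le_one hl _
  mono := fun _ hl _ _ _ h => proportion_mono hl h
  dens := by
    intro hg N hN
    obtain ⟨c, hc, l₁, h1⟩ := hD g N hg hN
    refine ⟨c, hc, l₁, fun l hl hll hlp m => ?_⟩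
    have h2 := h1 l hl hll (p ^ (n * m)) fun h => hlp (hl.dvd_of_dvd_pow h)
    exact ⟨h2.2.2, h2.2.1, fun _ => h2.1, fun h => h.elim⟩

lemma oproportion_nonneg {g l r : ℕ} {κ : (ZMod l)ˣ} (E : Set (ZMod l)[X]) :
    0 ≤ oproportion g l r κ E := by
  unfold oproportion
  positivity

lemma oproportion_mono {g l r : ℕ} {κ : (ZMod l)ˣ} (hl : l.Prime) {E E' : Set (ZMod l)[X]}
    (h : E ⊆ E') : oproportion g l r κ E ≤ oproportion g l r κ E' := by
  have : NeZero l := ⟨hl.ne_zero⟩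
  unfold oproportion
  refine div_le_div_of_nonneg_right ?_ (by positivity)
  refine Nat.cast_le.2 (Set.ncard_le_ncard ?_ (Set.toFinite _))
  rintro A ⟨hA, f, hf, hf2, hf3, hf4⟩
  exact ⟨hA, f, hf, hf2, h hf3, hf4⟩

lemma oproportion_le_one {g l r : ℕ} {κ : (ZMod l)ˣ} (hl : l.Prime) (E : Set (ZMod l)[X]) :
    oproportion g l r κ E ≤ 1 := by
  have : NeZero l := ⟨hl.ne_zero⟩
  unfold oproportion
  refine div_le_one_of_le₀ ?_ (by positivity)
  refine Nat.cast_le.2 (Set.ncard_le_ncard ?_ (Set.toFinite _))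
  rintro A ⟨hA, -⟩
  exact hA

lemma mdata_orth (hD : St_ODENS) {F : Family W Y} {n g l₀ : ℕ} {D : ℤ[X]}
    (h : F.HasOrthogonalMonodromy Φ n g l₀ D) :
    ∃ π, MData F Φ True (2 * n) g l₀ D π := by
  obtain ⟨κ, hκ⟩ := h.equidistributed
  refine ⟨fun m l E => oproportion g l (p ^ (n * m)) (κ m l) E, ?_⟩
  exact {
    isOver := h.isOver
    dim := h.dim
    degree := h.degree
    rank := fun _ => h.rank
    monic := h.monic
    separable := h.separable
    equi := fun l hl l' hl' hll => hκ l l' hl.1 hl'.1 hl.2.1 hl'.2.1 hll hl.2.2 hl'.2.2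
    nonneg := fun _ _ _ _ => oproportion_nonneg _
    le_one := fun _ hl _ _ => oproportion_le_one hl _
    mono := fun _ hl _ _ _ h => oproportion_mono hl h
    dens := by
      intro _ N hN
      obtain ⟨c, hc, l₁, h1⟩ := hD g N h.rank hN
      refine ⟨c, hc, l₁, fun l hl hll hlp m => ?_⟩
      have h2 := h1 l hl hll (p ^ (n * m)) (fun h => hlp (hl.dvd_of_dvd_pow h)) (κ m l)
      have e : (p ^ (n * m)) ^ 2 = p ^ (2 * n * m) := by
        rw [← pow_mul]
        congr 1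
        ring
      rw [e] at h2
      exact ⟨h2.2.2.1, h2.2.1, fun h => (h trivial).elim, fun _ => ⟨h2.1, h2.2.2.2⟩⟩ }

lemma exists_mdata (hD : St_DENS) (hO : St_ODENS) {F : Family W Y} (h : F.HasFullMonodromy Φ) :
    ∃ (o : Prop) (d g l₀ : ℕ) (D : ℤ[X]) (π : ∀ m l : ℕ, Set (ZMod l)[X] → ℝ),
      MData F Φ o d g l₀ D π := by
  rcases h with ⟨n, g, l₀, h⟩ | ⟨n, g, l₀, D, h⟩
  · exact ⟨False, n, g, l₀, 1, _, mdata_symp hD h⟩
  · obtain ⟨π, hπ⟩ := mdata_orth hO h
    exact ⟨True, 2 * n, g, l₀, D, π, hπ⟩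

end Data

end Pool.Agent.W458.MF
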