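import Pool.Agent.W458.MF.Gen2

/-!
# Mixed families: almost all tuples satisfy the hypotheses of the geometric theorem
-/

open CategoryTheory AlgebraicGeometry Polynomial

universe u v

namespace Pool.Agent.W458.MF

open Pool.Agent.H914 Pool.Agent.W534 Pool.Agent.W521.Frob VarClass Obj WeilCohomology

variable {k : Type u} [Field k] {𝒱 : VarClass k} {ops : CycleOps 𝒱}
  {W : WeilCohomology.{u, v} ops} {Y : 𝒱.Obj} {p : ℕ} {Φ : FrobSystem W p}

open Classical in
/-- The patterns. -/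
noncomputable def evts {I : Type} (o : I → Prop) (d g : I → ℕ) (N p : ℕ) (κ : I × Fin 3) (i : I)
    (m l : ℕ) : Set (ZMod l)[X] :=
  match κ.2 with
  | 0 => if i = κ.1 then irrSet (g i) l else Set.univ
  | 1 => if i = κ.1 then
      (if o i then flip2Set (g i) N l (p ^ (d i * m)) else flipSet (g i) N l (p ^ (d i * m)))
      else splitSet (g i) l (p ^ (d i * m))
  | 2 => if i = κ.1 ∧ o i then fixSet (g i) l else Set.univ

/-- **Almost all tuples of members of families with full monodromy satisfy the hypotheses of the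
geometric theorem.** -/
theorem mixed_setup (hS : St_SIEVE) (hD : St_DENS) (hO : St_ODENS) (hSPL : St_SPL)
    (hUNI : St_UNI) (hNT : St_NT2) (σ : W.K →+* ℂ) (hp : p.Prime)
    (hint : ∀ μ : W.K, Module.End.HasEigenvalue (W.map (Φ.Fr Y)).toLinearMap μ → IsIntegral ℤ μ)
    {I : Type} [Fintype I] (F : I → Family W Y) (hF : ∀ i, (F i).HasFullMonodromy Φ) (ε : ℝ)
    (hε : 0 < ε) :
    ∃ (R : ℤ[X]) (m₀ : ℕ), ∀ m ≥ m₀, ({s : ∀ i, (F i).S m |
        ¬ Setup Φ σ (fun i => (F i).member m (s i)) m R}.ncard : ℝ) ≤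
      ε * ∏ i, (Nat.card ((F i).S m) : ℝ) := by
  classical
  choose o d g l₀ D π hM using fun i => exists_mdata hD hO (hF i)
  obtain ⟨R, hRm, hRs, hR⟩ := exists_R
    (Module.End.finite_hasEigenvalue (W.map (Φ.Fr Y)).toLinearMap) hint
  obtain ⟨N, hN, hNz⟩ := hUNI (2 * ∑ i, g i)
  refine ⟨R, ?_⟩
  have hempty : ∀ m, (∃ i, IsEmpty ((F i).S m)) → ∀ B : Set (∀ i, (F i).S m),
      (B.ncard : ℝ) ≤ ε * ∏ i, (Nat.card ((F i).S m) : ℝ) := by
    rintro m ⟨i, hi⟩ B
    have : IsEmpty (∀ i, (F i).S m) := ⟨fun s => hi.false (s i)⟩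
    rw [Set.eq_empty_of_isEmpty B, Set.ncard_empty, Nat.cast_zero]
    positivity
  by_cases hg : ∀ i, 0 < g i
  swap
  · push Not at hg
    obtain ⟨i, hi⟩ := hg
    refine ⟨1, fun m hm => hempty m ⟨i, ⟨fun s => ?_⟩⟩ _⟩
    have h1 := ((hM i).isOver m hm s).degree_pos
    rw [(hM i).degree m s] at h1
    omega
  choose c hc l₁ hl₁ using fun i => (hM i).dens (hg i) N hN
  obtain ⟨c₀, hc₀, hc₀c⟩ : ∃ c₀ : ℝ, 0 < c₀ ∧ ∀ i, c₀ ≤ c i := by
    rcases isEmpty_or_nonempty I with hI | hI
    · exact ⟨1, one_pos, fun i => hI.elim i⟩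
    · obtain ⟨i, hi⟩ := Finite.exists_min c
      exact ⟨c i, hc i, hi⟩
  set L : ℕ := p + 3 + ∑ i, (l₀ i + l₁ i) with hL
  have hLi : ∀ i, l₀ i + l₁ i ≤ L := fun i => by
    have := Finset.single_le_sum (f := fun i => l₀ i + l₁ i) (fun j _ => Nat.zero_le _)
      (Finset.mem_univ i)
    omega
  -- the primes
  obtain ⟨A, hA, hAs, hAd⟩ := exists_common (I := Option I)
    (fun x => match x with | none => R | some i => D i)
    (fun x => match x with | none => hRm | some i => (hM i).monic)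
    (fun x => match x with | none => hRs | some i => (hM i).separable)
  have hAR : R ∣ A := hAd none
  have hAD : ∀ i, D i ∣ A := fun i => hAd (some i)
  set G : Set ℕ := {l : ℕ | l.Prime ∧ SplitsMod A l} \ {l | l ≤ L} with hG
  have hinf : G.Infinite := (hSPL A hA hAs).sdiff (Set.finite_le_nat L)
  have hGp : ∀ l ∈ G, l.Prime ∧ SplitsMod A l ∧ L < l := fun l hl =>
    ⟨hl.1.1, hl.1.2, not_le.1 hl.2⟩
  have hGD : ∀ i, ∀ l ∈ G, l ∈ {l | l.Prime ∧ l₀ i ≤ l ∧ SplitsMod (D i) l} := by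
    intro i l hl
    obtain ⟨h1, h2, h3⟩ := hGp l hl
    have h4 := hLi i
    exact ⟨h1, by omega, splitsMod_of_dvd (hM i).monic (hAD i) h1 h2⟩
  have hGlp : ∀ l ∈ G, ¬ l ∣ p := by
    intro l hl h
    have h1 := (hGp l hl).2.2
    have h3 := Nat.le_of_dvd hp.pos h
    omega
  have hdens : ∀ i, ∀ l ∈ G, ∀ m : ℕ, c₀ ≤ π i m l (irrSet (g i) l) ∧
      c₀ ≤ π i m l (splitSet (g i) l (p ^ (d i * m))) ∧
      (¬ o i → c₀ ≤ π i m l (flipSet (g i) N l (p ^ (d i * m)))) ∧
      (o i → c₀ ≤ π i m l (flip2Set (g i) N l (p ^ (d i * m))) ∧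
        c₀ ≤ π i m l (fixSet (g i) l)) := by
    intro i l hl m
    have h4 := hLi i
    have h3 := (hGp l hl).2.2
    obtain ⟨h5, h6, h7, h8⟩ := hl₁ i l (hGp l hl).1 (by omega) (hGlp l hl) m
    have h9 := hc₀c i
    exact ⟨h9.trans h5, h9.trans h6, fun h => h9.trans (h7 h),
      fun h => ⟨h9.trans (h8 h).1, h9.trans (h8 h).2⟩⟩
  have hE : ∀ (κ : I × Fin 3) i, ∀ l ∈ G, ∀ m, c₀ ≤ π i m l (evts o d g N p κ i m l) := by
    rintro ⟨i₀, e⟩ i l hl m
    obtain ⟨h1, h2, h3, h4⟩ := hdens i l hl m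
    have huniv : c₀ ≤ π i m l Set.univ :=
      h1.trans ((hM i).mono l (hGp l hl).1 m _ _ (Set.subset_univ _))
    unfold evts
    fin_cases e
    · dsimp only
      split_ifs
      · exact h1
      · exact huniv
    · dsimp only
      split_ifs with hi ho
      · exact (h4 ho).1
      · exact h3 ho
      · exact h2
    · dsimp only
      split_ifs with hi
      · exact (h4 hi.2).2
      · exact huniv
  obtain ⟨m₀, h⟩ := almost_all_gen hS (K := I × Fin 3) F G hinf π
    (fun i l hl l' hl' hll => (hM i).equi l (hGD i l hl) l' (hGD i l' hl') hll)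
    (fun i l hl m E => (hM i).nonneg l (hGp l hl).1 m E)
    (fun i l hl m E => (hM i).le_one l (hGp l hl).1 m E)
    (evts o d g N p) hc₀ hE ε hε
  refine ⟨m₀ + 1, fun m hm => le_trans ?_ (h m (by omega))⟩
  have hm0 : 0 < m := by omega
  refine Nat.cast_le.2 (Set.ncard_le_ncard ?_ (Set.toFinite _))
  intro s hs hpat
  apply hs
  have hO : ∀ i, ((F i).member m (s i)).IsOver Φ m := fun i => (hM i).isOver m hm0 (s i)
  have hdeg : ∀ i, ((F i).member m (s i)).pol.natDegree = g i := fun i => (hM i).degree m (s i)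
  have hdim : ∀ i, ((F i).member m (s i)).obj.dim = d i := fun i => (hM i).dim m (s i)
  have hnt := hNT o (fun i => p ^ (d i * m))
    (fun i => ((F i).member m (s i)).pol) R N hN (fun i => pow_pos hp.pos _)
    (fun i => (hO i).monic) (fun i => (hO i).degree_pos) hRm (by
      rintro i z ht ⟨P, hP0, hPd, hPz⟩
      refine hNz z ht ⟨P, hP0, hPd.trans ?_, hPz⟩
      rw [hdeg i]
      exact Nat.mul_le_mul_left 2 (Finset.single_le_sum (fun j _ => Nat.zero_le _)
        (Finset.mem_univ i)))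
    (by
      intro i
      obtain ⟨l, hl, h1⟩ := hpat (i, 0)
      have h2 := h1 i
      unfold evts at h2
      dsimp only at h2
      rw [if_pos rfl] at h2
      exact ⟨l, (hGp l hl).1, by rw [hdeg i]; exact h2⟩)
    (by
      intro i₀ ho
      obtain ⟨l, hl, h1⟩ := hpat (i₀, 1)
      have h3 := hGp l hl
      refine ⟨l, h3.1, by omega, fun i h => hGlp l hl (h3.1.dvd_of_dvd_pow h),
        splitsMod_of_dvd hRm hAR h3.1 h3.2.1, ?_, fun i hi => ?_⟩
      · have h2 := h1 i₀
        unfold evts at h2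
        dsimp only at h2
        rw [if_pos rfl, if_neg ho] at h2
        rw [hdeg i₀]
        exact h2
      · have h2 := h1 i
        unfold evts at h2
        dsimp only at h2
        rw [if_neg hi] at h2
        rw [hdeg i]
        exact h2)
    (by
      intro i₀ ho
      refine ⟨by rw [hdeg i₀]; exact (hM i₀).rank ho, ?_, ?_⟩
      · obtain ⟨l, hl, h1⟩ := hpat (i₀, 2)
        have h2 := h1 i₀
        unfold evts at h2
        dsimp only at h2
        rw [if_pos ⟨rfl, ho⟩] at h2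
        exact ⟨l, (hGp l hl).1, by rw [hdeg i₀]; exact h2⟩
      · obtain ⟨l, hl, h1⟩ := hpat (i₀, 1)
        have h3 := hGp l hl
        refine ⟨l, h3.1, by omega, fun i h => hGlp l hl (h3.1.dvd_of_dvd_pow h),
          splitsMod_of_dvd hRm hAR h3.1 h3.2.1, ?_, fun i hi => ?_⟩
        · have h2 := h1 i₀
          unfold evts at h2
          dsimp only at h2
          rw [if_pos rfl, if_pos ho] at h2
          rw [hdeg i₀]
          exact h2
        · have h2 := h1 i
          unfold evts at h2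
          dsimp only at h2
          rw [if_neg hi] at h2
          rw [hdeg i]
          exact h2)
  have hQ : ∀ i, ((F i).member m (s i)).Q p m = p ^ (d i * m) := by
    intro i
    rw [Piece.Q, hdim i]
  refine ⟨hp.one_lt, hm0, hO, fun μ hμ => hR μ hμ, ?_, ?_⟩
  · have e : (fun i => ((F i).member m (s i)).Q p m) = fun i => p ^ (d i * m) := funext hQ
    rw [e]
    exact hnt.1
  · intro i
    rw [hQ i]
    exact hnt.2 i

end Pool.Agent.W458.MF
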