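import Pool.Agent.W458.MF.Gen3
import Pool.Agent.W458.MF.ExDefs

/-!
# Mixed families: the Tate conjecture for almost all tuples
-/

open CategoryTheory AlgebraicGeometry Polynomial

universe u v

namespace Pool.Agent.W458.MF

open Pool.Agent.H914 Pool.Agent.W534 Pool.Agent.W521.Frob VarClass Obj WeilCohomology

variable {k : Type u} [Field k] {𝒱 : VarClass k} {ops : CycleOps 𝒱}

/-- **The Tate conjecture and semisimplicity for the products of almost all members of families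
with full monodromy.** -/
theorem mixed_tate (hO : St_ODENS) (hNT : St_NT2) (W : WeilCohomology.{u, v} ops)
    [IsAlgClosed W.K] (σ : W.K →+* ℂ) (p : ℕ)
    (hp : p.Prime) (Φ : FrobSystem W p) (Y : 𝒱.Obj)
    (hint : ∀ μ : W.K, Module.End.HasEigenvalue (W.map (Φ.Fr Y)).toLinearMap μ → IsIntegral ℤ μ)
    (hY : ∀ Z, IsProductOf {Y} Z → ∀ j ≤ Z.dim, SemisimpleTateIn Φ Z j)
    {I : Type} [Fintype I] (F : I → Family W Y) (hF : ∀ i, (F i).HasFullMonodromy Φ) (ε : ℝ)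
    (hε : 0 < ε) :
    ∃ m₀ : ℕ, ∀ m ≥ m₀, ((exceptions F m fun Z => ∀ j, SemisimpleTateIn Φ Z j).ncard : ℝ) ≤
      ε * ∏ i, (Nat.card ((F i).S m) : ℝ) := by
  classical
  obtain ⟨R, m₀, h⟩ := mixed_setup W216.MF.sieve
    (W806.MF.dens W337.MF.orb W366.MF.winj W205.MF.cnt) hO W976.MF.SPL W216.MF.uni hNT σ hp hint
    F hF ε hε
  refine ⟨m₀, fun m hm => le_trans ?_ (h m hm)⟩
  refine Nat.cast_le.2 (Set.ncard_le_ncard ?_ (Set.toFinite _))
  intro s hs H
  exact hs fun Z hZ => tate_products W397.MF.pair W40.MF.span H hY Z hZ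

/-- **The pole formula for the products of almost all members of families with full
monodromy.** -/
theorem mixed_pole (hO : St_ODENS) (hNT : St_NT2) (W : WeilCohomology.{u, v} ops)
    [IsAlgClosed W.K] (σ : W.K →+* ℂ) (p : ℕ)
    (hp : p.Prime) (Φ : FrobSystem W p) (hRH : ∀ Z, RiemannHyp Φ σ Z) (Y : 𝒱.Obj)
    (hint : ∀ μ : W.K, Module.End.HasEigenvalue (W.map (Φ.Fr Y)).toLinearMap μ → IsIntegral ℤ μ)
    (hY : ∀ Z, IsProductOf {Y} Z → ∀ j ≤ Z.dim, PoleFormula Φ σ Z j)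
    {I : Type} [Fintype I] (F : I → Family W Y) (hF : ∀ i, (F i).HasFullMonodromy Φ) (ε : ℝ)
    (hε : 0 < ε) :
    ∃ m₀ : ℕ, ∀ m ≥ m₀,
      ((exceptions F m fun Z => ∀ j ≤ Z.dim, PoleFormula Φ σ Z j).ncard : ℝ) ≤
        ε * ∏ i, (Nat.card ((F i).S m) : ℝ) := by
  classical
  obtain ⟨R, m₀, h⟩ := mixed_setup W216.MF.sieve
    (W806.MF.dens W337.MF.orb W366.MF.winj W205.MF.cnt) hO W976.MF.SPL W216.MF.uni hNT σ hp hint
    F hF ε hε
  refine ⟨m₀, fun m hm => le_trans ?_ (h m hm)⟩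
  refine Nat.cast_le.2 (Set.ncard_le_ncard ?_ (Set.toFinite _))
  intro s hs H
  exact hs fun Z hZ => pole_products W397.MF.pair W40.MF.span W216.MF.pole H hRH hY Z hZ

end Pool.Agent.W458.MF
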