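import Pool.Agent.W458.MF.Gen4
import Pool.Agent.W397.MF.ODENS
import Pool.Agent.W928.MF.NT2
import Pool.Agent.W928.MF.Real2
import Pool.Agent.W902.MF.FLIP2
import Pool.Agent.W12.MF.FIX
import Pool.Agent.W32.MF.OCNTF
import Pool.Agent.W959.MF.OCNTI
import Pool.Agent.W460.MF.OCNTE
import Pool.Agent.W930.MFO.OCNTS
import Pool.Agent.W475.MF.REAL1
import Pool.Agent.W475.MF.OORB
import Pool.Agent.W85.MF.Omeg
import Pool.Agent.W101.MF.WM
import Pool.Agent.W976.MF.FLIP

/-!
# Mixed families: the inputs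
-/

namespace Pool.Agent.W458.MF

/-- The densities of the orthogonal patterns. -/
theorem st_odens : St_ODENS :=
  W397.MF.odens W101.MF.wm W475.MF.oorb (W475.MF.real1 W85.MF.omeg) (W928.MF.real2 W85.MF.omeg)
    (W930.MFO.ocnts W101.MF.wm) W460.MF.ocnte (W959.MF.ocnti W101.MF.wm)
    (W32.MF.ocntf W101.MF.wm (W959.MF.ocnti W101.MF.wm))

/-- The patterns imply that the relations are balanced. -/
theorem st_nt2 : St_NT2 :=
  W928.MF.nt2 W976.MF.FLIP W902.MF.FLIP2 W12.MF.fix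

end Pool.Agent.W458.MF
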