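import Pool.Agent.W458.MF.Geo9
import Pool.Agent.W458.MF.FDefs

/-!
# Members of families with further eigenvalues: the eigenvectors
-/

open CategoryTheory AlgebraicGeometry Polynomial

universe u v

namespace Pool.Agent.W458.MF

open Pool.Agent.H914 Pool.Agent.W534 Pool.Agent.W521.Frob VarClass Obj WeilCohomology

section Poly

lemma weilPoly_eq (q : ℕ) (h : ℤ[X]) : Fam.weilPoly q h = weil q h := rfl

lemma extra_zero (r : ℤ) : Fam.extraPoly 0 r = 1 := by
  rw [Fam.extraPoly, Fin.prod_univ_zero]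

lemma extra_one (r : ℤ) : Fam.extraPoly 1 r = X - C r := by
  rw [Fam.extraPoly, Fin.prod_univ_one]
  rfl

lemma extra_two (r : ℤ) : Fam.extraPoly 2 r = (X - C r) * (X - C (-r)) := by
  rw [Fam.extraPoly, Fin.prod_univ_two]
  rfl

lemma extra_monic (e : ℕ) (r : ℤ) : (Fam.extraPoly e r).Monic := by
  unfold Fam.extraPoly
  exact monic_prod_of_monic _ _ fun i _ => monic_X_sub_C _

/-- A root of the extra factor is `r` or `-r`. -/
lemma extra_root {K : Type*} [Field K] (e : ℕ) (r : ℤ) {μ : K}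
    (h : ((Fam.extraPoly e r).map (Int.castRingHom K)).IsRoot μ) : μ = (r : K) ∨ μ = -(r : K) := by
  rw [IsRoot.def, Fam.extraPoly, Polynomial.map_prod, eval_prod, Finset.prod_eq_zero_iff] at h
  obtain ⟨i, -, hi⟩ := h
  rw [Polynomial.map_sub, map_X, map_C, eval_sub, eval_X, eval_C, sub_eq_zero] at hi
  rw [hi]
  by_cases h0 : i.val = 0
  · left
    rw [if_pos h0]
    rfl
  · right
    rw [if_neg h0]
    simp

lemma extra_separable {K : Type*} [Field K] [CharZero K] {e : ℕ} {r : ℤ} (hr : r ≠ 0)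
    (he : e = 0 ∨ e = 1 ∨ e = 2) : ((Fam.extraPoly e r).map (Int.castRingHom K)).Separable := by
  rcases he with rfl | rfl | rfl
  · rw [extra_zero, Polynomial.map_one]
    exact separable_one
  · rw [extra_one, Polynomial.map_sub, map_X, map_C]
    exact separable_X_sub_C
  · rw [extra_two, Polynomial.map_mul, Polynomial.map_sub, Polynomial.map_sub, map_X, map_C,
      map_C]
    refine Separable.mul separable_X_sub_C separable_X_sub_C ?_
    refine isCoprime_X_sub_C_of_isUnit_sub ?_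
    rw [isUnit_iff_ne_zero]
    have h1 : (Int.castRingHom K) r - (Int.castRingHom K) (-r) = 2 * (r : K) := by
      rw [map_neg]
      change (r : K) - -(r : K) = _
      ring
    rw [h1]
    exact mul_ne_zero two_ne_zero (Int.cast_ne_zero.2 hr)

lemma coprime_of_no_root {K : Type*} [Field K] [IsAlgClosed K] {f g : K[X]} (hf : f ≠ 0)
    (h : ∀ μ, f.IsRoot μ → ¬ g.IsRoot μ) : IsCoprime f g := by
  classical
  by_contra hc
  rw [← EuclideanDomain.gcd_isUnit_iff] at hc
  have h0 : EuclideanDomain.gcd f g ≠ 0 := fun h0 => hf ((EuclideanDomain.gcd_eq_zero_iff.1 h0).1)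
  have hdeg : (EuclideanDomain.gcd f g).degree ≠ 0 := fun hd =>
    hc (Polynomial.isUnit_iff_degree_eq_zero.2 hd)
  obtain ⟨μ, hμ⟩ := IsAlgClosed.exists_root _ hdeg
  exact h μ (hμ.dvd (EuclideanDomain.gcd_dvd_left f g)) (hμ.dvd (EuclideanDomain.gcd_dvd_right f g))

end Poly

section Member

variable {k : Type u} [Field k] {𝒱 : VarClass k} {ops : CycleOps 𝒱}
  {W : WeilCohomology.{u, v} ops} {Y : 𝒱.Obj} {p : ℕ} {Φ : FrobSystem W p}
  {P : Piece W Y} {m n e : ℕ} {δ : ℤˣ}

lemma member_stable (hP : Fam.IsMember P Φ m n e δ) : ∀ x ∈ P.sub, W.map P.fr x ∈ P.sub := by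
  classical
  by_contra hcon
  have h1 := hP.charpoly
  have h2 : P.charpoly = 1 := by
    unfold Piece.charpoly charpolyOn
    exact dif_neg hcon
  have hw : (weil (p ^ (P.obj.dim * m)) P.pol).Monic := weil_monic _ hP.monic
  have he := extra_monic e (δ * (p : ℤ) ^ (n * m))
  rw [h2, weilPoly_eq] at h1
  have h3 := congrArg Polynomial.natDegree h1
  rw [natDegree_one, (hw.mul he).natDegree_map, hw.natDegree_mul he,
    weil_natDegree _ hP.monic] at h3
  have := hP.degree_pos
  omega

lemma member_charpoly (hP : Fam.IsMember P Φ m n e δ) :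
    (((W.map P.fr).toLinearMap).restrict (member_stable hP)).charpoly =
      (weil (P.Q p m) P.pol).map (Int.castRingHom W.K) *
        (Fam.extraPoly e (δ * (p : ℤ) ^ (n * m))).map (Int.castRingHom W.K) := by
  have h2 : P.charpoly =
      (((W.map P.fr).toLinearMap).restrict (member_stable hP)).charpoly := by
    unfold Piece.charpoly charpolyOn
    exact dif_pos (member_stable hP)
  rw [← h2, hP.charpoly, weilPoly_eq, Polynomial.map_mul]
  rfl

lemma unit_sq (δ : ℤˣ) (a : ℤ) : (δ * a : ℤ) = a ∨ (δ * a : ℤ) = -a := by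
  rcases Int.units_eq_one_or δ with h | h
  · left
    rw [h]
    simp
  · right
    rw [h]
    simp

/-- The characteristic polynomial is separable. -/
lemma member_separable [IsAlgClosed W.K] (hp : 1 < p) (hP : Fam.IsMember P Φ m n e δ)
    (he : e ≠ 0 → P.obj.dim = 2 * n ∧ (e = 1 ∨ e = 2))
    (hsep : ((weil (P.Q p m) P.pol).map (Int.castRingHom ℚ)).Separable)
    (hno : ∀ lam : W.K, aeval lam (weil (P.Q p m) P.pol) = 0 → lam ^ 2 ≠ (P.Q p m : W.K)) :
    (((W.map P.fr).toLinearMap).restrict (member_stable hP)).charpoly.Separable := by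
  rw [member_charpoly hP]
  have hr : (δ * (p : ℤ) ^ (n * m) : ℤ) ≠ 0 := by
    have h1 : (p : ℤ) ^ (n * m) ≠ 0 := pow_ne_zero _ (by exact_mod_cast (by omega : p ≠ 0))
    rcases unit_sq δ ((p : ℤ) ^ (n * m)) with h | h
    · rw [h]; exact h1
    · rw [h]; exact neg_ne_zero.2 h1
  have he' : e = 0 ∨ e = 1 ∨ e = 2 := by
    by_cases h : e = 0
    · exact Or.inl h
    · exact Or.inr (he h).2
  refine Separable.mul (map_separable hsep) (extra_separable hr he') ?_
  refine coprime_of_no_root ((weil_monic _ hP.monic).map _).ne_zero ?_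
  intro μ hμ hμ'
  have he0 : e ≠ 0 := by
    rintro rfl
    rw [extra_zero, Polynomial.map_one, IsRoot.def, eval_one] at hμ'
    exact one_ne_zero hμ'
  have h1 : aeval μ (weil (P.Q p m) P.pol) = 0 := by
    rw [IsRoot.def, Polynomial.eval_map] at hμ
    exact hμ
  apply hno μ h1
  have h2 : μ ^ 2 = (((p : ℤ) ^ (n * m) : ℤ) : W.K) ^ 2 := by
    rcases extra_root e _ hμ' with h | h <;> rw [h] <;>
      rcases unit_sq δ ((p : ℤ) ^ (n * m)) with h' | h' <;> rw [h'] <;> push_cast <;> ring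
  rw [h2, Piece.Q, (he he0).1]
  push_cast
  rw [← pow_mul]
  congr 1
  ring

lemma member_span [IsAlgClosed W.K] (hp : 1 < p) (hP : Fam.IsMember P Φ m n e δ)
    (he : e ≠ 0 → P.obj.dim = 2 * n ∧ (e = 1 ∨ e = 2))
    (hsep : ((weil (P.Q p m) P.pol).map (Int.castRingHom ℚ)).Separable)
    (hno : ∀ lam : W.K, aeval lam (weil (P.Q p m) P.pol) = 0 → lam ^ 2 ≠ (P.Q p m : W.K))
    (x : W.H P.obj) (hx : x ∈ P.sub) :
    x ∈ Submodule.span W.K {v | (∃ lam, IsEig p P m lam v) ∨ IsExt p P m v} := by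
  have h2 := (simple_on (member_stable hP) (member_separable hp hP he hsep hno)).1 x hx
  refine Submodule.span_mono ?_ h2
  rintro v ⟨hv, hv0, μ, hμ, hr⟩
  rw [member_charpoly hP, IsRoot.def, eval_mul, mul_eq_zero] at hr
  rcases hr with hr | hr
  · left
    refine ⟨μ, hv, hv0, hμ, ?_⟩
    rw [Polynomial.eval_map] at hr
    exact hr
  · right
    have he0 : e ≠ 0 := by
      rintro rfl
      rw [extra_zero, Polynomial.map_one, eval_one] at hr
      exact one_ne_zero hr
    refine ⟨hv, n, (he he0).1, ?_⟩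
    have h3 : μ = (p : W.K) ^ (n * m) ∨ μ = -(p : W.K) ^ (n * m) := by
      rcases extra_root e _ hr with h | h <;> rw [h] <;>
        rcases unit_sq δ ((p : ℤ) ^ (n * m)) with h' | h' <;> rw [h'] <;> push_cast <;> simp
    rcases h3 with rfl | rfl
    · exact Or.inl hμ
    · exact Or.inr hμ

lemma member_uniq [IsAlgClosed W.K] (hp : 1 < p) (hP : Fam.IsMember P Φ m n e δ)
    (he : e ≠ 0 → P.obj.dim = 2 * n ∧ (e = 1 ∨ e = 2))
    (hsep : ((weil (P.Q p m) P.pol).map (Int.castRingHom ℚ)).Separable)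
    (hno : ∀ lam : W.K, aeval lam (weil (P.Q p m) P.pol) = 0 → lam ^ 2 ≠ (P.Q p m : W.K))
    (ρ : W.K) (x y : W.H P.obj) (hx : x ∈ P.sub) (hy : y ∈ P.sub) (hx' : W.map P.fr x = ρ • x)
    (hy' : W.map P.fr y = ρ • y) (h0 : x ≠ 0) : ∃ c : W.K, y = c • x :=
  (simple_on (member_stable hP) (member_separable hp hP he hsep hno)).2 ρ x y hx hy h0 hx' hy'

/-- There are eigenvectors for roots of the polynomial `weil`. -/
lemma member_exists [IsAlgClosed W.K] (hP : Fam.IsMember P Φ m n e δ) :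
    ∃ lam v, IsEig p P m lam v := by
  have hw : ((weil (P.Q p m) P.pol).map (Int.castRingHom W.K)).degree ≠ 0 := by
    rw [Polynomial.degree_eq_natDegree ((weil_monic _ hP.monic).map _).ne_zero,
      (weil_monic _ hP.monic).natDegree_map, weil_natDegree _ hP.monic]
    have := hP.degree_pos
    intro h
    have h2 : 2 * P.pol.natDegree = 0 := by exact_mod_cast h
    omega
  obtain ⟨μ, hμ⟩ := IsAlgClosed.exists_root _ hw
  have h1 : (((W.map P.fr).toLinearMap).restrict (member_stable hP)).charpoly.IsRoot μ := by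
    rw [member_charpoly hP, IsRoot.def, eval_mul, hμ, zero_mul]
  obtain ⟨v, hv, hv0⟩ :=
    ((Module.End.hasEigenvalue_iff_isRoot_charpoly _ μ).2 h1).exists_hasEigenvector
  refine ⟨μ, v, v.2, fun h => hv0 (Subtype.ext h), ?_, ?_⟩
  · exact congrArg Subtype.val (Module.End.mem_eigenspace_iff.1 hv)
  · rw [IsRoot.def, Polynomial.eval_map] at hμ
    exact hμ

end Member

end Pool.Agent.W458.MF
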