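import Pool.Agent.W458.MF.GStm

/-!
# The external squares of the further eigenvectors: statements
-/

open CategoryTheory AlgebraicGeometry Polynomial

universe u v w

namespace Pool.Agent.W458.MF

open Pool.Agent.H914 Pool.Agent.W534 Pool.Agent.W521.Frob VarClass Obj WeilCohomology
  Pool.Agent.H281R3.HT

/-- XSQ (from XPAIR): the external squares of the further eigenvectors are algebraic. -/
def St_XSQ : Prop := ∀ {k : Type u} [Field k] {𝒱 : VarClass k} {ops : CycleOps 𝒱}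
  (W : WeilCohomology.{u, v} ops) [IsAlgClosed W.K] {Y : 𝒱.Obj} {p : ℕ} (Φ : FrobSystem W p)
  (σ : W.K →+* ℂ) (P : Piece W Y) (m n : ℕ), 1 < p → 0 < m → P.IsFrobenius Φ m →
  P.sub ≤ W.gr P.obj P.obj.dim → P.Generated → (∀ x ∈ P.sub, W.push P.mor x = 0) →
  P.obj.dim = 2 * n →
  (∀ x, W.tr P.obj (W.map P.fr x) = (p : W.K) ^ (P.obj.dim * m) * W.tr P.obj x) →
  RiemannHyp Φ σ Y → (∀ j ≤ Y.dim, SemisimpleTateIn Φ Y j) →
  (∀ x ∈ P.sub, x ∈ Submodule.span W.K {v | (∃ lam, IsEig p P m lam v) ∨ IsExt p P m v}) →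
  (∀ (ρ : W.K) (x y : W.H P.obj), x ∈ P.sub → y ∈ P.sub → W.map P.fr x = ρ • x →
    W.map P.fr y = ρ • y → x ≠ 0 → ∃ c : W.K, y = c • x) →
  (∀ (lam : W.K) (v : W.H P.obj), IsEig p P m lam v → lam ^ 2 ≠ (p : W.K) ^ (P.obj.dim * m)) →
  ∀ x, IsExt p P m x → ext W x x ∈ algSpan W (P.obj.prod P.obj)

/-- DEG: the degree of the Frobenius endomorphism of a piece. -/
def St_DEG : Prop := ∀ {k : Type u} [Field k] {𝒱 : VarClass k} {ops : CycleOps 𝒱}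
  (W : WeilCohomology.{u, v} ops) {Y : 𝒱.Obj} {p : ℕ} (Φ : FrobSystem W p)
  (P : Piece W Y) (m : ℕ), 1 < p → 0 < m → P.IsFrobenius Φ m →
  P.Generated → (∀ x ∈ P.sub, W.push P.mor x = 0) →
  (∀ x ∈ P.sub, x ∈ Submodule.span W.K {v | (∃ lam, IsEig p P m lam v) ∨ IsExt p P m v}) →
  (∃ lam v, IsEig p P m lam v) →
  (∀ (lam lam' : W.K) (v v' : W.H P.obj), IsEig p P m lam v → IsEig p P m lam' v' →
    ∀ a, 0 < a → (lam * lam') ^ a = ((p : W.K) ^ (P.obj.dim * m)) ^ a →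
      lam * lam' = (p : W.K) ^ (P.obj.dim * m)) →
  (∀ (lam : W.K) (v : W.H P.obj), IsEig p P m lam v → ∀ a, 0 < a →
    (lam ^ 2) ^ a ≠ ((p : W.K) ^ (P.obj.dim * m)) ^ a) →
  ∀ x, W.tr P.obj (W.map P.fr x) = (p : W.K) ^ (P.obj.dim * m) * W.tr P.obj x

end Pool.Agent.W458.MF
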