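import Pool.Agent.W458.MF.Gen7
import Pool.Agent.W458.MF.Gen5
import Pool.Agent.W458.MF.ExDefs
import Pool.Agent.W458.MF.XStm
import Pool.Agent.W588.MF.XPAIR
import Pool.Agent.W839.MF.DFIN
import Pool.Agent.W216.MF.DEG
import Pool.Agent.W333.MF.EORB
import Pool.Agent.W101.MF.EREAL1
import Pool.Agent.W382.MF.EREAL2
import Pool.Agent.W310.MF.ECNT
import Pool.Agent.W29.MF.EDens

/-!
# Families with large monodromy: the final theorems
-/

open CategoryTheory AlgebraicGeometry Polynomial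

universe u v

namespace Pool.Agent.W458.MF

open Pool.Agent.H914 Pool.Agent.W534 Pool.Agent.W521.Frob VarClass Obj WeilCohomology

/-- The densities of the patterns in the extended quadratic spaces. -/
theorem st_edens : St_EDENS :=
  W29.MF.edens W101.MF.wm W333.MF.eorb W101.MF.ereal1 (W382.MF.EReal2.ereal2 W85.MF.omeg)
    W310.MF.ecnt (W475.MF.real1 W85.MF.omeg) (W930.MFO.ocnts W101.MF.wm)
    (W959.MF.ocnti W101.MF.wm)

variable {k : Type u} [Field k] {𝒱 : VarClass k} {ops : CycleOps 𝒱}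

section Tuple

variable {W : WeilCohomology.{u, v} ops} {Y : 𝒱.Obj} {p : ℕ} {Φ : FrobSystem W p}
  {I : Type} {P : I → Piece W Y} {m : ℕ} {σ : W.K →+* ℂ} {R : ℤ[X]}

lemma setup_no (H : GSetup Φ σ P m R) (i : I) {a : ℕ} (ha : 0 < a) (lam : W.K)
    (hl : aeval lam (weil ((P i).Q p m) (P i).pol) = 0) :
    (lam ^ 2) ^ a ≠ ((P i).Q p m : W.K) ^ a := by
  intro h
  refine G.sep_nat (G.GSetup.Q_pos H) H.monic H.bal H.sep i (a := 2 * a) (by omega)
    (aeval_sigma σ hl) (c := (P i).Q p m ^ a) (pow_pos (G.GSetup.Q_pos H i) a) ?_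
  rw [pow_mul, ← map_pow, ← map_pow, h, map_pow, map_natCast]
  push_cast
  rfl

/-- Without further eigenvalues there are no further eigenvectors. -/
lemma ext_zero (H : GSetup Φ σ P m R) (i : I) {n : ℕ} {δ : ℤˣ}
    (hP : Fam.IsMember (P i) Φ m n 0 δ) {x : W.H (P i).obj} (hx : IsExt p (P i) m x) : x = 0 := by
  by_contra h0
  obtain ⟨hxs, n', hn', hx⟩ := hx
  obtain ⟨ρ, hρ, hρ2⟩ : ∃ ρ : W.K, W.map (P i).fr x = ρ • x ∧ ρ ^ 2 = ((P i).Q p m : W.K) := by
    have e : ((p : W.K) ^ (n' * m)) ^ 2 = ((P i).Q p m : W.K) := by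
      rw [Piece.Q, hn', Nat.cast_pow, ← pow_mul]
      congr 1
      ring
    rcases hx with h | h
    · exact ⟨_, h, e⟩
    · exact ⟨_, h, by rw [neg_sq, e]⟩
  have h1 : Module.End.HasEigenvalue
      (((W.map (P i).fr).toLinearMap).restrict (member_stable hP)) ρ := by
    refine Module.End.hasEigenvalue_of_hasEigenvector (x := ⟨x, hxs⟩) ⟨?_, ?_⟩
    · rw [Module.End.mem_eigenspace_iff]
      exact Subtype.ext hρ
    · intro h
      exact h0 (congrArg Subtype.val h)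
  have h2 := (Module.End.hasEigenvalue_iff_isRoot_charpoly _ ρ).1 h1
  rw [member_charpoly hP, extra_zero, Polynomial.map_one, mul_one, IsRoot.def,
    Polynomial.eval_map] at h2
  exact setup_no H i one_pos ρ h2 (by rw [pow_one, pow_one, hρ2])

/-- The further eigenvectors are algebraic if the Tate conjecture holds in the middle
codimension. -/
lemma ext_alg (H : GSetup Φ σ P m R) (i : I)
    (hT : SemisimpleTateIn Φ (P i).obj ((P i).obj.dim / 2)) {x : W.H (P i).obj}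
    (hx : IsExt p (P i) m x) : x ∈ H281R3.HT.algSpan W (P i).obj := by
  obtain ⟨a, b, ha, hb, hlev⟩ := G.exists_glevel (H.frob i)
  have hL := hlev 2 two_pos
  obtain ⟨n, hn, h⟩ := hL.ext_eig ⟨a, mul_comm _ _⟩ hx
  have hn2 : (P i).obj.dim / 2 = n := by omega
  rw [hn2] at hT
  have h1 : x ∈ genTate Φ (P i).obj (b * 2) n := by
    refine ⟨eig_mem_gen h, ?_⟩
    rw [← hn]
    exact H.sub_le i hx.1
  exact W397.MF.spanCycles_le_algSpan _ (hT _ hL.1 h1)

/-- The external squares of the further eigenvectors are algebraic. -/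
lemma ext_sq [IsAlgClosed W.K] (hXSQ : St_XSQ.{u, v}) (H : GSetup Φ σ P m R) (i : I) {n e : ℕ}
    {δ : ℤˣ} (hP : Fam.IsMember (P i) Φ m n e δ)
    (he : e ≠ 0 → (P i).obj.dim = 2 * n ∧ (e = 1 ∨ e = 2)) (he0 : e ≠ 0)
    (hRH : RiemannHyp Φ σ Y) (hT : ∀ j ≤ Y.dim, SemisimpleTateIn Φ Y j) {x : W.H (P i).obj}
    (hx : IsExt p (P i) m x) : H281R3.HT.ext W x x ∈ H281R3.HT.algSpan W ((P i).obj.prod (P i).obj) := by
  have hno : ∀ lam : W.K, aeval lam (weil ((P i).Q p m) (P i).pol) = 0 →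
      lam ^ 2 ≠ ((P i).Q p m : W.K) := by
    intro lam hl h
    exact setup_no H i one_pos lam hl (by rw [pow_one, pow_one, h])
  have hQ : ((P i).Q p m : W.K) = (p : W.K) ^ ((P i).obj.dim * m) := by
    rw [Piece.Q, Nat.cast_pow]
  have hdeg := W216.MF.deg W Φ (P i) m H.hp H.hm (H.frob i) (H.gen i)
    (fun x hx => LinearMap.mem_ker.1 (hP.gysin hx)) (H.span i) (member_exists hP) (by
      intro lam lam' v v' hv hv' a ha h
      rw [← hQ] at h ⊢
      have hQ0 : ((P i).Q p m : ℂ) ≠ 0 := by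
        exact_mod_cast (G.GSetup.Q_pos H i).ne'
      have h0' : σ lam' ≠ 0 := root_ne_zero (G.GSetup.Q_pos H i).ne' (H.monic i)
        (aeval_sigma σ hv'.root)
      have h1 : (σ lam) ^ a = (((P i).Q p m : ℂ) / σ lam') ^ a := by
        have h2 := congrArg σ h
        rw [mul_pow, map_mul, map_pow, map_pow, map_pow, map_natCast] at h2
        rw [div_pow, eq_div_iff (pow_ne_zero _ h0')]
        exact h2
      have h3 := sep_roots (G.GSetup.Q_pos H) H.monic H.bal H.sep i ha (aeval_sigma σ hv.root)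
        (root_conj (G.GSetup.Q_pos H i).ne' (H.monic i) (aeval_sigma σ hv'.root)) h1
      apply σ.injective
      rw [map_mul, h3, div_mul_cancel₀ _ h0', map_natCast]) (by
      intro lam v hv a ha
      rw [← hQ]
      exact setup_no H i ha lam hv.root)
  exact hXSQ W Φ σ (P i) m n H.hp H.hm (H.frob i) (H.sub_le i) (H.gen i)
    (fun x hx => LinearMap.mem_ker.1 (hP.gysin hx)) (he he0).1 hdeg hRH hT (H.span i)
    (member_uniq H.hp hP he (H.sep i) hno) (fun lam v hv => by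
      rw [← hQ]
      exact hno lam hv.root) x hx

end Tuple

/-- **The Tate conjecture for all products of almost all members follows from the Tate conjecture
for the members with further eigenvalues.** -/
theorem final_tate (W : WeilCohomology.{u, v} ops) [IsAlgClosed W.K] (σ : W.K →+* ℂ) (p : ℕ)
    (hp : p.Prime) (Φ : FrobSystem W p) (Y : 𝒱.Obj)
    (hint : ∀ μ : W.K, Module.End.HasEigenvalue (W.map (Φ.Fr Y)).toLinearMap μ → IsIntegral ℤ μ)
    (hY : ∀ Z, IsProductOf {Y} Z → ∀ j ≤ Z.dim, SemisimpleTateIn Φ Z j)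
    {I : Type} [Fintype I] (F : I → Family W Y) (e : I → ℕ)
    (hF : ∀ i, Fam.HasLargeMonodromy (F i) Φ (e i)) (ε : ℝ) (hε : 0 < ε) :
    ∃ m₀ : ℕ, ∀ m ≥ m₀, ({s : ∀ i, (F i).S m | (∀ i, e i ≠ 0 →
        SemisimpleTateIn Φ ((F i).member m (s i)).obj (((F i).member m (s i)).obj.dim / 2)) ∧
      ¬ ∀ Z, IsProductOf ({Y} ∪ Set.range fun i => ((F i).member m (s i)).obj) Z →
        ∀ j, SemisimpleTateIn Φ Z j}.ncard : ℝ) ≤ ε * ∏ i, (Nat.card ((F i).S m) : ℝ) := by
  classical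
  choose d n g l₀ δ D π hF using hF
  obtain ⟨R, m₀, h⟩ := mixed_setup2 (σ := σ) W216.MF.sieve
    (W806.MF.dens W337.MF.orb W366.MF.winj W205.MF.cnt) st_odens st_edens W976.MF.SPL
    W216.MF.uni st_nt2 hp hint F d n g e l₀ δ D π hF ε hε
  refine ⟨m₀, fun m hm => le_trans ?_ (h m hm)⟩
  refine Nat.cast_le.2 (Set.ncard_le_ncard ?_ (Set.toFinite _))
  rintro s ⟨hs1, hs2⟩ H
  refine hs2 fun Z hZ => G.gtate_products W397.MF.pair W40.MF.span H hY ?_ Z hZ
  intro i x hx
  by_cases he : e i = 0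
  · have h1 := (hF i).isMember m H.hm (s i)
    rw [he] at h1
    rw [ext_zero H i h1 hx]
    exact Submodule.zero_mem _
  · exact ext_alg H i (hs1 i he) hx

/-- **The standard conjecture D for all products of almost all members.** -/
theorem final_d (hXSQ : St_XSQ.{u, v}) (W : WeilCohomology.{u, v} ops) [IsAlgClosed W.K]
    (σ : W.K →+* ℂ) (p : ℕ)
    (hp : p.Prime) (Φ : FrobSystem W p) (Y : 𝒱.Obj) (hRH : RiemannHyp Φ σ Y)
    (hint : ∀ μ : W.K, Module.End.HasEigenvalue (W.map (Φ.Fr Y)).toLinearMap μ → IsIntegral ℤ μ)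
    (hY : ∀ Z, IsProductOf {Y} Z → ∀ j ≤ Z.dim, SemisimpleTateIn Φ Z j)
    {I : Type} [Fintype I] (F : I → Family W Y) (e : I → ℕ)
    (hF : ∀ i, Fam.HasLargeMonodromy (F i) Φ (e i)) (ε : ℝ) (hε : 0 < ε) :
    ∃ m₀ : ℕ, ∀ m ≥ m₀, ((exceptions F m fun Z => HomEqNum W Z).ncard : ℝ) ≤
      ε * ∏ i, (Nat.card ((F i).S m) : ℝ) := by
  classical
  choose d n g l₀ δ D π hF using hF
  obtain ⟨R, m₀, h⟩ := mixed_setup2 (σ := σ) W216.MF.sieve
    (W806.MF.dens W337.MF.orb W366.MF.winj W205.MF.cnt) st_odens st_edens W976.MF.SPL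
    W216.MF.uni st_nt2 hp hint F d n g e l₀ δ D π hF ε hε
  refine ⟨m₀, fun m hm => le_trans ?_ (h m hm)⟩
  refine Nat.cast_le.2 (Set.ncard_le_ncard ?_ (Set.toFinite _))
  intro s hs H
  refine hs fun Z hZ => G.gd_products W397.MF.pair W40.MF.span W839.MF.dfin H hY ?_ Z hZ
  intro i x hx
  have h1 := (hF i).isMember m H.hm (s i)
  by_cases he : e i = 0
  · rw [he] at h1
    rw [ext_zero H i h1 hx, H281R3.HT.ext, map_zero, zero_mul]
    exact Submodule.zero_mem _
  · refine ext_sq hXSQ H i h1 ?_ he hRH (fun j hj => hY Y (IsProductOf.base rfl) j hj) hx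
    intro he
    rw [(hF i).dim m (s i)]
    rcases (hF i).law with ⟨h0, -⟩ | ⟨h0, -⟩ | ⟨h0, hd, -⟩
    · exact absurd h0 he
    · exact absurd h0 he
    · exact ⟨hd, h0⟩

end Pool.Agent.W458.MF
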