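import Pool.Agent.W458.MF.Geo6
import Pool.Agent.W458.MF.GStm

/-!
# Pieces with further eigenvectors: separation of the eigenvalues
-/

open CategoryTheory AlgebraicGeometry Polynomial

universe u v w

namespace Pool.Agent.W458.MF.G

open Pool.Agent.H914 Pool.Agent.W534 Pool.Agent.W521.Frob VarClass Obj WeilCohomology
  Pool.Agent.H281R3.HT Pool.Agent.W536.RR

section NT

variable {I : Type} {Q : I → ℕ} {h : I → ℤ[X]} {R : ℤ[X]}

/-- No power of a root is a positive natural number. -/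
lemma sep_nat (hQ : ∀ i, 0 < Q i) (hm : ∀ i, (h i).Monic) (hbal : Balanced Q h R)
    (hsep : ∀ i, ((weil (Q i) (h i)).map (Int.castRingHom ℚ)).Separable) (i : I) {a : ℕ}
    (ha : 0 < a) {x : ℂ} (hx : aeval x (weil (Q i) (h i)) = 0) {c : ℕ} (hc : 0 < c) :
    x ^ a ≠ (c : ℂ) := by
  classical
  intro hxc
  have h1 := hbal [(i, x)] (by
    intro z hz
    simp only [List.mem_cons, List.not_mem_nil, or_false] at hz
    rw [hz]
    exact hx) a ha 1 (Submonoid.one_mem _) c hc (by
      simp only [List.map_cons, List.map_nil, List.prod_cons, List.prod_nil, mul_one]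
      exact hxc) i x
  have h2 : x ≠ (Q i : ℂ) / x := ne_div_of_sep (hQ i) (hm i) (hsep i) hx
  have h5 : ([(i, x)] : List (I × ℂ)).count (i, (Q i : ℂ) / x) = 0 := by
    rw [List.count_eq_zero]
    simp only [List.mem_cons, List.not_mem_nil, or_false, Prod.mk.injEq, true_and]
    exact fun h => h2 h.symm
  have h6 : 0 < ([(i, x)] : List (I × ℂ)).count (i, x) := by
    rw [List.count_pos_iff]
    exact List.mem_cons_self
  have h7 : ([(i, x)] : List (I × ℂ)).count (i, x) =
      ([(i, x)] : List (I × ℂ)).count (i, (Q i : ℂ) / x) := by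
    convert h1
  omega

end NT

section Level

variable {k : Type u} [Field k] {𝒱 : VarClass k} {ops : CycleOps 𝒱}
  {W : WeilCohomology.{u, v} ops} {Y : 𝒱.Obj} {p : ℕ}

/-- The power `s` of the Frobenius endomorphism of the system acts as the power `t` of the Frobenius
endomorphism of the piece. -/
def GLevel (Φ : FrobSystem W p) (P : Piece W Y) (m s t : ℕ) : Prop :=
  0 < s ∧ 0 < t ∧ t * m = s * Φ.e P.obj ∧ ∀ x : W.H P.obj,
    frob Φ P.obj s x = (W.map P.fr)^[t] x

variable {Φ : FrobSystem W p} {P : Piece W Y} {m s t : ℕ}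

lemma GLevel.eig (hL : GLevel Φ P m s t) {lam : W.K} {x : W.H P.obj}
    (hx : W.map P.fr x = lam • x) : frob Φ P.obj s x = lam ^ t • x := by
  rw [hL.2.2.2]
  exact W534.iterate_eig (fun a x => map_smul _ a x) hx t

lemma GLevel.levelAt (hL : GLevel Φ P m s t) : LevelAt Φ P m s t :=
  ⟨hL.1, hL.2.1, hL.2.2.1, fun _ _ hx => hL.eig hx.eig⟩

lemma exists_glevel (hP : P.IsFrobenius Φ m) : ∃ a b, 0 < a ∧ 0 < b ∧
    ∀ r, 0 < r → GLevel Φ P m (b * r) (a * r) := by
  obtain ⟨a, b, ha, hb, hab, h⟩ := hP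
  refine ⟨a, b, ha, hb, fun r hr => ⟨Nat.mul_pos hb hr, Nat.mul_pos ha hr, ?_, ?_⟩⟩
  · calc a * r * m = (a * m) * r := by ring
      _ = b * r * Φ.e P.obj := by rw [hab]; ring
  · intro x
    have h1 : ∀ x, frob Φ P.obj b x = (W.map P.fr)^[a] x := by
      intro x
      rw [frob_apply, ← h, W534.map_iter]
    have h2 : ⇑(frob Φ P.obj b) = (W.map P.fr)^[a] := funext h1
    rw [frob_mul_eq, Module.End.pow_apply, Function.iterate_mul, h2]

/-- The dimension and the number of elements. -/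
lemma GLevel.card (hL : GLevel Φ P m s t) (n : ℕ) :
    ((p : W.K) ^ (n * m)) ^ t = (card Φ P.obj s : W.K) ^ n := by
  rw [card_pow, ← pow_mul]
  congr 1
  calc n * m * t = n * (t * m) := by ring
    _ = _ := by rw [hL.2.2.1]; ring

/-- The further eigenvectors are eigenvectors of the even powers. -/
lemma GLevel.ext_eig (hL : GLevel Φ P m s t) (ht : 2 ∣ t) {x : W.H P.obj}
    (hx : IsExt p P m x) : ∃ n, P.obj.dim = 2 * n ∧
      frob Φ P.obj s x = (W534.card Φ P.obj s : W.K) ^ n • x := by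
  obtain ⟨-, n, hn, h⟩ := hx
  refine ⟨n, hn, ?_⟩
  rcases h with h | h
  · rw [hL.eig h, hL.card]
  · rw [hL.eig h, Even.neg_pow (even_iff_two_dvd.2 ht), hL.card]

end Level

section Geo

variable {k : Type u} [Field k] {𝒱 : VarClass k} {ops : CycleOps 𝒱}
  {W : WeilCohomology.{u, v} ops} {Y : 𝒱.Obj} {p : ℕ} {Φ : FrobSystem W p}
  {I : Type} {P : I → Piece W Y} {m : ℕ} {σ : W.K →+* ℂ} {R : ℤ[X]}

lemma GSetup.Q_pos (H : GSetup Φ σ P m R) (i : I) : 0 < (P i).Q p m :=
  pow_pos (by have := H.hp; omega) _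

/-- The generalised eigenspace for the eigenvalue of an eigenvector. -/
lemma GSetup.simple [IsAlgClosed W.K] (H : GSetup Φ σ P m R) (i : I) {s t b : ℕ}
    (hL : GLevel Φ (P i) m s t) (ht : 2 ∣ t)
    (hab : ∀ y : W.H Y, frob Φ (P i).obj s (W.map (P i).mor y) = W.map (P i).mor (frob Φ Y b y))
    {lam : W.K} {x : W.H (P i).obj} (hx : IsEig p (P i) m lam x) (y : W.H (P i).obj)
    (hy : y ∈ Module.End.maxGenEigenspace (frob Φ (P i).obj s) (lam ^ t)) :
    ∃ c : W.K, y = c • x := by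
  set M : Set (W.H (P i).obj) := {z | (∃ (w : W.H Y) (ν : W.K),
    w ∈ Module.End.maxGenEigenspace (frob Φ Y b) ν ∧ z = W.map (P i).mor w) ∨
    (∃ mu, IsEig p (P i) m mu z) ∨ IsExt p (P i) m z} with hM
  have hMgen : ∀ z ∈ M, ∃ ν : W.K, z ∈ Module.End.maxGenEigenspace (frob Φ (P i).obj s) ν := by
    rintro z (⟨w, ν, hw, rfl⟩ | ⟨mu, hz⟩ | hz)
    · refine ⟨1 * ν, gen_map (θ := (W.map (P i).mor).toLinearMap) (c := 1) ?_ hw⟩
      intro y
      rw [one_smul]
      exact hab y
    · exact ⟨mu ^ t, eig_mem_gen (hL.eig hz.eig)⟩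
    · obtain ⟨n, -, h⟩ := hL.ext_eig ht hz
      exact ⟨_, eig_mem_gen h⟩
  have hspan : y ∈ Submodule.span W.K M := by
    obtain ⟨w, hw⟩ := (H.gen i) y
    have h1 : y = W.map (P i).mor w + (y - W.map (P i).mor w) := by abel
    rw [h1]
    refine Submodule.add_mem _ ?_ ?_
    · have h2 := Submodule.apply_mem_span_image_of_mem_span (W.map (P i).mor).toLinearMap
        (span_gen_top (frob Φ Y b) w)
      refine Submodule.span_mono ?_ h2
      rintro _ ⟨w', ⟨ν, hν⟩, rfl⟩
      exact Or.inl ⟨w', ν, hν, rfl⟩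
    · refine Submodule.span_mono ?_ (H.span i _ hw)
      intro z hz
      exact Or.inr hz
  have h3 := mem_span_gen hMgen hspan hy
  have h4 : Submodule.span W.K {v | v ∈ M ∧
      v ∈ Module.End.maxGenEigenspace (frob Φ (P i).obj s) (lam ^ t)} ≤
      Submodule.span W.K {x} := by
    rw [Submodule.span_le]
    rintro z ⟨hz | ⟨mu, hz⟩ | hz, hz2⟩
    · obtain ⟨w, ν, hw, rfl⟩ := hz
      by_cases h0 : W.map (P i).mor w = 0
      · rw [h0]
        exact Submodule.zero_mem _
      · exfalso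
        have h5 : W.map (P i).mor w ∈
            Module.End.maxGenEigenspace (frob Φ (P i).obj s) (1 * ν) := by
          refine gen_map (θ := (W.map (P i).mor).toLinearMap) (c := 1) ?_ hw
          intro y
          rw [one_smul]
          exact hab y
        have h6 := eq_of_mem_gen h5 hz2 h0
        rw [one_mul] at h6
        have hw0 : w ≠ 0 := by
          rintro rfl
          exact h0 (map_zero _)
        have h7 := eig_Y σ H.hR b (hasEigenvalue_of_gen hw hw0)
        refine sep_fixed (GSetup.Q_pos H) H.monic H.bal H.sep i hL.2.1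
          (aeval_sigma σ hx.root) h7 ?_
        rw [h6, map_pow]
    · have h6 := eq_of_mem_gen (eig_mem_gen (hL.eig hz.eig)) hz2 hz.ne
      have h7 : σ mu = σ lam := by
        refine sep_roots (GSetup.Q_pos H) H.monic H.bal H.sep i hL.2.1
          (aeval_sigma σ hz.root) (aeval_sigma σ hx.root) ?_
        rw [← map_pow, h6, map_pow]
      have h8 : mu = lam := σ.injective h7
      subst h8
      obtain ⟨c, hc⟩ := H.uniq i _ _ _ hx hz
      exact Submodule.mem_span_singleton.2 ⟨c, hc.symm⟩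
    · by_cases h0 : z = 0
      · rw [h0]
        exact Submodule.zero_mem _
      · exfalso
        obtain ⟨n, -, h⟩ := hL.ext_eig ht hz
        have h6 := eq_of_mem_gen (eig_mem_gen h) hz2 h0
        have h7 := congrArg σ h6
        rw [map_pow, map_natCast, map_pow, ← Nat.cast_pow] at h7
        exact sep_nat (GSetup.Q_pos H) H.monic H.bal H.sep i hL.2.1 (aeval_sigma σ hx.root)
          (pow_pos (card_pos Φ s) n) h7.symm
  obtain ⟨c, hc⟩ := Submodule.mem_span_singleton.1 (h4 h3)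
  exact ⟨c, hc.symm⟩

/-- The external product of eigenvectors for the eigenvalues `lam` and `Q / lam` is algebraic. -/
lemma GSetup.pair [IsAlgClosed W.K] (hPAIR : St_PAIR.{u, v}) (H : GSetup Φ σ P m R) (i : I)
    {lam lam' : W.K} {x x' : W.H (P i).obj} (hx : IsEig p (P i) m lam x)
    (hx' : IsEig p (P i) m lam' x') (hl : lam * lam' = ((P i).Q p m : W.K)) :
    H281R3.HT.ext W x x' ∈ algSpan W ((P i).obj.prod (P i).obj) := by
  obtain ⟨a, b, ha, hb, hab, h⟩ := frob_comm Φ (P i).mor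
  obtain ⟨a₀, b₀, ha₀, hb₀, hlev⟩ := exists_glevel (H.frob i)
  have hL := hlev (2 * a) (by omega)
  have hcomm : ∀ y : W.H Y, frob Φ (P i).obj (b₀ * (2 * a)) (W.map (P i).mor y) =
      W.map (P i).mor (frob Φ Y (b * (2 * b₀)) y) := by
    intro y
    have e : b₀ * (2 * a) = a * (2 * b₀) := by ring
    rw [e]
    exact h (2 * b₀) y
  have ht : 2 ∣ a₀ * (2 * a) := ⟨a₀ * a, by ring⟩
  refine hPAIR W p Φ (P i).obj (b₀ * (2 * a)) (lam ^ (a₀ * (2 * a))) (lam' ^ (a₀ * (2 * a)))
    x x' hL.1 ?_ (hL.eig hx.eig) (hL.eig hx'.eig) (GSetup.simple H i hL ht hcomm hx) ?_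
  · rw [← mul_pow, hl, card_pow, Piece.Q, Nat.cast_pow, ← pow_mul]
    congr 1
    calc (P i).obj.dim * m * (a₀ * (2 * a)) = (P i).obj.dim * (a₀ * (2 * a) * m) := by ring
      _ = Φ.e (P i).obj * (b₀ * (2 * a)) * (P i).obj.dim := by rw [hL.2.2.1]; ring
  · intro y hy
    exact GSetup.simple H i hL ht hcomm hx' y (eig_mem_gen hy)

end Geo

end Pool.Agent.W458.MF.G
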