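import Pool.Agent.W458.MF.Gen8
import Pool.Agent.W64.MF.XSQ

/-!
# Families with large monodromy: the inputs for the conjecture D
-/

universe u v

namespace Pool.Agent.W458.MF

theorem st_xsq : St_XSQ.{u, v} := W64.MF.xsq W588.MF.xpair

end Pool.Agent.W458.MF
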