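import Pool.Agent.W458.MF.Stm2
import Pool.Agent.W458.MF.NStm
import Pool.Agent.W536.RBase

/-!
# Generalised eigenvectors, and Frobenius endomorphisms over large fields
-/

open CategoryTheory AlgebraicGeometry Polynomial

universe u v w

namespace Pool.Agent.W458.MF

open Pool.Agent.H914 Pool.Agent.W534 Pool.Agent.W521.Frob VarClass Obj WeilCohomology
  Pool.Agent.H281R3.HT Pool.Agent.W536.RR

section Lin

variable {K : Type*} [Field K] {V : Type*} [AddCommGroup V] [Module K V]

/-- A generalised eigenvector is a linear combination of the generalised eigenvectors in a set of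
generalised eigenvectors which belong to the same eigenvalue. -/
lemma mem_span_gen {T : Module.End K V} {M : Set V}
    (hM : ∀ v ∈ M, ∃ ν : K, v ∈ T.maxGenEigenspace ν) {z : V} (hz : z ∈ Submodule.span K M)
    {μ : K} (hzμ : z ∈ T.maxGenEigenspace μ) :
    z ∈ Submodule.span K {v | v ∈ M ∧ v ∈ T.maxGenEigenspace μ} := by
  have key : ∃ z₁ ∈ Submodule.span K {v | v ∈ M ∧ v ∈ T.maxGenEigenspace μ},
      ∃ z₂ ∈ ⨆ ν ∈ {ν : K | ν ≠ μ}, T.maxGenEigenspace ν, z = z₁ + z₂ := by
    clear hzμ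
    induction hz using Submodule.span_induction with
    | mem v hv =>
      obtain ⟨ν, hν⟩ := hM v hv
      by_cases h : ν = μ
      · subst h
        exact ⟨v, Submodule.subset_span ⟨hv, hν⟩, 0, Submodule.zero_mem _, (add_zero v).symm⟩
      · refine ⟨0, Submodule.zero_mem _, v, ?_, (zero_add v).symm⟩
        exact (le_iSup₂_of_le (f := fun (ν : K) (_ : ν ∈ {ν : K | ν ≠ μ}) => T.maxGenEigenspace ν)
          ν h le_rfl) hν
    | zero => exact ⟨0, Submodule.zero_mem _, 0, Submodule.zero_mem _, (add_zero 0).symm⟩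
    | add x y _ _ hx hy =>
      obtain ⟨a, ha, b, hb, rfl⟩ := hx
      obtain ⟨a', ha', b', hb', rfl⟩ := hy
      exact ⟨a + a', Submodule.add_mem _ ha ha', b + b', Submodule.add_mem _ hb hb',
        by abel⟩
    | smul c x _ hx =>
      obtain ⟨a, ha, b, hb, rfl⟩ := hx
      exact ⟨c • a, Submodule.smul_mem _ _ ha, c • b, Submodule.smul_mem _ _ hb, smul_add _ _ _⟩
  obtain ⟨z₁, h1, z₂, h2, rfl⟩ := key
  have h3 : z₁ ∈ T.maxGenEigenspace μ := by
    have : Submodule.span K {v | v ∈ M ∧ v ∈ T.maxGenEigenspace μ} ≤ T.maxGenEigenspace μ := by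
      rw [Submodule.span_le]
      intro v hv
      exact hv.2
    exact this h1
  have h4 : z₂ ∈ T.maxGenEigenspace μ := by
    have := Submodule.sub_mem _ hzμ h3
    rwa [add_sub_cancel_left] at this
  have h5 := (Module.End.independent_maxGenEigenspace T) μ
  rw [Submodule.disjoint_def] at h5
  have h6 : z₂ = 0 := h5 z₂ h4 h2
  rw [h6, add_zero]
  exact h1

lemma eq_of_mem_gen {T : Module.End K V} {v : V} {μ ν : K} (h1 : v ∈ T.maxGenEigenspace μ)
    (h2 : v ∈ T.maxGenEigenspace ν) (hv : v ≠ 0) : μ = ν := by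
  by_contra h
  have h5 := (Module.End.independent_maxGenEigenspace T).pairwiseDisjoint h
  exact hv (Submodule.disjoint_def.1 h5 v h1 h2)

lemma eig_mem_gen {T : Module.End K V} {v : V} {μ : K} (h : T v = μ • v) :
    v ∈ T.maxGenEigenspace μ := by
  rw [Module.End.mem_maxGenEigenspace]
  refine ⟨1, ?_⟩
  rw [pow_one, LinearMap.sub_apply, h, LinearMap.smul_apply, Module.End.one_apply, sub_self]

/-- A map which intertwines up to a scalar maps generalised eigenvectors to generalised
eigenvectors. -/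
lemma gen_map {V' : Type*} [AddCommGroup V'] [Module K V'] {T : Module.End K V}
    {T' : Module.End K V'} {θ : V →ₗ[K] V'} {c ν : K} (h : ∀ x, T' (θ x) = c • θ (T x)) {y : V}
    (hy : y ∈ T.maxGenEigenspace ν) : θ y ∈ T'.maxGenEigenspace (c * ν) := by
  rw [Module.End.mem_maxGenEigenspace] at hy ⊢
  obtain ⟨n, hn⟩ := hy
  refine ⟨n, ?_⟩
  have h1 : ∀ x, (T' - (c * ν) • (1 : Module.End K V')) (θ x) =
      c • θ ((T - ν • (1 : Module.End K V)) x) := by
    intro x
    rw [LinearMap.sub_apply, LinearMap.sub_apply, LinearMap.smul_apply, LinearMap.smul_apply,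
      Module.End.one_apply, Module.End.one_apply, h, map_sub, map_smul, smul_sub, smul_smul]
  have h2 : ∀ n x, ((T' - (c * ν) • (1 : Module.End K V')) ^ n) (θ x) =
      c ^ n • θ (((T - ν • (1 : Module.End K V)) ^ n) x) := by
    intro n
    induction n with
    | zero => intro x; simp
    | succ n ih =>
      intro x
      rw [pow_succ' (T' - (c * ν) • (1 : Module.End K V')), Module.End.mul_apply, ih, map_smul,
        h1, pow_succ' (T - ν • (1 : Module.End K V)), Module.End.mul_apply, smul_smul, pow_succ]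
  rw [h2, hn, map_zero, smul_zero]

/-- Over an algebraically closed field every vector is a sum of generalised eigenvectors. -/
lemma span_gen_top [IsAlgClosed K] [Module.Finite K V] (T : Module.End K V) (x : V) :
    x ∈ Submodule.span K {v | ∃ ν : K, v ∈ T.maxGenEigenspace ν} := by
  have h : x ∈ ⨆ ν, T.maxGenEigenspace ν := by
    rw [Module.End.iSup_maxGenEigenspace_eq_top]
    exact Submodule.mem_top
  induction h using Submodule.iSup_induction' with
  | mem ν x hx => exact Submodule.subset_span ⟨ν, hx⟩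
  | zero => exact Submodule.zero_mem _
  | add x y _ _ hx hy => exact Submodule.add_mem _ hx hy

/-- A nonzero generalised eigenvector belongs to an eigenvalue. -/
lemma hasEigenvalue_of_gen {T : Module.End K V} {v : V} {ν : K} (h : v ∈ T.maxGenEigenspace ν)
    (hv : v ≠ 0) : T.HasEigenvalue ν := by
  rw [Module.End.mem_maxGenEigenspace] at h
  obtain ⟨n, hn⟩ := h
  induction n with
  | zero =>
    rw [pow_zero, Module.End.one_apply] at hn
    exact absurd hn hv
  | succ n ih =>
    by_cases h0 : ((T - ν • (1 : Module.End K V)) ^ n) v = 0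
    · exact ih h0
    · refine Module.End.hasEigenvalue_of_hasEigenvector
        (x := ((T - ν • (1 : Module.End K V)) ^ n) v) ⟨?_, h0⟩
      rw [Module.End.mem_eigenspace_iff]
      rw [pow_succ', Module.End.mul_apply, LinearMap.sub_apply, LinearMap.smul_apply,
        Module.End.one_apply, sub_eq_zero] at hn
      exact hn

/-- Eigenvalues of powers are powers of eigenvalues. -/
lemma exists_eigenvalue_of_pow [IsAlgClosed K] [Module.Finite K V] {T : Module.End K V} {n : ℕ}
    {μ : K} (h : (T ^ n).HasEigenvalue μ) :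
    ∃ ν, T.HasEigenvalue ν ∧ ν ^ n = μ := by
  obtain ⟨v, hv, hv0⟩ := h.exists_hasEigenvector
  have hvg := eig_mem_gen (Module.End.mem_eigenspace_iff.1 hv)
  -- decompose
  have h1 : ∀ w ∈ {w | ∃ ν : K, w ∈ T.maxGenEigenspace ν},
      ∃ ν : K, w ∈ (T ^ n).maxGenEigenspace ν := by
    rintro w ⟨ν, hw⟩
    exact ⟨ν ^ n, gen_mono T ν n hw⟩
  have h2 := mem_span_gen h1 (span_gen_top T v) hvg
  by_contra hcon
  push Not at hcon
  apply hv0
  have h3 : Submodule.span K {v | v ∈ {w | ∃ ν : K, w ∈ T.maxGenEigenspace ν} ∧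
      v ∈ (T ^ n).maxGenEigenspace μ} = ⊥ := by
    rw [Submodule.span_eq_bot]
    rintro w ⟨⟨ν, hw⟩, hw2⟩
    by_contra hw0
    have h4 := eq_of_mem_gen (gen_mono T ν n hw) hw2 hw0
    exact hcon ν (hasEigenvalue_of_gen hw hw0) h4
  rw [h3, Submodule.mem_bot] at h2
  exact h2

end Lin

section Level

variable {k : Type u} [Field k] {𝒱 : VarClass k} {ops : CycleOps 𝒱}
  {W : WeilCohomology.{u, v} ops} {X Y Z : 𝒱.Obj} {p : ℕ} (Φ : FrobSystem W p)

/-- The pull-back by `f` commutes with the Frobenius endomorphisms over the field with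
`card Φ Z s` elements. -/
def Comm (f : Z ⟶ X) (s : ℕ) : Prop :=
  ∃ s', 0 < s' ∧ s' * Φ.e X = s * Φ.e Z ∧
    ∀ y : W.H X, frob Φ Z s (W.map f y) = W.map f (frob Φ X s' y)

lemma exists_comm (f : Z ⟶ X) : ∃ a, 0 < a ∧ ∀ t, 0 < t → Comm Φ f (a * t) := by
  obtain ⟨a, b, ha, hb, hab, h⟩ := frob_comm Φ f
  refine ⟨a, ha, fun t ht => ⟨b * t, Nat.mul_pos hb ht, ?_, fun y => h t y⟩⟩
  calc b * t * Φ.e X = (b * Φ.e X) * t := by ring
    _ = a * t * Φ.e Z := by rw [← hab]; ring

lemma exists_comm_dvd (f : Z ⟶ X) (r : ℕ) (hr : 0 < r) : ∃ a, 0 < a ∧ ∀ t, 0 < t →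
    ∃ s', 0 < s' ∧ r ∣ s' ∧ s' * Φ.e X = a * t * Φ.e Z ∧
    ∀ y : W.H X, frob Φ Z (a * t) (W.map f y) = W.map f (frob Φ X s' y) := by
  obtain ⟨a, b, ha, hb, hab, h⟩ := frob_comm Φ f
  refine ⟨a * r, Nat.mul_pos ha hr, fun t ht => ⟨b * (r * t), Nat.mul_pos hb (Nat.mul_pos hr ht),
    ⟨b * t, by ring⟩, ?_, fun y => ?_⟩⟩
  · calc b * (r * t) * Φ.e X = (b * Φ.e X) * (r * t) := by ring
      _ = a * r * t * Φ.e Z := by rw [← hab]; ring
  · have := h (r * t) y
    rw [← mul_assoc] at this
    exact this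

lemma frob_mul_apply (s : ℕ) (x y : W.H Z) :
    frob Φ Z s (x * y) = frob Φ Z s x * frob Φ Z s y := by
  rw [frob_apply, frob_apply, frob_apply, map_mul]

lemma frob_one (s : ℕ) : frob Φ Z s 1 = 1 := by
  rw [frob_apply, map_one]

lemma card_eq_of {s s' : ℕ} (h : s' * Φ.e X = s * Φ.e Z) : card Φ X s' = card Φ Z s := by
  rw [card, card, mul_comm (Φ.e X), h, mul_comm s]

end Level

end Pool.Agent.W458.MF
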