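import Pool.Agent.W458.MF.Geo1

/-!
# The eigenvectors in the subspaces of the pieces
-/

open CategoryTheory AlgebraicGeometry Polynomial

universe u v w

namespace Pool.Agent.W458.MF

open Pool.Agent.H914 Pool.Agent.W534 Pool.Agent.W521.Frob VarClass Obj WeilCohomology
  Pool.Agent.H281R3.HT Pool.Agent.W536.RR

section Lin

variable {K : Type*} [Field K] {V : Type*} [AddCommGroup V] [Module K V] [Module.Finite K V]

/-- An operator with separable characteristic polynomial on an invariant subspace. -/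
lemma simple_on [IsAlgClosed K] {T : Module.End K V} {S : Submodule K V}
    (hS : ∀ x ∈ S, T x ∈ S) (hsep : (T.restrict hS).charpoly.Separable) :
    (∀ x ∈ S, x ∈ Submodule.span K {v | v ∈ S ∧ v ≠ 0 ∧ ∃ μ : K, T v = μ • v ∧
      (T.restrict hS).charpoly.IsRoot μ}) ∧
    (∀ (μ : K) (v x : V), v ∈ S → x ∈ S → v ≠ 0 → T v = μ • v → T x = μ • x →
      ∃ c : K, x = c • v) := by
  set T' : Module.End K S := T.restrict hS with hT'
  have hdim : ∀ μ : K, Module.finrank K (T'.maxGenEigenspace μ) ≤ 1 := by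
    intro μ
    rw [LinearMap.finrank_maxGenEigenspace_eq]
    exact rootMultiplicity_le_one_of_separable hsep μ
  have hpair : ∀ (μ : K) (a b : S), a ∈ T'.maxGenEigenspace μ → b ∈ T'.maxGenEigenspace μ →
      a ≠ 0 → ∃ c : K, b = c • a := by
    intro μ a b ha hb ha0
    have h1 := finrank_le_one_iff.1 (hdim μ)
    obtain ⟨v, hv⟩ := h1
    obtain ⟨α, hα⟩ := hv ⟨a, ha⟩
    obtain ⟨β, hβ⟩ := hv ⟨b, hb⟩
    have e1 : α • (v : S) = a := congrArg Subtype.val hα
    have e2 : β • (v : S) = b := congrArg Subtype.val hβ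
    have hα0 : α ≠ 0 := by
      rintro rfl
      rw [zero_smul] at e1
      exact ha0 e1.symm
    refine ⟨β * α⁻¹, ?_⟩
    rw [← e1, ← e2, smul_smul, mul_assoc, inv_mul_cancel₀ hα0, mul_one]
  have heig : ∀ (μ : K) (a : S), a ∈ T'.maxGenEigenspace μ → T' a = μ • a := by
    intro μ a ha
    by_cases ha0 : a = 0
    · rw [ha0, map_zero, smul_zero]
    · obtain ⟨v, hv, hv0⟩ := (hasEigenvalue_of_gen ha ha0).exists_hasEigenvector
      have hv' := Module.End.mem_eigenspace_iff.1 hv
      obtain ⟨c, rfl⟩ := hpair μ v a (eig_mem_gen hv') ha hv0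
      rw [map_smul, hv', smul_comm]
  constructor
  · intro x hx
    have h1 := span_gen_top T' ⟨x, hx⟩
    have h2 := Submodule.apply_mem_span_image_of_mem_span S.subtype h1
    refine Submodule.span_le.2 ?_ h2
    rintro _ ⟨a, ⟨μ, ha⟩, rfl⟩
    by_cases ha0 : a = 0
    · rw [ha0, map_zero]
      exact Submodule.zero_mem _
    · refine Submodule.subset_span ⟨a.2, fun h => ha0 (Subtype.ext h), μ, ?_, ?_⟩
      · exact congrArg Subtype.val (heig μ a ha)
      · exact (Module.End.hasEigenvalue_iff_isRoot_charpoly T' μ).1 (hasEigenvalue_of_gen ha ha0)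
  · intro μ v x hv hx hv0 hTv hTx
    have h1 : T' ⟨v, hv⟩ = μ • ⟨v, hv⟩ := Subtype.ext hTv
    have h2 : T' ⟨x, hx⟩ = μ • ⟨x, hx⟩ := Subtype.ext hTx
    obtain ⟨c, hc⟩ := hpair μ ⟨v, hv⟩ ⟨x, hx⟩ (eig_mem_gen h1) (eig_mem_gen h2)
      (fun h => hv0 (congrArg Subtype.val h))
    exact ⟨c, congrArg Subtype.val hc⟩

end Lin

section Piece

variable {k : Type u} [Field k] {𝒱 : VarClass k} {ops : CycleOps 𝒱}
  {W : WeilCohomology.{u, v} ops} {Y : 𝒱.Obj} {p : ℕ} {Φ : FrobSystem W p}

/-- The number `q ^ n` for the piece. -/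
def Piece.Q (P : Piece W Y) (p m : ℕ) : ℕ := p ^ (P.obj.dim * m)

variable {P : Piece W Y} {m : ℕ}

lemma Piece.IsOver.stable (hP : P.IsOver Φ m) :
    ∀ x ∈ P.sub, W.map P.fr x ∈ P.sub := by
  classical
  by_contra hcon
  have h1 := hP.charpoly
  have h2 : P.charpoly = 1 := by
    unfold Piece.charpoly charpolyOn
    exact dif_neg hcon
  rw [h2] at h1
  have h3 := congrArg Polynomial.natDegree h1
  rw [natDegree_one, (weil_monic _ hP.monic).natDegree_map, weil_natDegree _ hP.monic] at h3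
  have := hP.degree_pos
  omega

lemma Piece.IsOver.charpoly_restrict (hP : P.IsOver Φ m) :
    (((W.map P.fr).toLinearMap).restrict hP.stable).charpoly =
      (weil (P.Q p m) P.pol).map (Int.castRingHom W.K) := by
  have h2 : P.charpoly =
      (((W.map P.fr).toLinearMap).restrict hP.stable).charpoly := by
    unfold Piece.charpoly charpolyOn
    exact dif_pos hP.stable
  rw [← h2]
  exact hP.charpoly

lemma map_separable {K : Type*} [Field K] [CharZero K] {f : ℤ[X]}
    (h : (f.map (Int.castRingHom ℚ)).Separable) : (f.map (Int.castRingHom K)).Separable := by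
  have e : f.map (Int.castRingHom K) = (f.map (Int.castRingHom ℚ)).map (algebraMap ℚ K) := by
    rw [Polynomial.map_map]
    congr 1
    exact RingHom.ext_int _ _
  rw [e]
  exact h.map

/-- Eigenvectors in the subspace of a piece. -/
structure IsEig (p : ℕ) (P : Piece W Y) (m : ℕ) (lam : W.K) (x : W.H P.obj) : Prop where
  mem : x ∈ P.sub
  ne : x ≠ 0
  eig : W.map P.fr x = lam • x
  root : aeval lam (weil (P.Q p m) P.pol) = 0

lemma Piece.IsOver.span_eig [IsAlgClosed W.K] (hP : P.IsOver Φ m)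
    (hsep : ((weil (P.Q p m) P.pol).map (Int.castRingHom ℚ)).Separable) {x : W.H P.obj}
    (hx : x ∈ P.sub) : x ∈ Submodule.span W.K {v | ∃ lam, IsEig p P m lam v} := by
  have h1 : (((W.map P.fr).toLinearMap).restrict hP.stable).charpoly.Separable := by
    rw [hP.charpoly_restrict]
    exact map_separable hsep
  have h2 := (simple_on hP.stable h1).1 x hx
  refine Submodule.span_mono ?_ h2
  rintro v ⟨hv, hv0, μ, hμ, hr⟩
  refine ⟨μ, hv, hv0, hμ, ?_⟩
  rw [hP.charpoly_restrict, IsRoot.def, Polynomial.eval_map] at hr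
  exact hr

lemma Piece.IsOver.eig_unique [IsAlgClosed W.K] (hP : P.IsOver Φ m)
    (hsep : ((weil (P.Q p m) P.pol).map (Int.castRingHom ℚ)).Separable) {lam : W.K}
    {x y : W.H P.obj} (hx : IsEig p P m lam x) (hy : IsEig p P m lam y) :
    ∃ c : W.K, y = c • x := by
  have h1 : (((W.map P.fr).toLinearMap).restrict hP.stable).charpoly.Separable := by
    rw [hP.charpoly_restrict]
    exact map_separable hsep
  exact (simple_on hP.stable h1).2 lam x y hx.mem hy.mem hx.ne hx.eig hy.eig

/-- The power `s` of the Frobenius endomorphism of the system acts on all eigenvectors as the power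
`t` of the Frobenius endomorphism of the piece. -/
def LevelAt (Φ : FrobSystem W p) (P : Piece W Y) (m s t : ℕ) : Prop :=
  0 < s ∧ 0 < t ∧ t * m = s * Φ.e P.obj ∧ ∀ (lam : W.K) (x : W.H P.obj), IsEig p P m lam x →
    frob Φ P.obj s x = lam ^ t • x

lemma Piece.IsOver.exists_level (hP : P.IsOver Φ m) : ∃ a b, 0 < a ∧ 0 < b ∧
    ∀ r, 0 < r → LevelAt Φ P m (b * r) (a * r) := by
  obtain ⟨a, b, ha, hb, hab, h⟩ := hP.frobenius
  refine ⟨a, b, ha, hb, fun r hr => ⟨Nat.mul_pos hb hr, Nat.mul_pos ha hr, ?_, ?_⟩⟩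
  · calc a * r * m = (a * m) * r := by ring
      _ = b * r * Φ.e P.obj := by rw [hab]; ring
  · intro lam x hx
    have h1 : frob Φ P.obj b x = lam ^ a • x := by
      rw [frob_apply, ← h, W534.map_iter]
      exact W534.iterate_eig (fun a x => map_smul _ a x) hx.eig a
    rw [frob_mul_eq, Module.End.pow_apply, pow_mul]
    exact W534.iterate_eig (fun a x => map_smul (frob Φ P.obj b) a x) h1 r

end Piece

section Roots

lemma aux_dual {A : Type} [CommRing A] [Algebra ℂ A] {e : A} (he : e ^ 2 = 0) {Q : ℕ} {h : ℤ[X]}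
    {z : ℂ} (hz2 : z ^ 2 = Q) (h1 : aeval (z + z) h = 0) (hz : aeval z (weil Q h) = 0) :
    algebraMap ℂ A (aeval z (derivative (weil Q h))) * e = 0 := by
  have h2 : (algebraMap ℂ A z + e) ^ 2 + (Q : A) =
      algebraMap ℂ A (z + z) * (algebraMap ℂ A z + e) := by
    have h4 : (Q : A) = algebraMap ℂ A z ^ 2 := by
      rw [← map_pow, hz2, map_natCast]
    rw [h4, map_add]
    linear_combination he
  have h3 := aeval_weil Q h _ _ h2
  have h4 : aeval (algebraMap ℂ A (z + z)) h = 0 := by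
    rw [aeval_algebraMap_apply, h1, map_zero]
  rw [h4, mul_zero, aeval_add_of_sq_eq_zero _ _ _ he,
    aeval_algebraMap_apply, hz, map_zero, zero_add, aeval_algebraMap_apply] at h3
  exact h3

/-- A root of a separable polynomial `weil Q h` is not fixed under `z ↦ Q / z`. -/
lemma ne_div_of_sep {Q : ℕ} (hQ : 0 < Q) {h : ℤ[X]} (hm : h.Monic)
    (hsep : ((weil Q h).map (Int.castRingHom ℚ)).Separable) {z : ℂ}
    (hz : aeval z (weil Q h) = 0) : z ≠ (Q : ℂ) / z := by
  intro h0
  have hz0 := root_ne_zero hQ.ne' hm hz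
  have hz2 : z ^ 2 = Q := by
    rw [eq_div_iff hz0] at h0
    rw [pow_two]
    exact h0
  have h1 := (root_iff hQ.ne' hm z).1 hz
  rw [← h0] at h1
  have h5 : aeval z (derivative (weil Q h)) = 0 := by
    have h6 := aux_dual (A := DualNumber ℂ) (e := DualNumber.eps)
      (by rw [pow_two, DualNumber.eps_mul_eps]) hz2 h1.2 hz
    have h7 := congrArg TrivSqZeroExt.snd h6
    simp only [TrivSqZeroExt.algebraMap_eq_inl, TrivSqZeroExt.snd_mul, TrivSqZeroExt.fst_inl,
      TrivSqZeroExt.snd_inl, DualNumber.snd_eps, DualNumber.fst_eps, smul_eq_mul, mul_one,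
      TrivSqZeroExt.snd_zero] at h7
    simpa using h7
  obtain ⟨a, b, hab⟩ := hsep
  have h7 := congrArg (aeval z) hab
  rw [map_add, map_mul, map_mul, derivative_map, map_one] at h7
  have h8 : ∀ f : ℤ[X], aeval z (f.map (Int.castRingHom ℚ)) = aeval z f := by
    intro f
    rw [aeval_def, aeval_def, eval₂_map]
    congr 1
  rw [h8, h8, hz, h5, mul_zero, mul_zero, add_zero] at h7
  exact zero_ne_one h7

end Roots

end Pool.Agent.W458.MF
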