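import Pool.Agent.W458.MF.Geo2

/-!
# Separation of the eigenvalues, and the algebraic classes of the pairs of eigenvectors
-/

open CategoryTheory AlgebraicGeometry Polynomial

universe u v w

namespace Pool.Agent.W458.MF

open Pool.Agent.H914 Pool.Agent.W534 Pool.Agent.W521.Frob VarClass Obj WeilCohomology
  Pool.Agent.H281R3.HT Pool.Agent.W536.RR

section NT

variable {K : Type*} [Field K] (σ : K →+* ℂ)

lemma aeval_sigma {lam : K} {f : ℤ[X]} (h : aeval lam f = 0) : aeval (σ lam) f = 0 := by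
  have h1 := Polynomial.aeval_algHom_apply (σ.toIntAlgHom) lam f
  rw [h, map_zero] at h1
  exact h1

variable {I : Type} {Q : I → ℕ} {h : I → ℤ[X]} {R : ℤ[X]}

lemma sep_roots (hQ : ∀ i, 0 < Q i) (hm : ∀ i, (h i).Monic) (hbal : Balanced Q h R)
    (hsep : ∀ i, ((weil (Q i) (h i)).map (Int.castRingHom ℚ)).Separable) (i : I) {a : ℕ}
    (ha : 0 < a) {x y : ℂ} (hx : aeval x (weil (Q i) (h i)) = 0)
    (hy : aeval y (weil (Q i) (h i)) = 0) (hxy : x ^ a = y ^ a) : x = y := by
  classical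
  by_contra hne
  have hx0 := root_ne_zero (hQ i).ne' (hm i) hx
  have hy0 := root_ne_zero (hQ i).ne' (hm i) hy
  have h1 := hbal [(i, x), (i, (Q i : ℂ) / y)] (by
    intro z hz
    simp only [List.mem_cons, List.not_mem_nil, or_false] at hz
    rcases hz with rfl | rfl
    · exact hx
    · exact root_conj (hQ i).ne' (hm i) hy) a ha 1 (Submonoid.one_mem _) (Q i ^ a)
    (pow_pos (hQ i) a) (by
      simp only [List.map_cons, List.map_nil, List.prod_cons, List.prod_nil, mul_one]
      rw [hxy, ← mul_pow, mul_div_cancel₀ _ hy0]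
      push_cast
      rfl) i x
  have h2 : x ≠ (Q i : ℂ) / x := ne_div_of_sep (hQ i) (hm i) (hsep i) hx
  have h3 : (Q i : ℂ) / y ≠ (Q i : ℂ) / x := by
    intro h4
    apply hne
    have hQC : (Q i : ℂ) ≠ 0 := by exact_mod_cast (hQ i).ne'
    rw [div_eq_div_iff hy0 hx0] at h4
    exact mul_left_cancel₀ hQC h4
  have h5 : ([(i, x), (i, (Q i : ℂ) / y)] : List (I × ℂ)).count (i, (Q i : ℂ) / x) = 0 := by
    rw [List.count_eq_zero]
    simp only [List.mem_cons, List.not_mem_nil, or_false, Prod.mk.injEq, true_and, not_or]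
    exact ⟨fun h => h2 h.symm, fun h => h3 h.symm⟩
  have h6 : 0 < ([(i, x), (i, (Q i : ℂ) / y)] : List (I × ℂ)).count (i, x) := by
    rw [List.count_pos_iff]
    exact List.mem_cons_self
  have h7 : ([(i, x), (i, (Q i : ℂ) / y)] : List (I × ℂ)).count (i, x) =
      ([(i, x), (i, (Q i : ℂ) / y)] : List (I × ℂ)).count (i, (Q i : ℂ) / x) := by
    convert h1
  omega

lemma sep_fixed (hQ : ∀ i, 0 < Q i) (hm : ∀ i, (h i).Monic) (hbal : Balanced Q h R)
    (hsep : ∀ i, ((weil (Q i) (h i)).map (Int.castRingHom ℚ)).Separable) (i : I) {a : ℕ}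
    (ha : 0 < a) {x ν : ℂ} (hx : aeval x (weil (Q i) (h i)) = 0)
    (hν : ν ∈ Submonoid.closure {z : ℂ | aeval z R = 0}) : x ^ a ≠ ν := by
  classical
  intro hxν
  have hx0 := root_ne_zero (hQ i).ne' (hm i) hx
  have h1 := hbal [(i, (Q i : ℂ) / x)] (by
    intro z hz
    simp only [List.mem_cons, List.not_mem_nil, or_false] at hz
    rw [hz]
    exact root_conj (hQ i).ne' (hm i) hx) a ha ν hν (Q i ^ a)
    (pow_pos (hQ i) a) (by
      simp only [List.map_cons, List.map_nil, List.prod_cons, List.prod_nil, mul_one]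
      rw [← hxν, ← mul_pow, div_mul_cancel₀ _ hx0]
      push_cast
      rfl) i x
  have h2 : x ≠ (Q i : ℂ) / x := ne_div_of_sep (hQ i) (hm i) (hsep i) hx
  have h5 : ([(i, (Q i : ℂ) / x)] : List (I × ℂ)).count (i, x) = 0 := by
    rw [List.count_eq_zero]
    simp only [List.mem_cons, List.not_mem_nil, or_false, Prod.mk.injEq, true_and]
    exact h2
  have h6 : 0 < ([(i, (Q i : ℂ) / x)] : List (I × ℂ)).count (i, (Q i : ℂ) / x) := by
    rw [List.count_pos_iff]
    exact List.mem_cons_self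
  have h7 : ([(i, (Q i : ℂ) / x)] : List (I × ℂ)).count (i, x) =
      ([(i, (Q i : ℂ) / x)] : List (I × ℂ)).count (i, (Q i : ℂ) / x) := by
    convert h1
  omega

end NT

section Geo

variable {k : Type u} [Field k] {𝒱 : VarClass k} {ops : CycleOps 𝒱}
  {W : WeilCohomology.{u, v} ops} {Y : 𝒱.Obj} {p : ℕ} {Φ : FrobSystem W p}

/-- All eigenvalues of the Frobenius endomorphism of `Y` over large fields are products of roots
of `R`. -/
lemma eig_Y [IsAlgClosed W.K] (σ : W.K →+* ℂ) {R : ℤ[X]}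
    (hR : ∀ μ : W.K, Module.End.HasEigenvalue (W.map (Φ.Fr Y)).toLinearMap μ → aeval μ R = 0)
    (b : ℕ) {μ : W.K} (hμ : Module.End.HasEigenvalue (frob Φ Y b) μ) :
    σ μ ∈ Submonoid.closure {z : ℂ | aeval z R = 0} := by
  have e : frob Φ Y b = (W.map (Φ.Fr Y)).toLinearMap ^ b := by
    apply LinearMap.ext
    intro x
    rw [frob_apply, W534.map_iter, Module.End.pow_apply]
    rfl
  rw [e] at hμ
  obtain ⟨ν, hν, rfl⟩ := exists_eigenvalue_of_pow hμ
  rw [map_pow]
  have h1 : σ ν ∈ {z : ℂ | aeval z R = 0} := aeval_sigma σ (hR ν hν)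
  exact Submonoid.pow_mem _ (Submonoid.subset_closure h1) b

variable {I : Type} (P : I → Piece W Y) {m : ℕ}

/-- The hypotheses. -/
structure Setup (Φ : FrobSystem W p) (σ : W.K →+* ℂ) (P : I → Piece W Y) (m : ℕ) (R : ℤ[X]) :
    Prop where
  hp : 1 < p
  hm : 0 < m
  isOver : ∀ i, (P i).IsOver Φ m
  hR : ∀ μ : W.K, Module.End.HasEigenvalue (W.map (Φ.Fr Y)).toLinearMap μ → aeval μ R = 0
  bal : Balanced (fun i => (P i).Q p m) (fun i => (P i).pol) R
  sep : ∀ i, ((weil ((P i).Q p m) (P i).pol).map (Int.castRingHom ℚ)).Separable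

variable {P} {σ : W.K →+* ℂ} {R : ℤ[X]}

lemma Setup.Q_pos (H : Setup Φ σ P m R) (i : I) : 0 < (P i).Q p m :=
  pow_pos (by have := H.hp; omega) _

/-- The generalised eigenspace for the eigenvalue of an eigenvector. -/
lemma Setup.simple [IsAlgClosed W.K] (H : Setup Φ σ P m R) (i : I) {s t b : ℕ}
    (hL : LevelAt Φ (P i) m s t)
    (hab : ∀ y : W.H Y, frob Φ (P i).obj s (W.map (P i).mor y) = W.map (P i).mor (frob Φ Y b y))
    {lam : W.K} {x : W.H (P i).obj} (hx : IsEig p (P i) m lam x) (y : W.H (P i).obj)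
    (hy : y ∈ Module.End.maxGenEigenspace (frob Φ (P i).obj s) (lam ^ t)) :
    ∃ c : W.K, y = c • x := by
  set M : Set (W.H (P i).obj) := {z | (∃ (w : W.H Y) (ν : W.K),
    w ∈ Module.End.maxGenEigenspace (frob Φ Y b) ν ∧ z = W.map (P i).mor w) ∨
    ∃ mu, IsEig p (P i) m mu z} with hM
  have hMgen : ∀ z ∈ M, ∃ ν : W.K, z ∈ Module.End.maxGenEigenspace (frob Φ (P i).obj s) ν := by
    rintro z (⟨w, ν, hw, rfl⟩ | ⟨mu, hz⟩)
    · refine ⟨1 * ν, gen_map (θ := (W.map (P i).mor).toLinearMap) (c := 1) ?_ hw⟩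
      intro y
      rw [one_smul]
      exact hab y
    · exact ⟨mu ^ t, eig_mem_gen (hL.2.2.2 _ _ hz)⟩
  have hspan : y ∈ Submodule.span W.K M := by
    obtain ⟨w, hw⟩ := (H.isOver i).generated y
    have h1 : y = W.map (P i).mor w + (y - W.map (P i).mor w) := by abel
    rw [h1]
    refine Submodule.add_mem _ ?_ ?_
    · have h2 := Submodule.apply_mem_span_image_of_mem_span (W.map (P i).mor).toLinearMap
        (span_gen_top (frob Φ Y b) w)
      refine Submodule.span_mono ?_ h2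
      rintro _ ⟨w', ⟨ν, hν⟩, rfl⟩
      exact Or.inl ⟨w', ν, hν, rfl⟩
    · refine Submodule.span_mono ?_ ((H.isOver i).span_eig (H.sep i) hw)
      rintro z ⟨mu, hz⟩
      exact Or.inr ⟨mu, hz⟩
  have h3 := mem_span_gen hMgen hspan hy
  have h4 : Submodule.span W.K {v | v ∈ M ∧
      v ∈ Module.End.maxGenEigenspace (frob Φ (P i).obj s) (lam ^ t)} ≤
      Submodule.span W.K {x} := by
    rw [Submodule.span_le]
    rintro z ⟨hz | ⟨mu, hz⟩, hz2⟩
    · obtain ⟨w, ν, hw, rfl⟩ := hz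
      by_cases h0 : W.map (P i).mor w = 0
      · rw [h0]
        exact Submodule.zero_mem _
      · exfalso
        have h5 : W.map (P i).mor w ∈
            Module.End.maxGenEigenspace (frob Φ (P i).obj s) (1 * ν) := by
          refine gen_map (θ := (W.map (P i).mor).toLinearMap) (c := 1) ?_ hw
          intro y
          rw [one_smul]
          exact hab y
        have h6 := eq_of_mem_gen h5 hz2 h0
        rw [one_mul] at h6
        have hw0 : w ≠ 0 := by
          rintro rfl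
          exact h0 (map_zero _)
        have h7 := eig_Y σ H.hR b (hasEigenvalue_of_gen hw hw0)
        refine sep_fixed H.Q_pos (fun i => (H.isOver i).monic) H.bal H.sep i hL.2.1
          (aeval_sigma σ hx.root) h7 ?_
        rw [h6, map_pow]
    · have h6 := eq_of_mem_gen (eig_mem_gen (hL.2.2.2 _ _ hz)) hz2 hz.ne
      have h7 : σ mu = σ lam := by
        refine sep_roots H.Q_pos (fun i => (H.isOver i).monic) H.bal H.sep i hL.2.1
          (aeval_sigma σ hz.root) (aeval_sigma σ hx.root) ?_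
        rw [← map_pow, h6, map_pow]
      have h8 : mu = lam := σ.injective h7
      subst h8
      obtain ⟨c, hc⟩ := (H.isOver i).eig_unique (H.sep i) hx hz
      exact Submodule.mem_span_singleton.2 ⟨c, hc.symm⟩
  obtain ⟨c, hc⟩ := Submodule.mem_span_singleton.1 (h4 h3)
  exact ⟨c, hc.symm⟩

/-- The external product of eigenvectors for the eigenvalues `lam` and `Q / lam` is algebraic. -/
lemma Setup.pair [IsAlgClosed W.K] (hPAIR : St_PAIR.{u, v}) (H : Setup Φ σ P m R) (i : I)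
    {lam lam' : W.K} {x x' : W.H (P i).obj} (hx : IsEig p (P i) m lam x)
    (hx' : IsEig p (P i) m lam' x') (hl : lam * lam' = ((P i).Q p m : W.K)) :
    ext W x x' ∈ algSpan W ((P i).obj.prod (P i).obj) := by
  obtain ⟨a, b, ha, hb, hab, h⟩ := frob_comm Φ (P i).mor
  obtain ⟨a₀, b₀, ha₀, hb₀, hlev⟩ := (H.isOver i).exists_level
  have hL := hlev a ha
  have hcomm : ∀ y : W.H Y, frob Φ (P i).obj (b₀ * a) (W.map (P i).mor y) =
      W.map (P i).mor (frob Φ Y (b * b₀) y) := by
    intro y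
    rw [mul_comm b₀ a]
    exact h b₀ y
  refine hPAIR W p Φ (P i).obj (b₀ * a) (lam ^ (a₀ * a)) (lam' ^ (a₀ * a)) x x' hL.1 ?_
    (hL.2.2.2 _ _ hx) (hL.2.2.2 _ _ hx') (H.simple i hL hcomm hx) ?_
  · rw [← mul_pow, hl, card_pow, Piece.Q, Nat.cast_pow, ← pow_mul]
    congr 1
    calc (P i).obj.dim * m * (a₀ * a) = (P i).obj.dim * (a₀ * a * m) := by ring
      _ = Φ.e (P i).obj * (b₀ * a) * (P i).obj.dim := by rw [hL.2.2.1]; ring
  · intro y hy
    exact H.simple i hL hcomm hx' y (eig_mem_gen hy)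

end Geo

end Pool.Agent.W458.MF
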