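import Pool.Agent.W458.MF.Geo3

/-!
# Balanced products of eigenvectors are algebraic
-/

open CategoryTheory AlgebraicGeometry Polynomial

universe u v w

namespace Pool.Agent.W458.MF

open Pool.Agent.H914 Pool.Agent.W534 Pool.Agent.W521.Frob VarClass Obj WeilCohomology
  Pool.Agent.H281R3.HT Pool.Agent.W536.RR

variable {k : Type u} [Field k] {𝒱 : VarClass k} {ops : CycleOps 𝒱}
  {W : WeilCohomology.{u, v} ops} {Y Z : 𝒱.Obj} {p : ℕ} {Φ : FrobSystem W p}
  {I : Type} {P : I → Piece W Y} {m : ℕ} {σ : W.K →+* ℂ} {R : ℤ[X]}

/-- A letter whose class is an eigenvector. -/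
structure ELetter (p : ℕ) (P : I → Piece W Y) (m : ℕ) (Z : 𝒱.Obj) where
  i : I
  v : W.H (P i).obj
  lam : W.K
  isEig : IsEig p (P i) m lam v
  g : Z ⟶ (P i).obj

/-- The pull-back of the class. -/
noncomputable def ELetter.val (a : ELetter p P m Z) : W.H Z := W.map a.g a.v

/-- The label. -/
noncomputable def ELetter.label (σ : W.K →+* ℂ) (a : ELetter p P m Z) : I × ℂ := (a.i, σ a.lam)

/-- The degree. -/
def ELetter.deg (a : ELetter p P m Z) : ℕ := (P a.i).obj.dim

lemma ELetter.val_mem (H : Setup Φ σ P m R) (a : ELetter p P m Z) :
    a.val ∈ W.gr Z a.deg :=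
  W.map_mem _ ((H.isOver a.i).sub_le a.isEig.mem)

lemma prod_perm_letters (H : Setup Φ σ P m R) {l l' : List (ELetter p P m Z)} (h : l.Perm l') :
    ∃ ε : W.K, (l.map ELetter.val).prod = ε • (l'.map ELetter.val).prod := by
  induction h with
  | nil => exact ⟨1, by rw [one_smul]⟩
  | cons a _ ih =>
    obtain ⟨ε, hε⟩ := ih
    exact ⟨ε, by rw [List.map_cons, List.prod_cons, hε, List.map_cons, List.prod_cons,
      mul_smul_comm]⟩
  | swap a b l =>
    refine ⟨(-1) ^ (b.deg * a.deg), ?_⟩
    rw [List.map_cons, List.prod_cons, List.map_cons, List.prod_cons, List.map_cons,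
      List.prod_cons, List.map_cons, List.prod_cons, ← mul_assoc,
      W.comm (b.val_mem H) (a.val_mem H), smul_mul_assoc, mul_assoc]
  | trans _ _ h1 h2 =>
    obtain ⟨ε, hε⟩ := h1
    obtain ⟨ε', hε'⟩ := h2
    exact ⟨ε * ε', by rw [hε, hε', smul_smul]⟩

open Classical in
/-- Balanced lists of labels. -/
def BalList (Q : I → ℕ) (l : List (I × ℂ)) : Prop :=
  ∀ i z, l.count (i, z) = l.count (i, (Q i : ℂ) / z)

lemma label_eq (H : Setup Φ σ P m R) {a b : ELetter p P m Z}
    (h : b.label σ = (a.i, ((P a.i).Q p m : ℂ) / σ a.lam)) :
    b.i = a.i ∧ a.lam * b.lam = ((P a.i).Q p m : W.K) := by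
  have h1 : b.i = a.i := congrArg Prod.fst h
  have h2 : σ b.lam = ((P a.i).Q p m : ℂ) / σ a.lam := congrArg Prod.snd h
  refine ⟨h1, ?_⟩
  apply σ.injective
  have h3 : σ a.lam ≠ 0 := root_ne_zero (H.Q_pos a.i).ne' (H.isOver a.i).monic
    (aeval_sigma σ a.isEig.root)
  rw [map_mul, h2, mul_div_cancel₀ _ h3, map_natCast]

/-- The product of two letters with dual labels is algebraic. -/
lemma pair_val [IsAlgClosed W.K] (hPAIR : St_PAIR.{u, v}) (H : Setup Φ σ P m R)
    (a b : ELetter p P m Z) (hi : b.i = a.i) (hl : a.lam * b.lam = ((P a.i).Q p m : W.K)) :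
    a.val * b.val ∈ algSpan W Z := by
  obtain ⟨i, v, lam, hv, g⟩ := a
  obtain ⟨i', v', lam', hv', g'⟩ := b
  change i' = i at hi
  subst hi
  change lam * lam' = _ at hl
  have h1 := H.pair hPAIR i' hv hv' hl
  have h2 := algSpan_map (Obj.lift g g') h1
  rw [H281R3.HT.ext, map_mul, ← W.map_comp, ← W.map_comp, Obj.lift_fst, Obj.lift_snd] at h2
  exact h2

/-- **Balanced products are algebraic.** -/
theorem balanced_alg [IsAlgClosed W.K] (hPAIR : St_PAIR.{u, v}) (H : Setup Φ σ P m R) :
    ∀ (n : ℕ) (l : List (ELetter p P m Z)), l.length ≤ n →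
      BalList (fun i => (P i).Q p m) (l.map (ELetter.label σ)) →
      (l.map ELetter.val).prod ∈ algSpan W Z ∧ ∃ N : ℕ, (l.map ELetter.deg).sum = 2 * N ∧
        (l.map ELetter.lam).prod = (p : W.K) ^ (m * N) := by
  classical
  intro n
  induction n with
  | zero =>
    intro l hl _
    have : l = [] := List.length_eq_zero_iff.1 (by omega)
    subst this
    exact ⟨one_mem_algSpan, 0, rfl, by simp⟩
  | succ n ih =>
    intro l hl hbal
    cases l with
    | nil => exact ⟨one_mem_algSpan, 0, rfl, by simp⟩
    | cons a l =>
      have h0 : σ a.lam ≠ 0 := root_ne_zero (H.Q_pos a.i).ne' (H.isOver a.i).monic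
        (aeval_sigma σ a.isEig.root)
      have hne := ne_div_of_sep (H.Q_pos a.i) (H.isOver a.i).monic (H.sep a.i)
        (aeval_sigma σ a.isEig.root)
      -- the partner
      have h1 : 0 < ((a :: l).map (ELetter.label σ)).count (a.i, σ a.lam) := by
        rw [List.count_pos_iff, List.map_cons]
        exact List.mem_cons_self
      have h2 : 0 < ((a :: l).map (ELetter.label σ)).count
          (a.i, ((P a.i).Q p m : ℂ) / σ a.lam) := by
        have := hbal a.i (σ a.lam)
        convert h1 using 1
        convert this.symm
      rw [List.count_pos_iff, List.map_cons, List.mem_cons] at h2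
      have h3 : (a.i, ((P a.i).Q p m : ℂ) / σ a.lam) ∈ l.map (ELetter.label σ) := by
        rcases h2 with h2 | h2
        · exact absurd (congrArg Prod.snd h2).symm hne
        · exact h2
      obtain ⟨b, hb, hbl⟩ := List.mem_map.1 h3
      obtain ⟨hi, hlam⟩ := label_eq H hbl
      have hperm : (a :: l).Perm (a :: b :: l.erase b) := (List.perm_cons_erase hb).cons a
      have hlen : (l.erase b).length ≤ n := by
        rw [List.length_erase_of_mem hb]
        rw [List.length_cons] at hl
        omega
      have hbal' : BalList (fun i => (P i).Q p m) ((l.erase b).map (ELetter.label σ)) := by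
        intro i z
        have h4 : ∀ x : I × ℂ, ((a :: l).map (ELetter.label σ)).count x =
            ([a, b].map (ELetter.label σ)).count x +
              ((l.erase b).map (ELetter.label σ)).count x := by
          intro x
          rw [(hperm.map _).count_eq, ← List.count_append]
          rfl
        have h5 := hbal i z
        have h6 := h4 (i, z)
        have h7 := h4 (i, ((P i).Q p m : ℂ) / z)
        have h8 : ([a, b].map (ELetter.label σ)).count (i, z) =
            ([a, b].map (ELetter.label σ)).count (i, ((P i).Q p m : ℂ) / z) := by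
          have e1 : [a, b].map (ELetter.label σ) =
              [(a.i, σ a.lam), (a.i, ((P a.i).Q p m : ℂ) / σ a.lam)] := by
            rw [List.map_cons, List.map_cons, hbl]
            rfl
          rw [e1]
          by_cases hii : i = a.i
          · subst hii
            have hQ : ((P a.i).Q p m : ℂ) ≠ 0 := by exact_mod_cast (H.Q_pos a.i).ne'
            simp only [List.count_cons, List.count_nil, beq_iff_eq, Prod.mk.injEq, true_and]
            have e2 : (σ a.lam = z) ↔ (((P a.i).Q p m : ℂ) / σ a.lam =
                ((P a.i).Q p m : ℂ) / z) := by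
              constructor
              · rintro rfl
                rfl
              · intro h9
                by_cases hz : z = 0
                · rw [hz, div_zero] at h9
                  exact absurd h9 (div_ne_zero hQ h0)
                · rw [div_eq_div_iff h0 hz] at h9
                  exact (mul_left_cancel₀ hQ h9).symm
            have e3 : (((P a.i).Q p m : ℂ) / σ a.lam = z) ↔
                (σ a.lam = ((P a.i).Q p m : ℂ) / z) := by
              constructor
              · rintro rfl
                rw [div_div_cancel₀ hQ]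
              · intro h9
                rw [h9]
                by_cases hz : z = 0
                · rw [hz, div_zero] at h9
                  exact absurd h9 h0
                · rw [div_div_cancel₀ hQ]
            simp only [e2, e3]
            omega
          · have e2 : ∀ x : ℂ, ([(a.i, σ a.lam), (a.i, ((P a.i).Q p m : ℂ) / σ a.lam)] :
                List (I × ℂ)).count (i, x) = 0 := by
              intro x
              rw [List.count_eq_zero]
              simp only [List.mem_cons, List.not_mem_nil, or_false, Prod.mk.injEq, not_or]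
              exact ⟨fun h => hii h.1, fun h => hii h.1⟩
            rw [e2, e2]
        have h9 : ((a :: l).map (ELetter.label σ)).count (i, z) =
            ((a :: l).map (ELetter.label σ)).count (i, ((P i).Q p m : ℂ) / z) := by
          convert h5
        have h10 : ((l.erase b).map (ELetter.label σ)).count (i, z) =
            ((l.erase b).map (ELetter.label σ)).count (i, ((P i).Q p m : ℂ) / z) := by
          omega
        convert h10
      obtain ⟨h4, N, hN, hprod⟩ := ih (l.erase b) hlen hbal'
      obtain ⟨ε, hε⟩ := prod_perm_letters H hperm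
      refine ⟨?_, N + (P a.i).obj.dim, ?_, ?_⟩
      · rw [hε, List.map_cons, List.prod_cons, List.map_cons, List.prod_cons, ← mul_assoc]
        exact Submodule.smul_mem _ _ (algSpan_mul (pair_val hPAIR H a b hi hlam) h4)
      · rw [(hperm.map _).sum_eq, List.map_cons, List.sum_cons, List.map_cons, List.sum_cons, hN]
        have e1 : b.deg = a.deg := by
          rw [ELetter.deg, ELetter.deg, hi]
        rw [e1]
        change (P a.i).obj.dim + ((P a.i).obj.dim + 2 * N) = _
        ring
      · rw [(hperm.map _).prod_eq, List.map_cons, List.prod_cons, List.map_cons, List.prod_cons,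
          hprod, ← mul_assoc, hlam, Piece.Q, Nat.cast_pow, ← pow_add]
        congr 1
        ring

end Pool.Agent.W458.MF
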