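import Pool.Agent.W458.MF.Geo4

/-!
# The generalised Tate classes of the products
-/

open CategoryTheory AlgebraicGeometry Polynomial

universe u v w

namespace Pool.Agent.W458.MF

open Pool.Agent.H914 Pool.Agent.W534 Pool.Agent.W521.Frob VarClass Obj WeilCohomology
  Pool.Agent.H281R3.HT Pool.Agent.W536.RR

section Lin

variable {K : Type*} [Field K] {V V' V'' : Type*} [AddCommGroup V] [Module K V]
  [AddCommGroup V'] [Module K V'] [AddCommGroup V''] [Module K V'']

/-- Products of generalised eigenvectors. -/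
lemma gen_mul {T : Module.End K V} {T' : Module.End K V'} {T'' : Module.End K V''}
    (β : V →ₗ[K] V' →ₗ[K] V'') (h : ∀ x y, T'' (β x y) = β (T x) (T' y)) {ν ν' : K} {x : V}
    {y : V'} (hx : x ∈ T.maxGenEigenspace ν) (hy : y ∈ T'.maxGenEigenspace ν') :
    β x y ∈ T''.maxGenEigenspace (ν * ν') := by
  have key : ∀ N n n' : ℕ, n + n' ≤ N → ∀ (x : V) (y : V'),
      ((T - ν • (1 : Module.End K V)) ^ n) x = 0 →
      ((T' - ν' • (1 : Module.End K V')) ^ n') y = 0 →
      ((T'' - (ν * ν') • (1 : Module.End K V'')) ^ N) (β x y) = 0 := by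
    intro N
    induction N with
    | zero =>
      intro n n' hn x y hx hy
      have : n = 0 := by omega
      subst this
      rw [pow_zero, Module.End.one_apply] at hx
      rw [hx, map_zero, LinearMap.zero_apply, map_zero]
    | succ N ih =>
      intro n n' hn x y hx hy
      cases n with
      | zero =>
        rw [pow_zero, Module.End.one_apply] at hx
        rw [hx, map_zero, LinearMap.zero_apply, map_zero]
      | succ n =>
        cases n' with
        | zero =>
          rw [pow_zero, Module.End.one_apply] at hy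
          rw [hy, map_zero, map_zero]
        | succ n' =>
          have e1 : (T'' - (ν * ν') • (1 : Module.End K V'')) (β x y) =
              β ((T - ν • (1 : Module.End K V)) x) (T' y) +
                ν • β x ((T' - ν' • (1 : Module.End K V')) y) := by
            rw [LinearMap.sub_apply, h, LinearMap.smul_apply, Module.End.one_apply,
              LinearMap.sub_apply, LinearMap.sub_apply, LinearMap.smul_apply,
              LinearMap.smul_apply, Module.End.one_apply, Module.End.one_apply, map_sub,
              LinearMap.sub_apply, map_smul, LinearMap.smul_apply, map_sub, map_smul, smul_sub,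
              smul_smul]
            abel
          rw [pow_succ, Module.End.mul_apply, e1, map_add, map_smul]
          have hx' : ((T - ν • (1 : Module.End K V)) ^ n)
              ((T - ν • (1 : Module.End K V)) x) = 0 := by
            rw [← Module.End.mul_apply, ← pow_succ]
            exact hx
          have hy' : ((T' - ν' • (1 : Module.End K V')) ^ n')
              ((T' - ν' • (1 : Module.End K V')) y) = 0 := by
            rw [← Module.End.mul_apply, ← pow_succ]
            exact hy
          have hy2 : ((T' - ν' • (1 : Module.End K V')) ^ (n' + 1)) (T' y) = 0 := by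
            have hc : Commute T' ((T' - ν' • (1 : Module.End K V')) ^ (n' + 1)) :=
              (Commute.sub_right (Commute.refl _) ((Commute.one_right _).smul_right _)).pow_right _
            rw [← Module.End.mul_apply, ← hc.eq, Module.End.mul_apply, hy, map_zero]
          rw [ih n (n' + 1) (by omega) _ _ hx' hy2, ih (n + 1) n' (by omega) _ _ hx hy',
            smul_zero, add_zero]
  rw [Module.End.mem_maxGenEigenspace] at hx hy ⊢
  obtain ⟨n, hn⟩ := hx
  obtain ⟨n', hn'⟩ := hy
  exact ⟨n + n', key _ n n' le_rfl x y hn hn'⟩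

end Lin

variable {k : Type u} [Field k] {𝒱 : VarClass k} {ops : CycleOps 𝒱}
  {W : WeilCohomology.{u, v} ops} {Y Z : 𝒱.Obj} {p : ℕ} {Φ : FrobSystem W p}
  {I : Type} {P : I → Piece W Y} {m : ℕ} {σ : W.K →+* ℂ} {R : ℤ[X]}

/-- All eigenvalues of a Frobenius endomorphism are products of roots of `R`. -/
def GoodAt (Φ : FrobSystem W p) (σ : W.K →+* ℂ) (R : ℤ[X]) (T : 𝒱.Obj) (t : ℕ) : Prop :=
  ∀ μ : W.K, Module.End.HasEigenvalue (frob Φ T t) μ →
    σ μ ∈ Submonoid.closure {z : ℂ | aeval z R = 0}

lemma GoodAt.mul [IsAlgClosed W.K] {T : 𝒱.Obj} {t : ℕ} (h : GoodAt Φ σ R T t) (r : ℕ) :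
    GoodAt Φ σ R T (t * r) := by
  intro μ hμ
  rw [frob_mul_eq] at hμ
  obtain ⟨ν, hν, rfl⟩ := exists_eigenvalue_of_pow hμ
  rw [map_pow]
  exact Submonoid.pow_mem _ (h ν hν) r

lemma GoodAt.dvd [IsAlgClosed W.K] {T : 𝒱.Obj} {t t' : ℕ} (h : GoodAt Φ σ R T t)
    (ht : t ∣ t') : GoodAt Φ σ R T t' := by
  obtain ⟨r, rfl⟩ := ht
  exact h.mul r

lemma frob_ext {X X' : 𝒱.Obj} {s a b : ℕ}
    (ha : ∀ x : W.H X, frob Φ (X.prod X') s (W.map (fst X X') x) = W.map (fst X X') (frob Φ X a x))
    (hb : ∀ x : W.H X', frob Φ (X.prod X') s (W.map (snd X X') x) =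
      W.map (snd X X') (frob Φ X' b x)) (x : W.H X) (y : W.H X') :
    frob Φ (X.prod X') s (W.map (fst X X') x * W.map (snd X X') y) =
      W.map (fst X X') (frob Φ X a x) * W.map (snd X X') (frob Φ X' b y) := by
  rw [frob_mul_apply, ha, hb]

/-- The external product as a bilinear map. -/
noncomputable def extB (W : WeilCohomology.{u, v} ops) (X X' : 𝒱.Obj) :
    W.H X →ₗ[W.K] W.H X' →ₗ[W.K] W.H (X.prod X') :=
  (LinearMap.mul W.K (W.H (X.prod X'))).compl₁₂ (W.map (fst X X')).toLinearMap
    (W.map (snd X X')).toLinearMap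

lemma extB_apply {X X' : 𝒱.Obj} (x : W.H X) (y : W.H X') :
    extB W X X' x y = W.map (fst X X') x * W.map (snd X X') y := rfl

lemma good_Y [IsAlgClosed W.K]
    (hR : ∀ μ : W.K, Module.End.HasEigenvalue (W.map (Φ.Fr Y)).toLinearMap μ → aeval μ R = 0)
    {T : 𝒱.Obj} (hT : IsProductOf {Y} T) : ∃ a, 0 < a ∧ GoodAt Φ σ R T a := by
  induction hT with
  | @base T hT =>
    obtain rfl : T = Y := hT
    exact ⟨1, one_pos, fun μ hμ => eig_Y σ hR 1 hμ⟩
  | @prod A B _ _ hA hB =>
    obtain ⟨a, ha, hA⟩ := hA
    obtain ⟨b, hb, hB⟩ := hB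
    obtain ⟨a₁, ha₁, h1⟩ := exists_comm_dvd Φ (fst A B) a ha
    obtain ⟨b₁, hb₁, h2⟩ := exists_comm_dvd Φ (snd A B) b hb
    obtain ⟨s, hs, hsd, -, h1⟩ := h1 b₁ hb₁
    obtain ⟨s', hs', hsd', -, h2⟩ := h2 a₁ ha₁
    refine ⟨a₁ * b₁, Nat.mul_pos ha₁ hb₁, ?_⟩
    rw [mul_comm b₁ a₁] at h2
    have hA' := hA.dvd hsd
    have hB' := hB.dvd hsd'
    intro μ hμ
    obtain ⟨v, hv, hv0⟩ := hμ.exists_hasEigenvector
    have hvg := eig_mem_gen (Module.End.mem_eigenspace_iff.1 hv)
    set M : Set (W.H (A.prod B)) := {z | ∃ (x : W.H A) (y : W.H B) (ν ν' : W.K),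
      x ∈ Module.End.maxGenEigenspace (frob Φ A s) ν ∧
      y ∈ Module.End.maxGenEigenspace (frob Φ B s') ν' ∧ z = extB W A B x y} with hM
    have hMgen : ∀ (x : W.H A) (y : W.H B) (ν ν' : W.K),
        x ∈ Module.End.maxGenEigenspace (frob Φ A s) ν →
        y ∈ Module.End.maxGenEigenspace (frob Φ B s') ν' →
        extB W A B x y ∈ Module.End.maxGenEigenspace (frob Φ (A.prod B) (a₁ * b₁)) (ν * ν') :=
      fun x y ν ν' hx hy => gen_mul (extB W A B) (fun x y => frob_ext h1 h2 x y) hx hy
    have hxy : ∀ (x : W.H A) (y : W.H B), extB W A B x y ∈ Submodule.span W.K M := by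
      intro x y
      have hx := span_gen_top (frob Φ A s) x
      have hy := span_gen_top (frob Φ B s') y
      induction hx using Submodule.span_induction with
      | mem x hx =>
        obtain ⟨ν, hν⟩ := hx
        induction hy using Submodule.span_induction with
        | mem y hy =>
          obtain ⟨ν', hν'⟩ := hy
          exact Submodule.subset_span ⟨x, y, ν, ν', hν, hν', rfl⟩
        | zero => rw [map_zero]; exact Submodule.zero_mem _
        | add x y _ _ hx hy => rw [map_add]; exact Submodule.add_mem _ hx hy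
        | smul c x _ hx => rw [map_smul]; exact Submodule.smul_mem _ _ hx
      | zero => rw [map_zero, LinearMap.zero_apply]; exact Submodule.zero_mem _
      | add x y _ _ hx hy =>
        rw [map_add, LinearMap.add_apply]
        exact Submodule.add_mem _ hx hy
      | smul c x _ hx =>
        rw [map_smul, LinearMap.smul_apply]
        exact Submodule.smul_mem _ _ hx
    have hspan : v ∈ Submodule.span W.K M := by
      refine W.kunneth_induction (p := fun z => z ∈ Submodule.span W.K M) ?_ ?_ v
      · intro x y hx hy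
        exact Submodule.add_mem _ hx hy
      · intro i j x _ y _
        exact hxy x y
    have h3 := mem_span_gen (fun z hz => by
      obtain ⟨x, y, ν, ν', hx, hy, rfl⟩ := hz
      exact ⟨_, hMgen x y ν ν' hx hy⟩) hspan hvg
    by_contra hcon
    apply hv0
    have h4 : Submodule.span W.K {z | z ∈ M ∧
        z ∈ Module.End.maxGenEigenspace (frob Φ (A.prod B) (a₁ * b₁)) μ} = ⊥ := by
      rw [Submodule.span_eq_bot]
      rintro z ⟨⟨x, y, ν, ν', hx, hy, rfl⟩, hz⟩
      by_contra h0
      have h5 := eq_of_mem_gen (hMgen x y ν ν' hx hy) hz h0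
      have hx0 : x ≠ 0 := by
        rintro rfl
        exact h0 (by rw [map_zero, LinearMap.zero_apply])
      have hy0 : y ≠ 0 := by
        rintro rfl
        exact h0 (by rw [map_zero])
      apply hcon
      rw [← h5, map_mul]
      exact Submonoid.mul_mem _ (hA' ν (hasEigenvalue_of_gen hx hx0))
        (hB' ν' (hasEigenvalue_of_gen hy hy0))
    rw [h4, Submodule.mem_bot] at h3
    exact h3

end Pool.Agent.W458.MF
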