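import Pool.Agent.W458.MF.Geo8

/-!
# Pieces with further eigenvectors: the generalised Tate classes of the products
-/

open CategoryTheory AlgebraicGeometry Polynomial

universe u v w

namespace Pool.Agent.W458.MF.G

open Pool.Agent.H914 Pool.Agent.W534 Pool.Agent.W521.Frob VarClass Obj WeilCohomology
  Pool.Agent.H281R3.HT Pool.Agent.W536.RR

variable {k : Type u} [Field k] {𝒱 : VarClass k} {ops : CycleOps 𝒱}
  {W : WeilCohomology.{u, v} ops} {Y Z : 𝒱.Obj} {p : ℕ} {Φ : FrobSystem W p}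
  {I : Type} {P : I → Piece W Y} {m : ℕ} {σ : W.K →+* ℂ} {R : ℤ[X]}

/-- A letter whose class is a further eigenvector. -/
structure XLetter (p : ℕ) (P : I → Piece W Y) (m : ℕ) (Z : 𝒱.Obj) where
  i : I
  v : W.H (P i).obj
  isExt : IsExt p (P i) m v
  g : Z ⟶ (P i).obj

/-- The pull-back of the class. -/
noncomputable def XLetter.val (a : XLetter p P m Z) : W.H Z := W.map a.g a.v

/-- Half the degree. -/
def XLetter.half (a : XLetter p P m Z) : ℕ := (P a.i).obj.dim / 2

lemma XLetter.val_mem (H : GSetup Φ σ P m R) (a : XLetter p P m Z) :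
    a.val ∈ W.gr Z (2 * a.half) := by
  obtain ⟨n, hn, -⟩ := a.isExt.2
  have h1 : 2 * a.half = (P a.i).obj.dim := by
    rw [XLetter.half, hn]
    omega
  rw [h1]
  exact W.map_mem _ (H.sub_le a.i a.isExt.1)

lemma xprod_mem (H : GSetup Φ σ P m R) (l : List (XLetter p P m Z)) :
    (l.map XLetter.val).prod ∈ W.gr Z (2 * (l.map XLetter.half).sum) := by
  induction l with
  | nil => exact W.one_mem Z
  | cons a l ih =>
    simp only [List.map_cons, List.prod_cons, List.sum_cons]
    rw [mul_add]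
    exact W.mul_mem (a.val_mem H) ih

/-- The pull-back by `g` commutes with the Frobenius endomorphisms, and the Frobenius endomorphism
is an even power of the Frobenius endomorphism of the piece. -/
def GLComm (Φ : FrobSystem W p) (P : Piece W Y) (m : ℕ) (g : Z ⟶ P.obj) (s : ℕ) : Prop :=
  ∃ s' t, 0 < t ∧ 2 ∣ t ∧ m * t = Φ.e Z * s ∧ GLevel Φ P m s' t ∧
    ∀ x : W.H P.obj, frob Φ Z s (W.map g x) = W.map g (frob Φ P.obj s' x)

lemma exists_glcomm {P : Piece W Y} (hP : P.IsFrobenius Φ m) (g : Z ⟶ P.obj) : ∃ a, 0 < a ∧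
    ∀ r, 0 < r → GLComm Φ P m g (a * r) := by
  obtain ⟨a₀, b₀, ha₀, hb₀, hlev⟩ := exists_glevel hP
  obtain ⟨a, ha, h⟩ := exists_comm_dvd Φ g (2 * b₀) (by omega)
  refine ⟨a, ha, fun r hr => ?_⟩
  obtain ⟨s', hs', ⟨r', rfl⟩, he, hc⟩ := h r hr
  have hr' : 0 < r' := Nat.pos_of_ne_zero (by rintro rfl; simp at hs')
  have e : 2 * b₀ * r' = b₀ * (2 * r') := by ring
  rw [e] at he hc
  have hL := hlev (2 * r') (by omega)
  refine ⟨b₀ * (2 * r'), a₀ * (2 * r'), hL.2.1, ⟨a₀ * r', by ring⟩, ?_, hL, hc⟩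
  rw [mul_comm m, hL.2.2.1, he]
  ring

/-- All letters are compatible with the Frobenius endomorphism. -/
def EComm (Φ : FrobSystem W p) (t : ℕ) (l : List (ELetter p P m Z)) : Prop :=
  ∀ b ∈ l, GLComm Φ (P b.i) m b.g t

/-- All letters are compatible with the Frobenius endomorphism. -/
def XComm (Φ : FrobSystem W p) (t : ℕ) (l : List (XLetter p P m Z)) : Prop :=
  ∀ b ∈ l, GLComm Φ (P b.i) m b.g t

lemma comm_even {a b : W.H Z} {i j : ℕ} (ha : a ∈ W.gr Z i) (hb : b ∈ W.gr Z (2 * j)) :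
    a * b = b * a := by
  rw [W.comm ha hb, show i * (2 * j) = 2 * (i * j) by ring, pow_mul, neg_one_sq, one_pow,
    one_smul]

lemma span_letters [IsAlgClosed W.K] (H : GSetup Φ σ P m R) (t : ℕ) :
    ∀ l : List (Letter P Z), (∀ a ∈ l, GLComm Φ (P a.i) m a.g t) →
      (l.map Letter.val).prod ∈ Submodule.span W.K
        {c | ∃ (lx : List (XLetter p P m Z)) (l' : List (ELetter p P m Z)), XComm Φ t lx ∧
          EComm Φ t l' ∧ c = (lx.map XLetter.val).prod * (l'.map ELetter.val).prod} := by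
  intro l
  induction l with
  | nil =>
    intro _
    refine Submodule.subset_span ⟨[], [], ?_, ?_, ?_⟩
    · intro b hb
      exact absurd hb List.not_mem_nil
    · intro b hb
      exact absurd hb List.not_mem_nil
    · simp
  | cons a l ih =>
    intro hl
    have h1 := ih fun b hb => hl b (List.mem_cons_of_mem _ hb)
    have ha0 := hl a List.mem_cons_self
    obtain ⟨i, v, hv, g⟩ := a
    rw [List.map_cons, List.prod_cons]
    change W.map g v * _ ∈ _
    have ha : GLComm Φ (P i) m g t := ha0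
    have h2 := H.span i _ hv
    clear hl ha0 hv
    induction h2 using Submodule.span_induction with
    | mem v hv =>
      rcases hv with ⟨lam, hv⟩ | hv
      · have h3 := Submodule.apply_mem_span_image_of_mem_span
          (LinearMap.mulLeft W.K (W.map g v)) h1
        refine Submodule.span_mono ?_ h3
        rintro _ ⟨_, ⟨lx, l', hlx, hl', rfl⟩, rfl⟩
        refine ⟨lx, ⟨i, v, lam, hv, g⟩ :: l', hlx, ?_, ?_⟩
        · intro b hb
          rcases List.mem_cons.1 hb with rfl | hb
          · exact ha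
          · exact hl' b hb
        · rw [List.map_cons, List.prod_cons]
          change W.map g v * ((lx.map XLetter.val).prod * _) = _ * (W.map g v * _)
          rw [← mul_assoc, comm_even (W.map_mem g (H.sub_le i hv.mem)) (xprod_mem H lx),
            mul_assoc]
      · have h3 := Submodule.apply_mem_span_image_of_mem_span
          (LinearMap.mulLeft W.K (W.map g v)) h1
        refine Submodule.span_mono ?_ h3
        rintro _ ⟨_, ⟨lx, l', hlx, hl', rfl⟩, rfl⟩
        refine ⟨⟨i, v, hv, g⟩ :: lx, l', ?_, hl', ?_⟩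
        · intro b hb
          rcases List.mem_cons.1 hb with rfl | hb
          · exact ha
          · exact hlx b hb
        · rw [List.map_cons, List.prod_cons, mul_assoc]
          rfl
    | zero => rw [map_zero, zero_mul]; exact Submodule.zero_mem _
    | add x y _ _ hx hy => rw [map_add, add_mul]; exact Submodule.add_mem _ hx hy
    | smul c x _ hx => rw [map_smul, smul_mul_assoc]; exact Submodule.smul_mem _ _ hx

lemma letters_comm (hP : ∀ i, (P i).IsFrobenius Φ m) (l : List (Letter P Z)) : ∃ t, 0 < t ∧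
    ∀ r, 0 < r → ∀ a ∈ l, GLComm Φ (P a.i) m a.g (t * r) := by
  induction l with
  | nil => exact ⟨1, one_pos, fun r _ a ha => absurd ha List.not_mem_nil⟩
  | cons a l ih =>
    obtain ⟨t, ht, h⟩ := ih
    obtain ⟨s, hs, h'⟩ := exists_glcomm (hP a.i) a.g
    refine ⟨s * t, Nat.mul_pos hs ht, fun r hr b hb => ?_⟩
    rcases List.mem_cons.1 hb with rfl | hb
    · rw [mul_assoc]
      exact h' _ (Nat.mul_pos ht hr)
    · rw [mul_comm s t, mul_assoc]
      exact h _ (Nat.mul_pos hs hr) b hb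

/-- Products of letters and of a homogeneous generalised eigenvector of a product of copies
of `Y`, with compatible Frobenius endomorphisms. -/
structure GMono (Φ : FrobSystem W p) (σ : W.K →+* ℂ) (P : I → Piece W Y) (m : ℕ) (R : ℤ[X])
    (Z : 𝒱.Obj) (t : ℕ) where
  x : List (XLetter p P m Z)
  l : List (ELetter p P m Z)
  T : 𝒱.Obj
  g : Z ⟶ T
  d : ℕ
  y : W.H T
  ν : W.K
  s : ℕ
  hx : XComm Φ t x
  hl : EComm Φ t l
  hT : IsProductOf {Y} T
  hy : y ∈ W.gr T d
  hs : 0 < s
  hse : s * Φ.e T = t * Φ.e Z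
  comm : ∀ y : W.H T, frob Φ Z t (W.map g y) = W.map g (frob Φ T s y)
  good : GoodAt Φ σ R T s
  gen : y ∈ Module.End.maxGenEigenspace (frob Φ T s) ν

/-- The product of the further eigenvectors. -/
noncomputable def GMono.xval {t : ℕ} (G : GMono Φ σ P m R Z t) : W.H Z :=
  (G.x.map XLetter.val).prod

/-- The product of the other factors. -/
noncomputable def GMono.eval {t : ℕ} (G : GMono Φ σ P m R Z t) : W.H Z :=
  (G.l.map ELetter.val).prod * W.map G.g G.y

/-- The product. -/
noncomputable def GMono.val {t : ℕ} (G : GMono Φ σ P m R Z t) : W.H Z :=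
  G.xval * G.eval

/-- The cohomology is spanned by the good monomials. -/
lemma span_good [IsAlgClosed W.K] (hSPAN : St_SPAN.{u, v, 0}) (H : GSetup Φ σ P m R)
    (hZ : IsProductOf ({Y} ∪ Set.range fun i => (P i).obj) Z) (c : W.H Z) :
    ∃ t, 0 < t ∧ ∀ r, 0 < r →
      c ∈ Submodule.span W.K {c | ∃ G : GMono Φ σ P m R Z (t * r), c = G.val} := by
  have h1 := hSPAN W Y P H.sub_le H.gen Z hZ c
  induction h1 using Submodule.span_induction with
  | mem c hc =>
    obtain ⟨l, T, g, d, y, hT, hy, rfl⟩ := hc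
    obtain ⟨t₁, ht₁, h1⟩ := letters_comm H.frob l
    obtain ⟨a, ha, h2⟩ := good_Y (σ := σ) H.hR hT
    obtain ⟨t₂, ht₂, h3⟩ := exists_comm_dvd Φ g a ha
    refine ⟨t₁ * t₂, Nat.mul_pos ht₁ ht₂, fun r hr => ?_⟩
    have h4 : ∀ a ∈ l, GLComm Φ (P a.i) m a.g (t₁ * t₂ * r) := by
      rw [mul_assoc]
      exact h1 _ (Nat.mul_pos ht₂ hr)
    have h5 := h3 (t₁ * r) (Nat.mul_pos ht₁ hr)
    rw [← mul_assoc, mul_comm t₂ t₁] at h5
    obtain ⟨s, hs, has, hse, hcomm⟩ := h5
    have h6 := span_gen_sub (frob Φ T s) (S := W.gr T d) (fun x hx => W.map_mem _ hx) hy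
    have h7 := span_letters H (t₁ * t₂ * r) l h4
    clear hy
    generalize (l.map Letter.val).prod = A at h7
    induction h7 using Submodule.span_induction with
    | mem A hA =>
      obtain ⟨lx, l', hlx, hl', rfl⟩ := hA
      induction h6 using Submodule.span_induction with
      | mem y hy =>
        obtain ⟨hy, ν, hν⟩ := hy
        refine Submodule.subset_span ⟨⟨lx, l', T, g, d, y, ν, s, hlx, hl', hT, hy, hs, hse,
          hcomm, h2.dvd has, hν⟩, ?_⟩
        rw [mul_assoc]
        rfl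
      | zero => rw [map_zero, mul_zero]; exact Submodule.zero_mem _
      | add x y _ _ hx hy => rw [map_add, mul_add]; exact Submodule.add_mem _ hx hy
      | smul c x _ hx => rw [map_smul, mul_smul_comm]; exact Submodule.smul_mem _ _ hx
    | zero => rw [zero_mul]; exact Submodule.zero_mem _
    | add x y _ _ hx hy => rw [add_mul]; exact Submodule.add_mem _ hx hy
    | smul c x _ hx => rw [smul_mul_assoc]; exact Submodule.smul_mem _ _ hx
  | zero => exact ⟨1, one_pos, fun r _ => Submodule.zero_mem _⟩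
  | add x y _ _ hx hy =>
    obtain ⟨t₁, ht₁, h1⟩ := hx
    obtain ⟨t₂, ht₂, h2⟩ := hy
    refine ⟨t₁ * t₂, Nat.mul_pos ht₁ ht₂, fun r hr => Submodule.add_mem _ ?_ ?_⟩
    · rw [mul_assoc]
      exact h1 _ (Nat.mul_pos ht₂ hr)
    · rw [mul_comm t₁ t₂, mul_assoc]
      exact h2 _ (Nat.mul_pos ht₁ hr)
  | smul c x _ hx =>
    obtain ⟨t₁, ht₁, h1⟩ := hx
    exact ⟨t₁, ht₁, fun r hr => Submodule.smul_mem _ _ (h1 r hr)⟩

/-- The Frobenius endomorphism on a product of letters. -/
lemma frob_letters (H : GSetup Φ σ P m R) {t : ℕ} (l : List (ELetter p P m Z))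
    (hl : EComm Φ t l) : ∃ t', 0 < t' ∧
      frob Φ Z t (l.map ELetter.val).prod = (l.map ELetter.lam).prod ^ t' •
        (l.map ELetter.val).prod ∧ (l ≠ [] → m * t' = Φ.e Z * t) := by
  by_cases h0 : l = []
  · subst h0
    refine ⟨1, one_pos, ?_, fun h => absurd rfl h⟩
    rw [List.map_nil, List.map_nil, List.prod_nil, List.prod_nil, one_pow, one_smul]
    exact frob_one Φ t
  · obtain ⟨b, hb⟩ := List.exists_mem_of_ne_nil l h0
    obtain ⟨s', t', ht', -, he, -⟩ := hl b hb
    refine ⟨t', ht', ?_, fun _ => he⟩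
    clear h0 hb
    induction l with
    | nil =>
      rw [List.map_nil, List.map_nil, List.prod_nil, List.prod_nil, one_pow, one_smul]
      exact frob_one Φ t
    | cons a l ih =>
      have h1 := ih fun b hb => hl b (List.mem_cons_of_mem _ hb)
      obtain ⟨s'', t'', ht'', -, he', hL, h2⟩ := hl a List.mem_cons_self
      rw [← he] at he'
      have e1 : t'' = t' := Nat.eq_of_mul_eq_mul_left H.hm he'
      subst e1
      rw [List.map_cons, List.prod_cons, List.map_cons, List.prod_cons, frob_mul_apply, h1]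
      have h3 : frob Φ Z t a.val = a.lam ^ t'' • a.val := by
        rw [ELetter.val, h2, hL.eig a.isEig.eig, map_smul]
      rw [h3, smul_mul_smul_comm, mul_pow]

/-- The Frobenius endomorphism on a product of further eigenvectors. -/
lemma frob_xletters {t : ℕ} (l : List (XLetter p P m Z)) (hl : XComm Φ t l) :
    frob Φ Z t (l.map XLetter.val).prod = (card Φ Z t : W.K) ^ (l.map XLetter.half).sum •
      (l.map XLetter.val).prod := by
  induction l with
  | nil =>
    rw [List.map_nil, List.map_nil, List.prod_nil, List.sum_nil, pow_zero, one_smul]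
    exact frob_one Φ t
  | cons a l ih =>
    have h1 := ih fun b hb => hl b (List.mem_cons_of_mem _ hb)
    obtain ⟨s', t', ht', h2t, he, hL, h2⟩ := hl a List.mem_cons_self
    obtain ⟨n, hn, h3⟩ := hL.ext_eig h2t a.isExt
    have h4 : a.half = n := by
      rw [XLetter.half, hn]
      omega
    have h5 : W534.card Φ (P a.i).obj s' = W534.card Φ Z t := by
      apply card_eq_of
      rw [← hL.2.2.1, mul_comm t' m, he, mul_comm]
    have h6 : frob Φ Z t a.val = (card Φ Z t : W.K) ^ a.half • a.val := by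
      rw [XLetter.val, h2, h3, map_smul, h4, h5]
    rw [List.map_cons, List.prod_cons, List.map_cons, List.sum_cons, frob_mul_apply, h1, h6,
      smul_mul_smul_comm, pow_add]

lemma letters_mem (H : GSetup Φ σ P m R) (l : List (ELetter p P m Z)) :
    (l.map ELetter.val).prod ∈ W.gr Z (l.map ELetter.deg).sum := by
  induction l with
  | nil => exact W.one_mem Z
  | cons a l ih =>
    simp only [List.map_cons, List.prod_cons, List.sum_cons]
    exact W.mul_mem (val_mem H a) ih

/-- A good monomial is a generalised eigenvector. -/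
lemma good_gen {t : ℕ} (G : GMono Φ σ P m R Z t) {μ : W.K}
    (hμ : frob Φ Z t (G.l.map ELetter.val).prod = μ • (G.l.map ELetter.val).prod) :
    G.val ∈ Module.End.maxGenEigenspace (frob Φ Z t)
      (((card Φ Z t : W.K) ^ (G.x.map XLetter.half).sum * μ) * G.ν) := by
  have h : ((LinearMap.mulLeft W.K (G.xval * (G.l.map ELetter.val).prod)) ∘ₗ
      (W.map G.g).toLinearMap) G.y ∈ Module.End.maxGenEigenspace (frob Φ Z t)
      (((card Φ Z t : W.K) ^ (G.x.map XLetter.half).sum * μ) * G.ν) := by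
    refine gen_map (T := frob Φ G.T G.s) ?_ G.gen
    intro x
    change frob Φ Z t ((G.xval * (G.l.map ELetter.val).prod) * W.map G.g x) =
      _ • ((G.xval * (G.l.map ELetter.val).prod) * W.map G.g (frob Φ G.T G.s x))
    rw [frob_mul_apply, frob_mul_apply, hμ, G.comm, GMono.xval, frob_xletters G.x G.hx,
      smul_mul_smul_comm, smul_mul_assoc]
  have e : G.val = ((LinearMap.mulLeft W.K
      (G.xval * (G.l.map ELetter.val).prod)) ∘ₗ (W.map G.g).toLinearMap) G.y := by
    rw [GMono.val, GMono.eval, ← mul_assoc]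
    rfl
  rw [e]
  exact h

lemma exists_good_gen (H : GSetup Φ σ P m R) {t : ℕ} (G : GMono Φ σ P m R Z t) :
    ∃ μ : W.K, G.val ∈ Module.End.maxGenEigenspace (frob Φ Z t) μ := by
  obtain ⟨t', -, h, -⟩ := frob_letters H G.l G.hl
  exact ⟨_, good_gen G h⟩

lemma good_deg (H : GSetup Φ σ P m R) {t : ℕ} (G : GMono Φ σ P m R Z t) :
    G.val ∈ W.gr Z (2 * (G.x.map XLetter.half).sum + ((G.l.map ELetter.deg).sum + G.d)) :=
  W.mul_mem (xprod_mem H G.x) (W.mul_mem (letters_mem H G.l) (W.map_mem _ G.hy))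

/-- Generalised Tate classes are spanned by good monomials which are generalised Tate classes. -/
lemma genTate_span [IsAlgClosed W.K] (hSPAN : St_SPAN.{u, v, 0}) (H : GSetup Φ σ P m R)
    (hZ : IsProductOf ({Y} ∪ Set.range fun i => (P i).obj) Z) {s j : ℕ} (hs : 0 < s) {c : W.H Z}
    (hc : c ∈ genTate Φ Z s j) : ∃ t, 0 < t ∧
      c ∈ Submodule.span W.K {c | (∃ G : GMono Φ σ P m R Z t, c = G.val) ∧
        c ∈ genTate Φ Z t j} := by
  obtain ⟨t₀, ht₀, h0⟩ := span_good (σ := σ) hSPAN H hZ c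
  refine ⟨t₀ * s, Nat.mul_pos ht₀ hs, ?_⟩
  set t := t₀ * s with ht
  have htp : 0 < t := Nat.mul_pos ht₀ hs
  have h1 := h0 s hs
  have h2 : c ∈ genTate Φ Z t j := genTate_mono' Φ s t₀ j hc
  have h3 := mem_span_gen (T := frob Φ Z t) (fun v hv => by
    obtain ⟨G, rfl⟩ := hv
    exact exists_good_gen H G) h1 h2.1
  have h4 := Submodule.apply_mem_span_image_of_mem_span (H914.proj (W.isInternal Z) (2 * j)) h3
  rw [proj_same _ h2.2] at h4
  refine Submodule.span_le.2 ?_ h4
  rintro _ ⟨_, ⟨⟨G, rfl⟩, hv⟩, rfl⟩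
  rcases proj_cases (n := 2 * j) (good_deg H G) with ⟨h6, h7⟩ | h6
  · rw [h6]
    exact Submodule.subset_span ⟨⟨G, rfl⟩, hv, h7⟩
  · rw [h6]
    exact Submodule.zero_mem _

lemma pow_mem_closure (H : GSetup Φ σ P m R) (n : ℕ) :
    ((p ^ n : ℕ) : ℂ) ∈ Submonoid.closure {z : ℂ | aeval z R = 0} := by
  rw [Nat.cast_pow]
  have h : (p : ℂ) ∈ {z : ℂ | aeval z R = 0} := H.hRp
  exact Submonoid.pow_mem _ (Submonoid.subset_closure h) n

/-- Good monomials which are generalised Tate classes are products of further eigenvectors and of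
algebraic classes. -/
lemma good_alg [IsAlgClosed W.K] (hPAIR : St_PAIR.{u, v}) (H : GSetup Φ σ P m R)
    (hT : ∀ T : 𝒱.Obj, IsProductOf {Y} T → ∀ j ≤ T.dim, SemisimpleTateIn Φ T j)
    {t j : ℕ} (G : GMono Φ σ P m R Z t)
    (hc : G.val ∈ genTate Φ Z t j) (hc0 : G.val ≠ 0) : G.eval ∈ algSpan W Z := by
  classical
  set hx := (G.x.map XLetter.half).sum with hhx
  obtain ⟨t', ht', hfr, hne⟩ := frob_letters H G.l G.hl
  have h1 := good_gen G hfr
  rw [← hhx] at h1
  have h2 : ((card Φ Z t : W.K) ^ hx * (G.l.map ELetter.lam).prod ^ t') * G.ν =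
      (card Φ Z t : W.K) ^ j :=
    eq_of_mem_gen h1 hc.1 hc0
  have hy0 : G.y ≠ 0 := by
    intro h
    apply hc0
    rw [GMono.val, GMono.eval, h, map_zero, mul_zero, mul_zero]
  have hν : σ G.ν ∈ Submonoid.closure {z : ℂ | aeval z R = 0} :=
    G.good _ (hasEigenvalue_of_gen G.gen hy0)
  have hcard : ((card Φ Z t ^ hx : ℕ) : ℂ) ∈ Submonoid.closure {z : ℂ | aeval z R = 0} := by
    rw [W534.card, ← pow_mul]
    exact pow_mem_closure H _
  -- the relation
  have h3 : (((G.l.map (ELetter.label σ)).map fun x => x.2 ^ t').prod) *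
      (σ G.ν * ((card Φ Z t ^ hx : ℕ) : ℂ)) = ((card Φ Z t ^ j : ℕ) : ℂ) := by
    have e1 := congrArg σ h2
    rw [map_mul, map_mul, map_pow, map_pow, map_list_prod, map_pow, map_natCast] at e1
    rw [Nat.cast_pow, Nat.cast_pow, ← e1, List.map_map, List.map_map]
    have e2 : ∀ l : List (ELetter p P m Z), (l.map ((fun x : I × ℂ => x.2 ^ t') ∘
        ELetter.label σ)).prod = (l.map (⇑σ ∘ ELetter.lam)).prod ^ t' := by
      intro l
      induction l with
      | nil => simp
      | cons a l ih =>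
        rw [List.map_cons, List.prod_cons, ih, List.map_cons, List.prod_cons, mul_pow]
        rfl
    rw [e2]
    ring
  have h4 : BalList (fun i => (P i).Q p m) (G.l.map (ELetter.label σ)) := by
    intro i z
    have := H.bal (G.l.map (ELetter.label σ)) (by
      intro x hx
      obtain ⟨b, _, rfl⟩ := List.mem_map.1 hx
      exact aeval_sigma σ b.isEig.root) t' ht' (σ G.ν * ((card Φ Z t ^ hx : ℕ) : ℂ))
      (Submonoid.mul_mem _ hν hcard) (card Φ Z t ^ j)
      (pow_pos (card_pos Φ t) j) h3 i z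
    convert this
  obtain ⟨h5, N, hN, hprod⟩ := balanced_alg hPAIR H G.l.length G.l le_rfl h4
  -- degrees
  have h6 : G.val ∈ W.gr Z (2 * hx + (2 * N + G.d)) := by
    rw [← hN]
    exact good_deg H G
  have h7 : 2 * hx + (2 * N + G.d) = 2 * j := by
    by_contra hne
    apply hc0
    rw [← proj_same (W.isInternal Z) hc.2]
    exact proj_ne _ h6 hne
  have h8 : ((p : W.K) ^ (m * N)) ^ t' = (p : W.K) ^ (Φ.e Z * t * N) := by
    rw [← pow_mul]
    by_cases hl : G.l = []
    · have : N = 0 := by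
        rw [hl] at hN
        simp at hN
        omega
      rw [this]
      simp
    · congr 1
      rw [← hne hl]
      ring
  have hp0 : (p : W.K) ≠ 0 := Nat.cast_ne_zero.2 Φ.p_pos.ne'
  obtain ⟨j', hj'⟩ : ∃ j', j = hx + (N + j') := ⟨j - hx - N, by omega⟩
  have hd : G.d = 2 * j' := by omega
  have h9 : G.ν = (card Φ G.T G.s : W.K) ^ j' := by
    rw [hprod, h8, card_pow, card_pow, hj', mul_add, mul_add, pow_add, pow_add, mul_assoc] at h2
    have h10 := mul_left_cancel₀ (pow_ne_zero _ hp0) h2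
    have h11 := mul_left_cancel₀ (pow_ne_zero _ hp0) h10
    rw [h11, card_pow]
    congr 1
    rw [mul_comm (Φ.e G.T), G.hse]
    ring
  have h10 : G.y ∈ genTate Φ G.T G.s j' := by
    refine ⟨?_, ?_⟩
    · have := G.gen
      rw [h9] at this
      exact this
    · rw [← hd]
      exact G.hy
  have h11 : j' ≤ G.T.dim := by
    by_contra hlt
    push Not at hlt
    apply hy0
    have := h10.2
    have h12 : W.gr G.T (2 * j') = ⊥ := W.gr_eq_bot G.T (2 * j') (by omega)
    rw [h12] at this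
    exact (Submodule.mem_bot _).1 this
  have h12 := hT G.T G.hT j' h11 G.s G.hs h10
  exact algSpan_mul h5 (algSpan_map _ (W397.MF.spanCycles_le_algSpan _ h12))

/-- The generalised Tate classes are combinations of products of further eigenvectors and
algebraic classes. -/
theorem gtate_span [IsAlgClosed W.K] (hPAIR : St_PAIR.{u, v}) (hSPAN : St_SPAN.{u, v, 0})
    (H : GSetup Φ σ P m R)
    (hY : ∀ T : 𝒱.Obj, IsProductOf {Y} T → ∀ j ≤ T.dim, SemisimpleTateIn Φ T j)
    (hZ : IsProductOf ({Y} ∪ Set.range fun i => (P i).obj) Z) {s j : ℕ} (hs : 0 < s) {c : W.H Z}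
    (hc : c ∈ genTate Φ Z s j) :
    c ∈ Submodule.span W.K {c | ∃ (l : List (XLetter p P m Z)) (A : W.H Z),
      A ∈ algSpan W Z ∧ c = (l.map XLetter.val).prod * A} := by
  obtain ⟨t, ht, h1⟩ := genTate_span (σ := σ) hSPAN H hZ hs hc
  refine Submodule.span_le.2 ?_ h1
  rintro v ⟨⟨G, rfl⟩, hv⟩
  by_cases h0 : G.val = 0
  · rw [h0]
    exact Submodule.zero_mem _
  · exact Submodule.subset_span ⟨G.x, G.eval, good_alg hPAIR H hY G hv h0, rfl⟩

/-- **The Tate conjecture and semisimplicity for all products.** -/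
theorem gtate_products [IsAlgClosed W.K] (hPAIR : St_PAIR.{u, v}) (hSPAN : St_SPAN.{u, v, 0})
    (H : GSetup Φ σ P m R)
    (hY : ∀ T : 𝒱.Obj, IsProductOf {Y} T → ∀ j ≤ T.dim, SemisimpleTateIn Φ T j)
    (hX : ∀ i x, IsExt p (P i) m x → x ∈ algSpan W (P i).obj) (Z : 𝒱.Obj)
    (hZ : IsProductOf ({Y} ∪ Set.range fun i => (P i).obj) Z) :
    ∀ j, SemisimpleTateIn Φ Z j := by
  intro j s hs c hc
  refine spanCycles_of_alg ?_ hc.2
  refine Submodule.span_le.2 ?_ (gtate_span hPAIR hSPAN H hY hZ hs hc)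
  rintro _ ⟨l, A, hA, rfl⟩
  refine algSpan_mul ?_ hA
  clear hA
  induction l with
  | nil => exact one_mem_algSpan
  | cons a l ih =>
    rw [List.map_cons, List.prod_cons]
    exact algSpan_mul (algSpan_map _ (hX a.i _ a.isExt)) ih

lemma ext_mul {a b : W.H Z} {i j : ℕ} (ha : a ∈ W.gr Z (2 * i)) (hb : b ∈ W.gr Z (2 * j)) :
    H281R3.HT.ext W (a * b) (a * b) = H281R3.HT.ext W a a * H281R3.HT.ext W b b := by
  rw [H281R3.HT.ext, H281R3.HT.ext, H281R3.HT.ext, map_mul, map_mul]
  have h1 : W.map (fst Z Z) b * W.map (snd Z Z) a = W.map (snd Z Z) a * W.map (fst Z Z) b :=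
    comm_even (W.map_mem _ hb) (W.map_mem _ ha)
  calc W.map (fst Z Z) a * W.map (fst Z Z) b * (W.map (snd Z Z) a * W.map (snd Z Z) b)
      = W.map (fst Z Z) a * (W.map (fst Z Z) b * W.map (snd Z Z) a) * W.map (snd Z Z) b := by
        simp only [mul_assoc]
    _ = _ := by
        rw [h1]
        simp only [mul_assoc]

/-- **The conjecture D for all products.** -/
theorem gd_products [IsAlgClosed W.K] (hPAIR : St_PAIR.{u, v}) (hSPAN : St_SPAN.{u, v, 0})
    (hDFIN : St_DFIN.{u, v}) (H : GSetup Φ σ P m R)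
    (hY : ∀ T : 𝒱.Obj, IsProductOf {Y} T → ∀ j ≤ T.dim, SemisimpleTateIn Φ T j)
    (hX : ∀ i x, IsExt p (P i) m x →
      H281R3.HT.ext W x x ∈ algSpan W ((P i).obj.prod (P i).obj)) (Z : 𝒱.Obj)
    (hZ : IsProductOf ({Y} ∪ Set.range fun i => (P i).obj) Z) : HomEqNum W Z := by
  refine hDFIN W p H.hp Φ Z fun s hs j c hc => ?_
  refine Submodule.span_mono ?_ (gtate_span hPAIR hSPAN H hY hZ hs hc)
  rintro _ ⟨l, A, hA, rfl⟩
  refine ⟨(l.map XLetter.val).prod, A, ⟨_, xprod_mem H l⟩, ?_, hA, rfl⟩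
  clear hA
  induction l with
  | nil =>
    rw [List.map_nil, List.prod_nil, H281R3.HT.ext, map_one, map_one, one_mul]
    exact one_mem_algSpan
  | cons a l ih =>
    rw [List.map_cons, List.prod_cons, ext_mul (a.val_mem H) (xprod_mem H l)]
    refine algSpan_mul ?_ ih
    have h1 := algSpan_map (Obj.lift (fst Z Z ≫ a.g) (snd Z Z ≫ a.g)) (hX a.i _ a.isExt)
    rw [H281R3.HT.ext, map_mul, ← W.map_comp, ← W.map_comp, Obj.lift_fst, Obj.lift_snd,
      W.map_comp, W.map_comp] at h1
    exact h1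

end Pool.Agent.W458.MF.G
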