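import Pool.Agent.W458.MF.Defs
import Pool.Agent.H281R3.HT.Defs
import Pool.Agent.W534.PoleD

/-!
# Statements of the geometric parts
-/

open CategoryTheory AlgebraicGeometry Polynomial

universe u v w

namespace Pool.Agent.W458.MF

open Pool.Agent.H914 Pool.Agent.W534 Pool.Agent.W521.Frob VarClass Obj WeilCohomology
  Pool.Agent.H281R3.HT

/-- PAIR: if the eigenvalues `lam` and `lam'` of a power of the Frobenius endomorphism, with product
`q ^ dim X`, are simple, with the eigenvectors `v` and `v'`, then the external product of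
`v` and `v'` is a linear combination of algebraic classes (of the graphs of the powers of the
Frobenius endomorphism). -/
def St_PAIR : Prop := ∀ {k : Type u} [Field k] {𝒱 : VarClass k} {ops : CycleOps 𝒱}
  (W : WeilCohomology.{u, v} ops) (p : ℕ) (Φ : FrobSystem W p) (X : 𝒱.Obj) (a : ℕ)
  (lam lam' : W.K) (v v' : W.H X), 0 < a → lam * lam' = (card Φ X a : W.K) ^ X.dim →
  frob Φ X a v = lam • v → frob Φ X a v' = lam' • v' →
  (∀ x, x ∈ Module.End.maxGenEigenspace (frob Φ X a) lam → ∃ c : W.K, x = c • v) →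
  (∀ x, frob Φ X a x = lam' • x → ∃ c : W.K, x = c • v') →
  ext W v v' ∈ algSpan W (X.prod X)

/-- A class in the subspace of a piece, and a morphism to the variety of the piece. -/
structure Letter {k : Type u} [Field k] {𝒱 : VarClass k} {ops : CycleOps 𝒱}
    {W : WeilCohomology.{u, v} ops} {Y : 𝒱.Obj} {I : Type w} (P : I → Piece W Y) (Z : 𝒱.Obj) where
  i : I
  v : W.H (P i).obj
  mem : v ∈ (P i).sub
  g : Z ⟶ (P i).obj

/-- The pull-back of the class. -/
noncomputable def Letter.val {k : Type u} [Field k] {𝒱 : VarClass k} {ops : CycleOps 𝒱}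
    {W : WeilCohomology.{u, v} ops} {Y : 𝒱.Obj} {I : Type w} {P : I → Piece W Y} {Z : 𝒱.Obj}
    (a : Letter P Z) : W.H Z :=
  W.map a.g a.v

/-- Products of pull-backs of classes in the subspaces of the pieces, and of the pull-back of a
homogeneous class of a product `T` of copies of `Y`. -/
def IsMono {k : Type u} [Field k] {𝒱 : VarClass k} {ops : CycleOps 𝒱}
    {W : WeilCohomology.{u, v} ops} {Y : 𝒱.Obj} {I : Type w} (P : I → Piece W Y) (Z : 𝒱.Obj)
    (c : W.H Z) : Prop :=
  ∃ (l : List (Letter P Z)) (T : 𝒱.Obj) (g : Z ⟶ T) (d : ℕ) (y : W.H T),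
    IsProductOf {Y} T ∧ y ∈ W.gr T d ∧ c = (l.map Letter.val).prod * W.map g y

/-- SPAN: the cohomology of a product of copies of `Y` and of varieties of pieces is spanned by
these products. -/
def St_SPAN : Prop := ∀ {k : Type u} [Field k] {𝒱 : VarClass k} {ops : CycleOps 𝒱}
  (W : WeilCohomology.{u, v} ops) (Y : 𝒱.Obj) {I : Type w} (P : I → Piece W Y),
  (∀ i, (P i).sub ≤ W.gr (P i).obj (P i).obj.dim) →
  (∀ i, ∀ x : W.H (P i).obj, ∃ y : W.H Y, x - W.map (P i).mor y ∈ (P i).sub) →
  ∀ Z : 𝒱.Obj, IsProductOf ({Y} ∪ Set.range fun i => (P i).obj) Z →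
    ∀ c : W.H Z, c ∈ Submodule.span W.K {c | IsMono P Z c}

/-- POLE: if all generalised Tate classes of `Z` are linear combinations of algebraic classes, the
pole formula holds. -/
def St_POLE : Prop := ∀ {k : Type u} [Field k] {𝒱 : VarClass k} {ops : CycleOps 𝒱}
  (W : WeilCohomology.{u, v} ops) (σ : W.K →+* ℂ) (p : ℕ), 1 < p → ∀ (Φ : FrobSystem W p)
  (Z : 𝒱.Obj), RiemannHyp Φ σ Z → (∀ j ≤ Z.dim, SemisimpleTateIn Φ Z j) →
    ∀ j ≤ Z.dim, PoleFormula Φ σ Z j

end Pool.Agent.W458.MF
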